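import Pool.Agent.Helper994_CO.Base

set_option autoImplicit false

/-!
# Automatic invariants of the permutation: transport of residue classes and finiteness
-/

namespace Pool.Agent.Helper994_CO

variable {α : Type*}

/-- The `b`-kernel of a sequence. -/
def bKernel (b : ℕ) (F : ℕ → α) : Set (ℕ → α) :=
  {h | ∃ k r : ℕ, r < b ^ k ∧ h = fun n => F (b ^ k * n + r)}

/-- The kernel with respect to all numbers `2 ^ a * 3 ^ c`. -/
def mKernel (F : ℕ → α) : Set (ℕ → α) :=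
  {h | ∃ a c r : ℕ, r < 2 ^ a * 3 ^ c ∧ h = fun n => F (2 ^ a * 3 ^ c * n + r)}

theorem inv_two {F : ℕ → α} (h : ∀ n, F (f n) = F n) (m : ℕ) : F (3 * m) = F (2 * m) := by
  rw [← f_two_mul, h]

theorem inv_one {F : ℕ → α} (h : ∀ n, F (f n) = F n) (m : ℕ) : F (3 * m + 1) = F (4 * m + 1) := by
  rw [← f_four_add, h]

theorem inv_three {F : ℕ → α} (h : ∀ n, F (f n) = F n) (m : ℕ) : F (3 * m + 2) = F (4 * m + 3) := by
  rw [← f_four_add', h]

/-- one step forward -/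
theorem step_fwd {F : ℕ → α} (h : ∀ n, F (f n) = F n) {a c r : ℕ} (ha : 2 ≤ a)
    (hr : r < 2 ^ a * 3 ^ c) :
    ∃ a' r' : ℕ, (a' + 1 = a ∨ a' + 2 = a) ∧ r' < 2 ^ a' * 3 ^ (c + 1) ∧
      ∀ n, F (2 ^ a' * 3 ^ (c + 1) * n + r') = F (2 ^ a * 3 ^ c * n + r) := by
  obtain ⟨e, rfl⟩ : ∃ e, a = e + 2 := ⟨a - 2, by omega⟩
  have e4 : 2 ^ (e + 2) * 3 ^ c = 4 * (2 ^ e * 3 ^ c) := by ring
  have e2 : 2 ^ (e + 1) * 3 ^ (c + 1) = 6 * (2 ^ e * 3 ^ c) := by ring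
  have e1 : 2 ^ e * 3 ^ (c + 1) = 3 * (2 ^ e * 3 ^ c) := by ring
  have h4 : r % 2 = 0 ∨ r % 4 = 1 ∨ r % 4 = 3 := by omega
  rcases h4 with h4 | h4 | h4
  · obtain ⟨s, rfl⟩ : ∃ s, r = 2 * s := ⟨r / 2, by omega⟩
    refine ⟨e + 1, 3 * s, Or.inl rfl, by omega, fun n => ?_⟩
    rw [e2, e4]
    have := inv_two h (2 * (2 ^ e * 3 ^ c) * n + s)
    rw [show 6 * (2 ^ e * 3 ^ c) * n + 3 * s = 3 * (2 * (2 ^ e * 3 ^ c) * n + s) by ring, this]
    congr 1; ring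
  · obtain ⟨s, rfl⟩ : ∃ s, r = 4 * s + 1 := ⟨r / 4, by omega⟩
    refine ⟨e, 3 * s + 1, Or.inr rfl, by omega, fun n => ?_⟩
    rw [e1, e4]
    have := inv_one h ((2 ^ e * 3 ^ c) * n + s)
    rw [show 3 * (2 ^ e * 3 ^ c) * n + (3 * s + 1) = 3 * ((2 ^ e * 3 ^ c) * n + s) + 1 by ring, this]
    congr 1; ring
  · obtain ⟨s, rfl⟩ : ∃ s, r = 4 * s + 3 := ⟨r / 4, by omega⟩
    refine ⟨e, 3 * s + 2, Or.inr rfl, by omega, fun n => ?_⟩
    rw [e1, e4]
    have := inv_three h ((2 ^ e * 3 ^ c) * n + s)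
    rw [show 3 * (2 ^ e * 3 ^ c) * n + (3 * s + 2) = 3 * ((2 ^ e * 3 ^ c) * n + s) + 2 by ring, this]
    congr 1; ring

/-- one step backward -/
theorem step_bwd {F : ℕ → α} (h : ∀ n, F (f n) = F n) {a c r : ℕ}
    (hr : r < 2 ^ a * 3 ^ (c + 1)) :
    ∃ a' r' : ℕ, (a' = a + 1 ∨ a' = a + 2) ∧ r' < 2 ^ a' * 3 ^ c ∧
      ∀ n, F (2 ^ a' * 3 ^ c * n + r') = F (2 ^ a * 3 ^ (c + 1) * n + r) := by
  have e4 : 2 ^ (a + 2) * 3 ^ c = 4 * (2 ^ a * 3 ^ c) := by ring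
  have e2 : 2 ^ (a + 1) * 3 ^ c = 2 * (2 ^ a * 3 ^ c) := by ring
  have e1 : 2 ^ a * 3 ^ (c + 1) = 3 * (2 ^ a * 3 ^ c) := by ring
  have h3 : r % 3 = 0 ∨ r % 3 = 1 ∨ r % 3 = 2 := by omega
  rcases h3 with h3 | h3 | h3
  · obtain ⟨s, rfl⟩ : ∃ s, r = 3 * s := ⟨r / 3, by omega⟩
    refine ⟨a + 1, 2 * s, Or.inl rfl, by omega, fun n => ?_⟩
    rw [e1, e2]
    have := inv_two h ((2 ^ a * 3 ^ c) * n + s)
    rw [show 3 * (2 ^ a * 3 ^ c) * n + 3 * s = 3 * ((2 ^ a * 3 ^ c) * n + s) by ring, this]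
    congr 1; ring
  · obtain ⟨s, rfl⟩ : ∃ s, r = 3 * s + 1 := ⟨r / 3, by omega⟩
    refine ⟨a + 2, 4 * s + 1, Or.inr rfl, by omega, fun n => ?_⟩
    rw [e1, e4]
    have := inv_one h ((2 ^ a * 3 ^ c) * n + s)
    rw [show 3 * (2 ^ a * 3 ^ c) * n + (3 * s + 1) = 3 * ((2 ^ a * 3 ^ c) * n + s) + 1 by ring, this]
    congr 1; ring
  · obtain ⟨s, rfl⟩ : ∃ s, r = 3 * s + 2 := ⟨r / 3, by omega⟩
    refine ⟨a + 2, 4 * s + 3, Or.inr rfl, by omega, fun n => ?_⟩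
    rw [e1, e4]
    have := inv_three h ((2 ^ a * 3 ^ c) * n + s)
    rw [show 3 * (2 ^ a * 3 ^ c) * n + (3 * s + 2) = 3 * ((2 ^ a * 3 ^ c) * n + s) + 2 by ring, this]
    congr 1; ring

/-- What is reached from the class `r` modulo `2 ^ a * 3 ^ c` by transport. -/
def Reach (F : ℕ → α) (u v a c r : ℕ) : Prop :=
  ∃ a' c' r' : ℕ, r' < 2 ^ a' * 3 ^ c' ∧ u * c' ≤ v * a' ∧ v * a' ≤ u * c' + 2 * v + u ∧
    ∀ n, F (2 ^ a' * 3 ^ c' * n + r') = F (2 ^ a * 3 ^ c * n + r)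

theorem reach_low {F : ℕ → α} (h : ∀ n, F (f n) = F n) (u v : ℕ) :
    ∀ c a r : ℕ, r < 2 ^ a * 3 ^ c → v * a < u * c → Reach F u v a c r := by
  intro c
  induction c with
  | zero => intro a r _ h1; simp at h1
  | succ c ih =>
    intro a r hr h1
    obtain ⟨a', r', ha', hr', he⟩ := step_bwd h hr
    by_cases h2 : v * a' < u * c
    · obtain ⟨a'', c'', r'', g1, g2, g3, g4⟩ := ih a' r' hr' h2
      exact ⟨a'', c'', r'', g1, g2, g3, fun n => (g4 n).trans (he n)⟩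
    · push Not at h2
      refine ⟨a', c, r', hr', h2, ?_, he⟩
      rcases ha' with rfl | rfl
      · nlinarith
      · nlinarith

theorem reach_high {F : ℕ → α} (h : ∀ n, F (f n) = F n) (u v : ℕ) :
    ∀ a c r : ℕ, r < 2 ^ a * 3 ^ c → u * c + 2 * v + u < v * a → Reach F u v a c r := by
  intro a
  induction a using Nat.strong_induction_on with
  | _ a ih =>
    intro c r hr h1
    have ha : 2 ≤ a := by
      by_contra hcon
      push Not at hcon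
      have : v * a ≤ v * 1 := Nat.mul_le_mul_left _ (by omega)
      have h0 : 0 ≤ u * c := Nat.zero_le _
      omega
    obtain ⟨a', r', ha', hr', he⟩ := step_fwd h ha hr
    have h3 : v * a ≤ v * a' + 2 * v := by
      rcases ha' with h3 | h3
      · rw [← h3]; nlinarith
      · rw [← h3]; nlinarith
    by_cases h2 : u * (c + 1) + 2 * v + u < v * a'
    · obtain ⟨a'', c'', r'', g1, g2, g3, g4⟩ := ih a' (by omega) (c + 1) r' hr' h2
      exact ⟨a'', c'', r'', g1, g2, g3, fun n => (g4 n).trans (he n)⟩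
    · push Not at h2
      refine ⟨a', c + 1, r', hr', ?_, h2, he⟩
      nlinarith

theorem reach_all {F : ℕ → α} (h : ∀ n, F (f n) = F n) (u v a c r : ℕ) (hr : r < 2 ^ a * 3 ^ c) :
    Reach F u v a c r := by
  by_cases h1 : v * a < u * c
  · exact reach_low h u v c a r hr h1
  · by_cases h2 : u * c + 2 * v + u < v * a
    · exact reach_high h u v a c r hr h2
    · push Not at h1 h2
      exact ⟨a, c, r, hr, h1, h2, fun _ => rfl⟩

theorem mKernel_finite {F : ℕ → α} (h : ∀ n, F (f n) = F n) {u v : ℕ} (huv : 1 ≤ u + v)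
    (hfin : (bKernel (2 ^ u * 3 ^ v) F).Finite) : (mKernel F).Finite := by
  set b := 2 ^ u * 3 ^ v with hb
  set B := 2 * u + v + 2 with hB
  set T : ((ℕ → α) × ℕ × ℕ × ℕ) → (ℕ → α) := fun t n => t.1 (2 ^ t.2.1 * 3 ^ t.2.2.1 * n + t.2.2.2) with hT
  set S : Set ((ℕ → α) × ℕ × ℕ × ℕ) :=
    (bKernel b F) ×ˢ (Set.Iic B ×ˢ (Set.Iic B ×ˢ Set.Iic (2 ^ B * 3 ^ B))) with hS
  have hSfin : S.Finite := hfin.prod ((Set.finite_Iic B).prod ((Set.finite_Iic B).prod (Set.finite_Iic _)))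
  refine (hSfin.image T).subset ?_
  rintro _ ⟨a, c, r, hr, rfl⟩
  obtain ⟨a', c', r', g1, g2, g3, g4⟩ := reach_all h u v a c r hr
  -- choose k
  obtain ⟨k, hk1, hk2, hk3, hk4⟩ : ∃ k, u * k ≤ a' ∧ a' ≤ u * k + B ∧ v * k ≤ c' ∧ c' ≤ v * k + B := by
    by_cases hv : v = 0
    · subst hv
      have hu : 1 ≤ u := by omega
      have hc0 : c' = 0 := by
        simp only [Nat.zero_mul, Nat.le_zero, mul_eq_zero] at g2
        rcases g2 with g2 | g2
        · omega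
        · exact g2
      refine ⟨a' / u, Nat.mul_div_le a' u, ?_, by omega, by omega⟩
      have := Nat.div_add_mod a' u
      have h2 := Nat.mod_lt a' (show 0 < u by omega)
      omega
    · have hv1 : 1 ≤ v := by omega
      have h1 := Nat.div_add_mod c' v
      have h2 := Nat.mod_lt c' (show 0 < v by omega)
      refine ⟨c' / v, ?_, ?_, Nat.mul_div_le c' v, by omega⟩
      · by_contra hcon
        push Not at hcon
        have h3 : v * (a' + 1) ≤ v * (u * (c' / v)) := Nat.mul_le_mul_left _ hcon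
        have h4 : v * (u * (c' / v)) = u * (v * (c' / v)) := by ring
        have h5 : u * (v * (c' / v)) ≤ u * c' := Nat.mul_le_mul_left _ (Nat.mul_div_le c' v)
        rw [h4] at h3
        nlinarith
      · by_contra hcon
        push Not at hcon
        have h3 : v * (u * (c' / v) + B + 1) ≤ v * a' := Nat.mul_le_mul_left _ hcon
        have h4 : v * (u * (c' / v) + B + 1) = u * (v * (c' / v)) + v * (B + 1) := by ring
        have h5 : u * c' ≤ u * (v * (c' / v) + v) := Nat.mul_le_mul_left _ (by omega)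
        have h6 : u * (v * (c' / v) + v) = u * (v * (c' / v)) + u * v := by ring
        rw [h4] at h3
        rw [h6] at h5
        have h7 : v * (B + 1) = v * (2 * u + v + 2) + v := by rw [hB]; ring
        nlinarith
  obtain ⟨x, hx⟩ : ∃ x, a' = u * k + x := ⟨a' - u * k, by omega⟩
  obtain ⟨y, hy⟩ : ∃ y, c' = v * k + y := ⟨c' - v * k, by omega⟩
  have hxB : x ≤ B := by omega
  have hyB : y ≤ B := by omega
  have hmod : 2 ^ a' * 3 ^ c' = b ^ k * (2 ^ x * 3 ^ y) := by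
    rw [hx, hy, hb, mul_pow, ← pow_mul, ← pow_mul]; ring
  have hbk : 0 < b ^ k := by rw [hb]; positivity
  refine ⟨(fun n => F (b ^ k * n + r' % b ^ k), x, y, r' / b ^ k), ?_, ?_⟩
  · refine ⟨⟨k, r' % b ^ k, Nat.mod_lt _ hbk, rfl⟩, hxB, hyB, ?_⟩
    show r' / b ^ k ≤ 2 ^ B * 3 ^ B
    have h1 : r' / b ^ k < 2 ^ x * 3 ^ y := by
      rw [Nat.div_lt_iff_lt_mul hbk, mul_comm, ← hmod]; exact g1
    have h2 : 2 ^ x * 3 ^ y ≤ 2 ^ B * 3 ^ B :=
      Nat.mul_le_mul (Nat.pow_le_pow_right (by norm_num) hxB) (Nat.pow_le_pow_right (by norm_num) hyB)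
    omega
  · funext n
    show F (b ^ k * (2 ^ x * 3 ^ y * n + r' / b ^ k) + r' % b ^ k) = F (2 ^ a * 3 ^ c * n + r)
    rw [← g4 n, hmod]
    congr 1
    have := Nat.div_add_mod r' (b ^ k)
    calc b ^ k * (2 ^ x * 3 ^ y * n + r' / b ^ k) + r' % b ^ k
        = b ^ k * (2 ^ x * 3 ^ y) * n + (b ^ k * (r' / b ^ k) + r' % b ^ k) := by ring
      _ = _ := by rw [this]

/-- The pigeonhole step. -/
theorem exists_shift {F : ℕ → α} (hfin : (mKernel F).Finite) :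
    ∃ X d : ℕ, 1 ≤ X ∧ 1 ≤ d ∧ ∀ a c r : ℕ, r < 2 ^ a * 3 ^ c →
      F (2 ^ a * 3 ^ c * X + r) = F (2 ^ a * 3 ^ c * (X + d) + r) := by
  have hrange : (Set.range F).Finite := by
    refine (hfin.image (fun h => h 0)).subset ?_
    rintro _ ⟨n, rfl⟩
    refine ⟨fun m => F (2 ^ n * 3 ^ 0 * m + n), ⟨n, 0, n, ?_, rfl⟩, ?_⟩
    · simpa using Nat.lt_two_pow_self
    · simp
  have := hfin.to_subtype
  have := hrange.to_subtype
  have hval : ∀ (h : mKernel F) (X : ℕ), h.1 X ∈ Set.range F := by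
    rintro ⟨_, a, c, r, _, rfl⟩ X
    exact ⟨_, rfl⟩
  let Φ : ℕ → (mKernel F → Set.range F) := fun X h => ⟨h.1 (X + 1), hval h (X + 1)⟩
  obtain ⟨X, Y, hne, hXY⟩ := Finite.exists_ne_map_eq_of_infinite Φ
  have key : ∀ X Y : ℕ, X < Y → Φ X = Φ Y → ∃ X d : ℕ, 1 ≤ X ∧ 1 ≤ d ∧ ∀ a c r : ℕ, r < 2 ^ a * 3 ^ c →
      F (2 ^ a * 3 ^ c * X + r) = F (2 ^ a * 3 ^ c * (X + d) + r) := by
    intro X Y hlt hEq
    refine ⟨X + 1, Y - X, by omega, by omega, fun a c r hr => ?_⟩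
    have h1 := congrFun hEq ⟨fun n => F (2 ^ a * 3 ^ c * n + r), a, c, r, hr, rfl⟩
    have h2 := congrArg Subtype.val h1
    have h3 : X + 1 + (Y - X) = Y + 1 := by omega
    rw [h3]
    exact h2
  rcases Nat.lt_or_gt_of_ne hne with h | h
  · exact key X Y h hXY
  · exact key Y X h hXY.symm

end Pool.Agent.Helper994_CO
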