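import Pool.Agent.Helper994_CO.Auto1
import Pool.Agent.H397R2.LogDense

set_option autoImplicit false

/-!
# Automatic invariants of the permutation: local periods and the conclusion
-/

namespace Pool.Agent.Helper994_CO

variable {α : Type*}

/-- The theorem of Fine and Wilf, in the form used here. -/
theorem fine_wilf {F : ℕ → α} {x y : ℕ} : ∀ p q : ℕ, 1 ≤ p → 1 ≤ q → x + p ≤ y → x + q ≤ y →
    (∀ z, x ≤ z → z < y → F z = F (z + p)) → (∀ z, x ≤ z → z < y → F z = F (z + q)) →
    ∀ z, x ≤ z → z < y → F z = F (z + Nat.gcd p q) := by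
  intro p q
  induction hn : p + q using Nat.strong_induction_on generalizing p q with
  | _ n ih =>
    intro hp hq hxp hxq h1 h2
    -- subtract the smaller from the larger
    have key : ∀ p q : ℕ, 1 ≤ p → p < q → x + q ≤ y →
        (∀ z, x ≤ z → z < y → F z = F (z + p)) → (∀ z, x ≤ z → z < y → F z = F (z + q)) →
        (∀ z, x ≤ z → z < y → F z = F (z + (q - p))) := by
      intro p q hp hpq hxq h1 h2 z hz1 hz2
      by_cases hz : x + p ≤ z
      · have h3 := h1 (z - p) (by omega) (by omega)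
        have h4 := h2 (z - p) (by omega) (by omega)
        rw [show z - p + p = z by omega] at h3
        rw [show z - p + q = z + (q - p) by omega] at h4
        rw [← h3, h4]
      · have h3 := h2 z hz1 hz2
        have h4 := h1 (z + (q - p)) (by omega) (by omega)
        rw [show z + (q - p) + p = z + q by omega] at h4
        rw [h3, h4]
    rcases Nat.lt_trichotomy p q with hlt | heq | hgt
    · have h3 := key p q hp hlt hxq h1 h2
      have h4 := ih (p + (q - p)) (by omega) p (q - p) rfl hp (by omega) hxp (by omega) h1 h3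
      rw [Nat.gcd_sub_self_right hlt.le] at h4
      exact h4
    · subst heq
      rw [Nat.gcd_self]
      exact h1
    · have h3 := key q p hq hgt hxp h2 h1
      have h4 := ih ((p - q) + q) (by omega) (p - q) q rfl (by omega) hq (by omega) hxq h3 h2
      rw [Nat.gcd_sub_self_left hgt.le] at h4
      exact h4

/-- Iterating a local period. -/
theorem local_iter {F : ℕ → α} {x y δ : ℕ} (h : ∀ z, x ≤ z → z < y → F z = F (z + δ)) (hδ : 1 ≤ δ) :
    ∀ (j z : ℕ), x ≤ z → z + j * δ ≤ y → F z = F (z + j * δ) := by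
  intro j
  induction j with
  | zero => intro z _ _; simp
  | succ j ih =>
    intro z hz1 hz2
    have h1 := ih z hz1 (by nlinarith)
    have h2 := h (z + j * δ) (by nlinarith) (by nlinarith)
    rw [h1, h2]
    congr 1; ring

/-- Local periods proportional to the scale, with windows eight times as long. -/
theorem exists_local {F : ℕ → α} (hfin : (mKernel F).Finite) :
    ∃ C g : ℕ, 1 ≤ C ∧ 1 ≤ g ∧ ∀ a c z : ℕ, 2 ^ a * 3 ^ c * C ≤ z → z < 2 ^ a * 3 ^ c * (C + 8 * g) →
      F z = F (z + 2 ^ a * 3 ^ c * g) := by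
  obtain ⟨X, d, hX, hd, hshift⟩ := exists_shift hfin
  -- choose the powers
  have hindep : ∀ a b : ℕ, 1 ≤ a → 3 ^ a ≠ 2 ^ b := by
    intro a b ha hab
    have h3 : (3 ^ a) % 2 = 1 := by
      rw [Nat.pow_mod]; simp
    rcases Nat.eq_zero_or_pos b with hb | hb
    · subst hb
      have : 1 < 3 ^ a := Nat.one_lt_pow (by omega) (by norm_num)
      rw [hab] at this
      simp at this
    · obtain ⟨b', rfl⟩ : ∃ b', b = b' + 1 := ⟨b - 1, by omega⟩
      rw [hab, pow_succ] at h3
      omega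
  set W : ℕ := X + 8 * d with hW
  have hWpos : (0 : ℝ) < W := by
    have : 1 ≤ W := by omega
    exact_mod_cast this
  have hlt : (1 : ℝ) / (1 + 1 / W) < 1 := by
    rw [div_lt_one (by positivity)]
    have : 0 < 1 / (W : ℝ) := by positivity
    linarith
  obtain ⟨u, v, h1, h2⟩ := Pool.Agent.H397R2.exists_pow_between (K := 3) (by norm_num)
    hindep (show (0 : ℝ) < 1 / (1 + 1 / W) by positivity) hlt
  rw [one_mul] at h2
  have h2' : 2 ^ u < 3 ^ v := by exact_mod_cast h2
  have h1' : W * 3 ^ v < (W + 1) * 2 ^ u := by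
    have h3 : (1 : ℝ) / (1 + 1 / W) = W / (W + 1) := by field_simp
    rw [h3, div_mul_eq_mul_div, div_lt_iff₀ (by positivity)] at h1
    have h4 : (W : ℝ) * 3 ^ v < (W + 1) * 2 ^ u := by
      push_cast at h1
      linarith
    exact_mod_cast h4
  obtain ⟨e, he⟩ : ∃ e, 3 ^ v = 2 ^ u + e := ⟨3 ^ v - 2 ^ u, by omega⟩
  have he1 : 1 ≤ e := by omega
  have hWe : W * e < 2 ^ u := by
    rw [he] at h1'
    nlinarith
  refine ⟨3 ^ v * X + 2 ^ u * d, d * e, ?_, Nat.mul_pos hd he1, ?_⟩
  · have : 0 < 3 ^ v * X := Nat.mul_pos (by positivity) hX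
    omega
  intro a c z hz1 hz2
  set s := 2 ^ a * 3 ^ c with hs
  have hspos : 0 < s := by rw [hs]; positivity
  -- y = z - s 2^u d
  have hy0 : s * (2 ^ u * d) ≤ z := by
    calc s * (2 ^ u * d) ≤ s * (3 ^ v * X + 2 ^ u * d) := Nat.mul_le_mul_left _ (by omega)
      _ ≤ z := hz1
  obtain ⟨y, hy⟩ : ∃ y, z = y + s * (2 ^ u * d) := ⟨z - s * (2 ^ u * d), by omega⟩
  have hy1 : s * (3 ^ v * X) ≤ y := by
    rw [hy, mul_add] at hz1; omega
  have hy2 : y < s * (2 ^ u * (X + 1)) := by
    have h5 : s * (3 ^ v * X + 2 ^ u * d + 8 * (d * e)) ≤ s * (2 ^ u * (X + 1)) + s * (2 ^ u * d) := by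
      rw [← mul_add]
      apply Nat.mul_le_mul_left
      rw [he]
      have : (X + 8 * d) * e < 2 ^ u := hWe
      nlinarith
    omega
  -- first relation
  have r1 : F y = F (y + s * (2 ^ u * d)) := by
    have e1 : 2 ^ (u + a) * 3 ^ c = s * 2 ^ u := by rw [hs, pow_add]; ring
    obtain ⟨r, hr⟩ : ∃ r, y = s * 2 ^ u * X + r := by
      refine ⟨y - s * 2 ^ u * X, ?_⟩
      have : s * 2 ^ u * X ≤ s * (3 ^ v * X) := by
        rw [mul_assoc]
        exact Nat.mul_le_mul_left _ (Nat.mul_le_mul_right _ h2'.le)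
      omega
    have hr2 : r < s * 2 ^ u := by
      rw [hr] at hy2
      have : s * (2 ^ u * (X + 1)) = s * 2 ^ u * X + s * 2 ^ u := by ring
      omega
    have := hshift (u + a) c r (by rw [e1]; exact hr2)
    rw [e1] at this
    rw [hr, this]
    congr 1; ring
  have r2 : F y = F (y + s * (3 ^ v * d)) := by
    have e1 : 2 ^ a * 3 ^ (c + v) = s * 3 ^ v := by rw [hs, pow_add]; ring
    obtain ⟨r, hr⟩ : ∃ r, y = s * 3 ^ v * X + r := by
      refine ⟨y - s * 3 ^ v * X, ?_⟩
      have : s * 3 ^ v * X = s * (3 ^ v * X) := by ring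
      omega
    have hr2 : r < s * 3 ^ v := by
      have h6 : s * (2 ^ u * (X + 1)) ≤ s * 3 ^ v * X + s * 3 ^ v := by
        have : s * 3 ^ v * X + s * 3 ^ v = s * (3 ^ v * (X + 1)) := by ring
        rw [this]
        exact Nat.mul_le_mul_left _ (Nat.mul_le_mul_right _ h2'.le)
      omega
    have := hshift a (c + v) r (by rw [e1]; exact hr2)
    rw [e1] at this
    rw [hr, this]
    congr 1; ring
  rw [hy, ← r1, r2, he]
  congr 1; ring

/-- In every geometric scale there is a number of the shape `P ^ A * p ^ (I - i) * q ^ i`. -/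
theorem exists_scale {P p q M M' : ℕ} (hP : 2 ≤ P) (hp : 1 ≤ p) (hpq : p < q) (hM : 1 ≤ M)
    (hqM : q * M ≤ p * M') :
    ∃ I Z : ℕ, ∀ z, Z ≤ z → ∃ A i j : ℕ, i ≤ I ∧ j ≤ I ∧
      P ^ A * p ^ j * q ^ i * M ≤ z ∧ z < P ^ A * p ^ j * q ^ i * M' := by
  -- choose I
  obtain ⟨I, hI⟩ : ∃ I : ℕ, P * p ^ I ≤ q ^ I := by
    have hpR : (0 : ℝ) < p := by exact_mod_cast hp
    have h1 : (1 : ℝ) < (q : ℝ) / p := by
      rw [lt_div_iff₀ hpR, one_mul]; exact_mod_cast hpq
    obtain ⟨I, hI⟩ := pow_unbounded_of_one_lt (P : ℝ) h1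
    refine ⟨I, ?_⟩
    rw [div_pow, lt_div_iff₀ (by positivity)] at hI
    exact_mod_cast hI.le
  refine ⟨I, M * p ^ I, fun z hz => ?_⟩
  -- the largest A
  have hpI : 0 < M * p ^ I := Nat.mul_pos hM (by positivity)
  obtain ⟨A, hA1, hA2⟩ : ∃ A, P ^ A * (M * p ^ I) ≤ z ∧ z < P ^ (A + 1) * (M * p ^ I) := by
    have hex : ∃ A, z < P ^ (A + 1) * (M * p ^ I) := by
      refine ⟨z, ?_⟩
      calc z < P ^ z := Nat.lt_pow_self (by omega)
        _ ≤ P ^ (z + 1) := Nat.pow_le_pow_right (by omega) (by omega)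
        _ ≤ P ^ (z + 1) * (M * p ^ I) := Nat.le_mul_of_pos_right _ hpI
    classical
    refine ⟨Nat.find hex, ?_, Nat.find_spec hex⟩
    rcases Nat.eq_zero_or_pos (Nat.find hex) with h0 | h0
    · rw [h0]; simpa using hz
    · have := Nat.find_min hex (m := Nat.find hex - 1) (by omega)
      push Not at this
      rwa [show Nat.find hex - 1 + 1 = Nat.find hex by omega] at this
  -- the intermediate value
  have hex : ∃ i, z < P ^ A * p ^ (I - i) * q ^ i * M ∧ i ≤ I := by
    refine ⟨I, ?_, le_refl _⟩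
    have h3 : P ^ (A + 1) * (M * p ^ I) ≤ P ^ A * p ^ (I - I) * q ^ I * M := by
      rw [Nat.sub_self, pow_zero, mul_one, pow_succ]
      calc P ^ A * P * (M * p ^ I) = P ^ A * (P * p ^ I) * M := by ring
        _ ≤ P ^ A * q ^ I * M := by
          apply Nat.mul_le_mul_right
          exact Nat.mul_le_mul_left _ hI
    omega
  classical
  obtain ⟨hi1, hi2⟩ := Nat.find_spec hex
  have hi0 : 1 ≤ Nat.find hex := by
    by_contra hcon
    have h0 : Nat.find hex = 0 := by omega
    rw [h0] at hi1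
    rw [Nat.sub_zero, pow_zero, mul_one] at hi1
    have : P ^ A * p ^ I * M = P ^ A * (M * p ^ I) := by ring
    omega
  obtain ⟨i, hi⟩ : ∃ i, Nat.find hex = i + 1 := ⟨Nat.find hex - 1, by omega⟩
  rw [hi] at hi1 hi2
  have hmin := Nat.find_min hex (m := i) (by omega)
  have hmin' : P ^ A * p ^ (I - i) * q ^ i * M ≤ z := by
    by_contra hcon
    push Not at hcon
    exact hmin ⟨hcon, by omega⟩
  refine ⟨A, i, I - i, by omega, by omega, hmin', lt_of_lt_of_le hi1 ?_⟩
  have e1 : I - i = (I - (i + 1)) + 1 := by omega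
  rw [e1, pow_succ, pow_succ]
  calc P ^ A * p ^ (I - (i + 1)) * (q ^ i * q) * M = P ^ A * p ^ (I - (i + 1)) * q ^ i * (q * M) := by ring
    _ ≤ P ^ A * p ^ (I - (i + 1)) * q ^ i * (p * M') := Nat.mul_le_mul_left _ hqM
    _ = _ := by ring

end Pool.Agent.Helper994_CO
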