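import Pool.Agent.Helper994_CO.Auto2

set_option autoImplicit false

/-!
# Automatic invariants of the permutation are ultimately constant
-/

namespace Pool.Agent.Helper994_CO

variable {α : Type*}

theorem combine {F : ℕ → α} {C g s s' D z : ℕ} (hg : 1 ≤ g) (hs1 : 1 ≤ s)
    (hs : ∀ z, s * C ≤ z → z < s * (C + 8 * g) → F z = F (z + s * g))
    (hs' : ∀ z, s' * C ≤ z → z < s' * (C + 8 * g) → F z = F (z + s' * g))
    (hle : s ≤ s') (hz1 : s' * (C + 2 * g) ≤ z) (hz2 : z < s * (C + 6 * g)) (hD : D ≤ s)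
    (hdvd : Nat.gcd s s' ∣ D) : F z = F (z + g * D) := by
  have hs2 : s * C ≤ s' * C := Nat.mul_le_mul_right _ hle
  have hs3 : s * g ≤ s' * g := Nat.mul_le_mul_right _ hle
  have hs4 : s * (C + 8 * g) ≤ s' * (C + 8 * g) := Nat.mul_le_mul_right _ hle
  have e1 : s' * (C + 2 * g) = s' * C + 2 * (s' * g) := by ring
  have e2 : s * (C + 6 * g) = s * C + 6 * (s * g) := by ring
  have e3 : s * (C + 8 * g) = s * C + 8 * (s * g) := by ring
  have hsg : 1 ≤ s * g := Nat.mul_pos hs1 hg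
  have hfw := fine_wilf (F := F) (x := s' * C) (y := s * (C + 8 * g)) (s * g) (s' * g) hsg (by omega)
    (by omega) (by omega) (fun w h1 h2 => hs w (by omega) h2) (fun w h1 h2 => hs' w h1 (by omega))
  obtain ⟨j, rfl⟩ := hdvd
  have hgcd : Nat.gcd (s * g) (s' * g) = Nat.gcd s s' * g := Nat.gcd_mul_right _ _ _
  rw [hgcd] at hfw
  have hδ : 1 ≤ Nat.gcd s s' * g := Nat.mul_pos (Nat.gcd_pos_of_pos_left _ hs1) hg
  have hgD : g * (Nat.gcd s s' * j) ≤ g * s := Nat.mul_le_mul_left _ hD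
  have e4 : g * s = s * g := Nat.mul_comm _ _
  have e5 : j * (Nat.gcd s s' * g) = g * (Nat.gcd s s' * j) := by ring
  have := local_iter hfw hδ j z (by omega) (by omega)
  rw [e5] at this
  exact this

theorem gcd_smooth (a c a' c' U V : ℕ) (ha : a' ≤ U) (hc : c ≤ V) :
    Nat.gcd (2 ^ a * 3 ^ c) (2 ^ a' * 3 ^ c') ∣ 2 ^ U * 3 ^ V := by
  have hcop : Nat.Coprime (2 ^ a') (3 ^ c') := Nat.Coprime.pow _ _ (by norm_num)
  rw [Nat.Coprime.gcd_mul _ hcop]
  apply Nat.mul_dvd_mul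
  · exact (Nat.gcd_dvd_right _ _).trans (pow_dvd_pow _ ha)
  · have h1 : Nat.gcd (2 ^ a * 3 ^ c) (3 ^ c') ∣ 2 ^ a * 3 ^ c := Nat.gcd_dvd_left _ _
    have h2 : Nat.Coprime (Nat.gcd (2 ^ a * 3 ^ c) (3 ^ c')) (2 ^ a) :=
      Nat.Coprime.coprime_dvd_left (Nat.gcd_dvd_right _ _) (Nat.Coprime.pow _ _ (by norm_num))
    exact (h2.dvd_of_dvd_mul_left h1).trans (pow_dvd_pow _ hc)

theorem three_two_indep : ∀ a b : ℕ, 1 ≤ a → 3 ^ a ≠ 2 ^ b := by
  intro a b ha hab
  have h3 : (3 ^ a) % 2 = 1 := by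
    rw [Nat.pow_mod]; simp
  rcases Nat.eq_zero_or_pos b with hb | hb
  · subst hb
    have : 1 < 3 ^ a := Nat.one_lt_pow (by omega) (by norm_num)
    rw [hab] at this
    simp at this
  · obtain ⟨b', rfl⟩ : ∃ b', b = b' + 1 := ⟨b - 1, by omega⟩
    rw [hab, pow_succ] at h3
    omega

/-- A sequence with finite mixed kernel is ultimately periodic. -/
theorem eventually_periodic {F : ℕ → α} (hfin : (mKernel F).Finite) :
    ∃ G Z : ℕ, 1 ≤ G ∧ ∀ z, Z ≤ z → F z = F (z + G) := by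
  obtain ⟨C, g, hC, hg, hloc⟩ := exists_local hfin
  have hMpos : (0 : ℝ) < ((C + 2 * g : ℕ) : ℝ) := by
    have : 1 ≤ C + 2 * g := by omega
    exact_mod_cast this
  have hMM : ((C + 2 * g : ℕ) : ℝ) < ((C + 6 * g : ℕ) : ℝ) := by
    have : C + 2 * g < C + 6 * g := by omega
    exact_mod_cast this
  have hM'pos := hMpos.trans hMM
  -- first family
  obtain ⟨u1, v1, h1, h2⟩ := Pool.Agent.H397R2.exists_pow_between (K := 3) (by norm_num)
    three_two_indep (show (0 : ℝ) < ((C + 2 * g : ℕ) : ℝ) / ((C + 6 * g : ℕ) : ℝ) by positivity)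
    (show ((C + 2 * g : ℕ) : ℝ) / ((C + 6 * g : ℕ) : ℝ) < 1 by rw [div_lt_one hM'pos]; exact hMM)
  rw [one_mul] at h2
  have h2' : 2 ^ u1 < 3 ^ v1 := by exact_mod_cast h2
  have h1' : 3 ^ v1 * (C + 2 * g) ≤ 2 ^ u1 * (C + 6 * g) := by
    rw [div_mul_eq_mul_div, div_lt_iff₀ hM'pos] at h1
    have h3 : (((C + 2 * g) * 3 ^ v1 : ℕ) : ℝ) < ((2 ^ u1 * (C + 6 * g) : ℕ) : ℝ) := by
      push_cast at h1 ⊢
      exact h1
    have h4 : (C + 2 * g) * 3 ^ v1 < 2 ^ u1 * (C + 6 * g) := by exact_mod_cast h3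
    rw [Nat.mul_comm (3 ^ v1)]
    exact h4.le
  -- second family
  obtain ⟨u2, v2, k1, k2⟩ := Pool.Agent.H397R2.exists_pow_between (K := 3) (by norm_num)
    three_two_indep (show (0 : ℝ) < 1 by norm_num)
    (show (1 : ℝ) < ((C + 6 * g : ℕ) : ℝ) / ((C + 2 * g : ℕ) : ℝ) by
      rw [lt_div_iff₀ hMpos, one_mul]; exact hMM)
  rw [one_mul] at k1
  have k1' : 3 ^ v2 < 2 ^ u2 := by exact_mod_cast k1
  have k2' : 2 ^ u2 * (C + 2 * g) ≤ 3 ^ v2 * (C + 6 * g) := by
    rw [div_mul_eq_mul_div, lt_div_iff₀ hMpos] at k2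
    have h3 : ((2 ^ u2 * (C + 2 * g) : ℕ) : ℝ) < (((C + 6 * g) * 3 ^ v2 : ℕ) : ℝ) := by
      push_cast at k2 ⊢
      exact k2
    have h4 : 2 ^ u2 * (C + 2 * g) < (C + 6 * g) * 3 ^ v2 := by exact_mod_cast h3
    rw [Nat.mul_comm (3 ^ v2)]
    exact h4.le
  obtain ⟨I1, Z1, hZ1⟩ := exists_scale (P := 2) (p := 2 ^ u1) (q := 3 ^ v1) (M := C + 2 * g)
    (M' := C + 6 * g) (by norm_num) Nat.one_le_two_pow h2' (by omega) h1'
  obtain ⟨I2, Z2, hZ2⟩ := exists_scale (P := 3) (p := 3 ^ v2) (q := 2 ^ u2) (M := C + 2 * g)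
    (M' := C + 6 * g) (by norm_num) (Nat.one_le_pow _ _ (by norm_num)) k1' (by omega) k2'
  set U := u2 * I2 with hU
  set V := v1 * I1 with hV
  set D := 2 ^ U * 3 ^ V with hD
  have hDpos : 1 ≤ D := Nat.mul_pos (by positivity) (by positivity)
  refine ⟨g * D, Z1 + Z2 + D * (C + 6 * g), Nat.mul_pos hg hDpos, fun z hz => ?_⟩
  obtain ⟨A1, i1, j1, hi1, hj1, m1, m1'⟩ := hZ1 z (by omega)
  obtain ⟨A2, i2, j2, hi2, hj2, m2, m2'⟩ := hZ2 z (by omega)
  have es : 2 ^ A1 * (2 ^ u1) ^ j1 * (3 ^ v1) ^ i1 = 2 ^ (A1 + u1 * j1) * 3 ^ (v1 * i1) := by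
    rw [← pow_mul, ← pow_mul, pow_add]
  have es' : 3 ^ A2 * (3 ^ v2) ^ j2 * (2 ^ u2) ^ i2 = 2 ^ (u2 * i2) * 3 ^ (A2 + v2 * j2) := by
    rw [← pow_mul, ← pow_mul, pow_add]; ring
  rw [es] at m1 m1'
  rw [es'] at m2 m2'
  have hgcd : Nat.gcd (2 ^ (A1 + u1 * j1) * 3 ^ (v1 * i1)) (2 ^ (u2 * i2) * 3 ^ (A2 + v2 * j2)) ∣ D :=
    gcd_smooth _ _ _ _ _ _ (Nat.mul_le_mul_left _ hi2) (Nat.mul_le_mul_left _ hi1)
  have hs := hloc (A1 + u1 * j1) (v1 * i1)
  have hs' := hloc (u2 * i2) (A2 + v2 * j2)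
  set s := 2 ^ (A1 + u1 * j1) * 3 ^ (v1 * i1) with hsdef
  set s' := 2 ^ (u2 * i2) * 3 ^ (A2 + v2 * j2) with hsdef'
  have hspos : 1 ≤ s := Nat.mul_pos (by positivity) (by positivity)
  have hspos' : 1 ≤ s' := Nat.mul_pos (by positivity) (by positivity)
  have hDs : D ≤ s := by
    by_contra hcon
    push Not at hcon
    have : s * (C + 6 * g) ≤ D * (C + 6 * g) := Nat.mul_le_mul_right _ hcon.le
    omega
  have hDs' : D ≤ s' := by
    by_contra hcon
    push Not at hcon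
    have : s' * (C + 6 * g) ≤ D * (C + 6 * g) := Nat.mul_le_mul_right _ hcon.le
    omega
  rcases le_total s s' with hle | hle
  · exact combine hg hspos hs hs' hle m2 m1' hDs hgcd
  · rw [Nat.gcd_comm] at hgcd
    exact combine hg hspos' hs' hs hle m1 m2' hDs' hgcd

/-- Iterating an ultimate period. -/
theorem per_iter {F : ℕ → α} {G Z : ℕ} (h : ∀ z, Z ≤ z → F z = F (z + G)) (j : ℕ) :
    ∀ z, Z ≤ z → F z = F (z + j * G) := by
  induction j with
  | zero => intro z _; simp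
  | succ j ih =>
    intro z hz
    rw [ih z hz, h (z + j * G) (by omega)]
    congr 1; ring

/-- An ultimately periodic invariant is ultimately constant. -/
theorem eventually_const_of_periodic {F : ℕ → α} (h : ∀ n, F (f n) = F n)
    (hper : ∃ G Z : ℕ, 1 ≤ G ∧ ∀ z, Z ≤ z → F z = F (z + G)) :
    ∃ Z : ℕ, ∀ z, Z ≤ z → F z = F (z + 1) := by
  classical
  set P : ℕ → Prop := fun G => 1 ≤ G ∧ ∃ Z : ℕ, ∀ z, Z ≤ z → F z = F (z + G) with hP
  have hex : ∃ G, P G := by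
    obtain ⟨G, Z, h1, h2⟩ := hper
    exact ⟨G, h1, Z, h2⟩
  obtain ⟨hG1, Z, hZ⟩ := Nat.find_spec hex
  have hmin : ∀ H, H < Nat.find hex → ¬ P H := fun H hH => Nat.find_min hex hH
  set G := Nat.find hex with hGdef
  -- G is odd
  have hodd : G % 2 = 1 := by
    by_contra hcon
    obtain ⟨H, hH⟩ : ∃ H, G = 2 * H := ⟨G / 2, by omega⟩
    apply hmin H (by omega)
    refine ⟨by omega, 3 * Z + 3, ?_⟩
    have h3 : ∀ n, 3 * Z + 3 ≤ n → F n = F (n + 3 * H) := by
      intro n hn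
      have hr : n % 3 = 0 ∨ n % 3 = 1 ∨ n % 3 = 2 := by omega
      rcases hr with hr | hr | hr
      · obtain ⟨m, rfl⟩ : ∃ m, n = 3 * m := ⟨n / 3, by omega⟩
        have e1 := hZ (2 * m) (by omega)
        rw [show 3 * m + 3 * H = 3 * (m + H) by ring, inv_two h, inv_two h, e1, hH]
        congr 1; ring
      · obtain ⟨m, rfl⟩ : ∃ m, n = 3 * m + 1 := ⟨n / 3, by omega⟩
        have e1 := per_iter hZ 2 (4 * m + 1) (by omega)
        rw [show 3 * m + 1 + 3 * H = 3 * (m + H) + 1 by ring, inv_one h, inv_one h, e1, hH]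
        congr 1; ring
      · obtain ⟨m, rfl⟩ : ∃ m, n = 3 * m + 2 := ⟨n / 3, by omega⟩
        have e1 := per_iter hZ 2 (4 * m + 3) (by omega)
        rw [show 3 * m + 2 + 3 * H = 3 * (m + H) + 2 by ring, inv_three h, inv_three h, e1, hH]
        congr 1; ring
    intro z hz
    have e1 := h3 z hz
    have e2 := hZ (z + H) (by omega)
    rw [e1, e2, hH]
    congr 1; ring
  have hthree : G % 3 ≠ 0 := by
    intro hcon
    obtain ⟨H, hH⟩ : ∃ H, G = 3 * H := ⟨G / 3, by omega⟩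
    apply hmin H (by omega)
    refine ⟨by omega, 4 * Z + 4, ?_⟩
    have h4 : ∀ n, 4 * Z + 4 ≤ n → F n = F (n + 4 * H) := by
      intro n hn
      have hr : n % 2 = 0 ∨ n % 4 = 1 ∨ n % 4 = 3 := by omega
      rcases hr with hr | hr | hr
      · obtain ⟨m, rfl⟩ : ∃ m, n = 2 * m := ⟨n / 2, by omega⟩
        have e1 := per_iter hZ 2 (3 * m) (by omega)
        rw [show 2 * m + 4 * H = 2 * (m + 2 * H) by ring, ← inv_two h, ← inv_two h, e1, hH]
        congr 1; ring
      · obtain ⟨m, rfl⟩ : ∃ m, n = 4 * m + 1 := ⟨n / 4, by omega⟩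
        have e1 := hZ (3 * m + 1) (by omega)
        rw [show 4 * m + 1 + 4 * H = 4 * (m + H) + 1 by ring, ← inv_one h, ← inv_one h, e1, hH]
        congr 1; ring
      · obtain ⟨m, rfl⟩ : ∃ m, n = 4 * m + 3 := ⟨n / 4, by omega⟩
        have e1 := hZ (3 * m + 2) (by omega)
        rw [show 4 * m + 3 + 4 * H = 4 * (m + H) + 3 by ring, ← inv_three h, ← inv_three h, e1, hH]
        congr 1; ring
    intro z hz
    have e1 := h4 z hz
    have e2 := hZ (z + H) (by omega)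
    rw [e1, e2, hH]
    congr 1; ring
  -- residues modulo G determine the value
  have hres : ∀ x y : ℕ, Z ≤ x → Z ≤ y → x % G = y % G → F x = F y := by
    have key : ∀ x y : ℕ, Z ≤ x → x ≤ y → x % G = y % G → F x = F y := by
      intro x y hx hxy hmod
      obtain ⟨j, hj⟩ : ∃ j, y = x + j * G := by
        have : (y - x) % G = 0 := Nat.sub_mod_eq_zero_of_mod_eq hmod.symm
        obtain ⟨j, hj⟩ := Nat.dvd_of_mod_eq_zero this
        exact ⟨j, by rw [Nat.mul_comm j G]; omega⟩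
      rw [hj]
      exact per_iter hZ j x hx
    intro x y hx hy hmod
    rcases le_total x y with hxy | hxy
    · exact key x y hx hxy hmod
    · exact (key y x hy hxy hmod.symm).symm
  have hcop4 : Nat.Coprime 4 G := by
    have h2 : Nat.Coprime 2 G := (Nat.prime_two.coprime_iff_not_dvd).2 (by omega)
    have := Nat.Coprime.pow_left 2 h2
    norm_num at this
    exact this
  have hcop2 : Nat.Coprime 2 G := (Nat.prime_two.coprime_iff_not_dvd).2 (by omega)
  have hcop3 : Nat.Coprime 3 G := (Nat.prime_three.coprime_iff_not_dvd).2 (by omega)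
  have hNe : NeZero G := ⟨by omega⟩
  have hres' : ∀ x y : ℕ, Z ≤ x → Z ≤ y → (x : ZMod G) = (y : ZMod G) → F x = F y := by
    intro x y hx hy hxy
    exact hres x y hx hy ((ZMod.natCast_eq_natCast_iff' x y G).1 hxy)
  obtain ⟨i4, hi4⟩ : ∃ i4 : ZMod G, 4 * i4 = 1 := by
    have : IsUnit ((4 : ℕ) : ZMod G) := (ZMod.isUnit_iff_coprime 4 G).2 hcop4
    obtain ⟨i, hi⟩ := this.exists_right_inv
    exact ⟨i, by simpa using hi⟩
  obtain ⟨i3, hi3⟩ : ∃ i3 : ZMod G, 3 * i3 = 1 := by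
    have : IsUnit ((3 : ℕ) : ZMod G) := (ZMod.isUnit_iff_coprime 3 G).2 hcop3
    obtain ⟨i, hi⟩ := this.exists_right_inv
    exact ⟨i, by simpa using hi⟩
  obtain ⟨i2, hi2⟩ : ∃ i2 : ZMod G, 2 * i2 = 1 := by
    have : IsUnit ((2 : ℕ) : ZMod G) := (ZMod.isUnit_iff_coprime 2 G).2 hcop2
    obtain ⟨i, hi⟩ := this.exists_right_inv
    exact ⟨i, by simpa using hi⟩
  have hpick : ∀ t : ZMod G, ∃ m : ℕ, Z ≤ m ∧ (m : ZMod G) = t := by
    intro t
    refine ⟨t.val + Z * G, by nlinarith, ?_⟩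
    push_cast
    rw [ZMod.natCast_self, mul_zero, add_zero, ZMod.natCast_zmod_val]
  -- translation by two thirds
  have hstep : ∀ z w : ℕ, Z ≤ z → Z ≤ w → (w : ZMod G) = z + 2 * i3 → F z = F w := by
    intro z w hz hw hzw
    obtain ⟨m, hm1, hm2⟩ := hpick (i4 * ((z : ZMod G) - 1))
    have e1 : ((4 * m + 1 : ℕ) : ZMod G) = z := by
      push_cast
      rw [hm2]
      linear_combination ((z : ZMod G) - 1) * hi4
    obtain ⟨m', hm1', hm2'⟩ := hpick ((m : ZMod G) - i3)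
    have e2 : ((3 * m' + 2 : ℕ) : ZMod G) = ((3 * m + 1 : ℕ) : ZMod G) := by
      push_cast
      rw [hm2']
      linear_combination (-1 : ZMod G) * hi3
    have e3 : ((4 * m' + 3 : ℕ) : ZMod G) = w := by
      have e1' : 4 * (m : ZMod G) + 1 = z := by
        have := e1; push_cast at this; exact this
      push_cast
      rw [hzw, hm2', ← e1']
      linear_combination (-2 : ZMod G) * hi3
    calc F z = F (4 * m + 1) := hres' _ _ hz (by omega) e1.symm
      _ = F (3 * m + 1) := (inv_one h m).symm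
      _ = F (3 * m' + 2) := hres' _ _ (by omega) (by omega) e2.symm
      _ = F (4 * m' + 3) := inv_three h m'
      _ = F w := hres' _ _ (by omega) hw e3
  have hmany : ∀ n z w : ℕ, Z ≤ z → Z ≤ w → (w : ZMod G) = z + n * (2 * i3) → F z = F w := by
    intro n
    induction n with
    | zero =>
      intro z w hz hw hzw
      exact hres' z w hz hw (by rw [hzw]; push_cast; ring)
    | succ n ih =>
      intro z w hz hw hzw
      obtain ⟨m, hm1, hm2⟩ := hpick ((z : ZMod G) + n * (2 * i3))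
      rw [ih z m hz hm1 hm2]
      apply hstep m w hm1 hw
      rw [hzw, hm2]; push_cast; ring
  refine ⟨Z, fun z hz => ?_⟩
  apply hmany (3 * i2 : ZMod G).val z (z + 1) hz (by omega)
  rw [ZMod.natCast_zmod_val]
  push_cast
  linear_combination (-(2 * i2) : ZMod G) * hi3 - hi2

/-- **Main theorem on automatic invariants.** -/
theorem eventually_const {F : ℕ → α} (h : ∀ n, 1 ≤ n → F (f n) = F n) {u v : ℕ} (huv : 1 ≤ u + v)
    (hfin : (bKernel (2 ^ u * 3 ^ v) F).Finite) :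
    ∃ (Z : ℕ) (c : α), ∀ z, Z ≤ z → F z = c := by
  have h' : ∀ n, F (f n) = F n := by
    intro n
    rcases Nat.eq_zero_or_pos n with h0 | h0
    · subst h0; rfl
    · exact h n h0
  obtain ⟨Z, hZ⟩ := eventually_const_of_periodic h' (eventually_periodic (mKernel_finite h' huv hfin))
  refine ⟨Z, F Z, fun z hz => ?_⟩
  have := per_iter hZ (z - Z) Z le_rfl
  rw [this]
  congr 1; omega

/-- A number with an infinite orbit has arbitrarily large forward iterates. -/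
theorem exists_large_iter {a : ℕ} (ha : ∀ k, 1 ≤ k → f^[k] a ≠ a) (N : ℕ) : ∃ k, N ≤ f^[k] a := by
  by_contra hcon
  push Not at hcon
  have hinj : Function.Injective (fun k => f^[k] a) := by
    intro i j hij
    have key : ∀ i j : ℕ, i < j → f^[i] a = f^[j] a → False := by
      intro i j hlt he
      apply ha (j - i) (by omega)
      have h1 : f^[j] a = f^[i] (f^[j - i] a) := by
        rw [← Function.iterate_add_apply, Nat.add_sub_cancel' hlt.le]
      rw [h1] at he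
      exact (f_injective.iterate i he).symm
    rcases Nat.lt_trichotomy i j with hlt | heq | hgt
    · exact (key i j hlt hij).elim
    · exact heq
    · exact (key j i hgt hij.symm).elim
  have hsub : Set.range (fun k => f^[k] a) ⊆ Set.Iio N := by
    rintro _ ⟨k, rfl⟩
    exact hcon k
  exact Set.infinite_range_of_injective hinj ((Set.finite_Iio N).subset hsub)

theorem inv_iter {F : ℕ → α} (h : ∀ n, 1 ≤ n → F (f n) = F n) {a : ℕ} (ha : 1 ≤ a) (k : ℕ) :
    F (f^[k] a) = F a := by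
  induction k with
  | zero => rfl
  | succ k ih => rw [Function.iterate_succ_apply', h _ (iter_f_pos ha k), ih]

end Pool.Agent.Helper994_CO
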