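import Mathlib

set_option autoImplicit false

/-!
# Conway's permutation (the original Collatz permutation): basic facts
-/

namespace Pool.Agent.Helper994_CO

/-- The permutation of the problem: `f (2 m) = 3 m`, `f (4 m - 1) = 3 m - 1`, `f (4 m + 1) = 3 m + 1`
(and `f 0 = 0`). -/
def f (n : ℕ) : ℕ := if n % 2 = 0 then 3 * n / 2 else (3 * n + 1) / 4

/-- The inverse of `f`. -/
def g (n : ℕ) : ℕ :=
  if n % 3 = 0 then 2 * n / 3 else if n % 3 = 1 then (4 * n - 1) / 3 else (4 * n + 1) / 3

/-- The list of the problem. -/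
def L : List ℕ :=
  [8, 14, 40, 64, 80, 82, 104, 136, 172, 184, 188, 242, 256, 274, 280, 296, 352, 368, 382, 386,
   424, 472, 496, 526, 530, 608, 622, 638, 640, 652, 670, 688, 692, 712, 716, 752, 760, 782, 784,
   800, 814, 824, 832, 860, 878, 904, 910, 932, 964, 980]

theorem g_f (n : ℕ) : g (f n) = n := by
  unfold g f
  split_ifs <;> omega

theorem f_g (n : ℕ) : f (g n) = n := by
  unfold g f
  split_ifs <;> omega

theorem f_two_mul (m : ℕ) : f (2 * m) = 3 * m := by
  unfold f
  split_ifs <;> omega

theorem f_four_add (m : ℕ) : f (4 * m + 1) = 3 * m + 1 := by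
  unfold f
  split_ifs <;> omega

theorem f_four_add' (m : ℕ) : f (4 * m + 3) = 3 * m + 2 := by
  unfold f
  split_ifs <;> omega

theorem f_injective : Function.Injective f := Function.LeftInverse.injective g_f

theorem g_injective : Function.Injective g := Function.LeftInverse.injective f_g

theorem f_pos {n : ℕ} (h : 1 ≤ n) : 1 ≤ f n := by
  unfold f
  split_ifs <;> omega

theorem g_pos {n : ℕ} (h : 1 ≤ n) : 1 ≤ g n := by
  unfold g
  split_ifs <;> omega

theorem iter_f_pos {n : ℕ} (h : 1 ≤ n) (k : ℕ) : 1 ≤ f^[k] n := by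
  induction k with
  | zero => exact h
  | succ k ih => rw [Function.iterate_succ_apply']; exact f_pos ih

theorem iter_g_pos {n : ℕ} (h : 1 ≤ n) (k : ℕ) : 1 ≤ g^[k] n := by
  induction k with
  | zero => exact h
  | succ k ih => rw [Function.iterate_succ_apply']; exact g_pos ih

theorem iter_g_iter_f (k n : ℕ) : g^[k] (f^[k] n) = n :=
  Function.LeftInverse.iterate g_f k n

theorem iter_f_iter_g (k n : ℕ) : f^[k] (g^[k] n) = n :=
  Function.LeftInverse.iterate f_g k n

/-- going back along a path -/
theorem iter_back {k t n : ℕ} (h : t ≤ k) : f^[k - t] n = g^[t] (f^[k] n) := by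
  have : f^[k] n = f^[t] (f^[k - t] n) := by
    rw [← Function.iterate_add_apply, Nat.add_sub_cancel' h]
  rw [this, iter_g_iter_f]

end Pool.Agent.Helper994_CO
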