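import Pool.Agent.Helper994_CO.Base

set_option autoImplicit false

/-!
# The logarithm along a path of `f`
-/

namespace Pool.Agent.Helper994_CO

open Finset

theorem log_two_lower : (0.693 : ℝ) ≤ Real.log 2 := by
  have := Real.log_two_gt_d9
  linarith

/-- One step of `f`, on the scale of logarithms to base two. -/
theorem logb_step {n : ℕ} (hn : 1 ≤ n) :
    ∃ c : ℕ, |Real.logb 2 (f n : ℝ) - Real.logb 2 n - Real.logb 2 3 + c| ≤ (6 / 10) * (1 / (n : ℝ)) := by
  have hl2 := log_two_lower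
  have hlog2pos : (0 : ℝ) < Real.log 2 := by linarith
  have hnpos : (0 : ℝ) < n := by exact_mod_cast hn
  have h4 : n % 2 = 0 ∨ n % 4 = 1 ∨ n % 4 = 3 := by omega
  have hlog4 : Real.log 4 = 2 * Real.log 2 := by
    rw [show (4 : ℝ) = 2 ^ 2 by norm_num, Real.log_pow]; norm_num
  rcases h4 with h | h | h
  · refine ⟨1, ?_⟩
    obtain ⟨m, rfl⟩ : ∃ m, n = 2 * m := ⟨n / 2, by omega⟩
    have hm : (0 : ℝ) < m := by
      have : 1 ≤ m := by omega
      exact_mod_cast this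
    rw [f_two_mul]
    have e : Real.logb 2 ((3 * m : ℕ) : ℝ) - Real.logb 2 ((2 * m : ℕ) : ℝ) - Real.logb 2 3 + ((1 : ℕ) : ℝ) = 0 := by
      unfold Real.logb
      push_cast
      rw [Real.log_mul (by norm_num) hm.ne', Real.log_mul (by norm_num) hm.ne']
      field_simp
      ring
    rw [e]
    simp only [abs_zero]
    positivity
  · refine ⟨2, ?_⟩
    obtain ⟨m, rfl⟩ : ∃ m, n = 4 * m + 1 := ⟨n / 4, by omega⟩
    rw [f_four_add]
    set y : ℝ := ((4 * m + 1 : ℕ) : ℝ) with hy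
    have hfy : ((3 * m + 1 : ℕ) : ℝ) = 3 * y / 4 * (1 + 1 / (3 * y)) := by
      field_simp
      rw [hy]; push_cast; ring
    rw [hfy]
    have hu : (0 : ℝ) < 1 / (3 * y) := by positivity
    have e : Real.logb 2 (3 * y / 4 * (1 + 1 / (3 * y))) - Real.logb 2 y - Real.logb 2 3 + ((2 : ℕ) : ℝ)
        = Real.log (1 + 1 / (3 * y)) / Real.log 2 := by
      unfold Real.logb
      rw [Real.log_mul (by positivity) (by positivity), Real.log_div (by positivity) (by norm_num),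
        Real.log_mul (by norm_num) hnpos.ne', hlog4]
      field_simp
      push_cast
      ring
    rw [e]
    have h1 : 0 ≤ Real.log (1 + 1 / (3 * y)) := Real.log_nonneg (by linarith)
    have h2 : Real.log (1 + 1 / (3 * y)) ≤ 1 / (3 * y) := by
      have := Real.log_le_sub_one_of_pos (show (0 : ℝ) < 1 + 1 / (3 * y) by positivity)
      linarith
    rw [abs_of_nonneg (div_nonneg h1 hlog2pos.le), div_le_iff₀ hlog2pos]
    have h3 : 1 / (3 * y) = (1 / 3) * (1 / y) := by field_simp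
    rw [h3] at h2 ⊢
    have h5 : 0 < 1 / y := by positivity
    rw [h3] at h1
    nlinarith [mul_le_mul_of_nonneg_right hl2 h5.le]
  · refine ⟨2, ?_⟩
    obtain ⟨m, rfl⟩ : ∃ m, n = 4 * m + 3 := ⟨n / 4, by omega⟩
    rw [f_four_add']
    set y : ℝ := ((4 * m + 3 : ℕ) : ℝ) with hy
    have hy3 : (3 : ℝ) ≤ y := by
      rw [hy]; push_cast
      have : (0 : ℝ) ≤ m := Nat.cast_nonneg m
      linarith
    have hfy : ((3 * m + 2 : ℕ) : ℝ) = 3 * y / 4 * (1 - 1 / (3 * y)) := by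
      field_simp
      rw [hy]; push_cast; ring
    rw [hfy]
    have hu : (0 : ℝ) < 1 / (3 * y) := by positivity
    have hu9 : 1 / (3 * y) ≤ 1 / 9 := by
      apply one_div_le_one_div_of_le (by norm_num); linarith
    have hpos : (0 : ℝ) < 1 - 1 / (3 * y) := by linarith
    have e : Real.logb 2 (3 * y / 4 * (1 - 1 / (3 * y))) - Real.logb 2 y - Real.logb 2 3 + ((2 : ℕ) : ℝ)
        = Real.log (1 - 1 / (3 * y)) / Real.log 2 := by
      unfold Real.logb
      rw [Real.log_mul (by positivity) hpos.ne', Real.log_div (by positivity) (by norm_num),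
        Real.log_mul (by norm_num) hnpos.ne', hlog4]
      field_simp
      push_cast
      ring
    rw [e]
    have h1 : Real.log (1 - 1 / (3 * y)) ≤ 0 := Real.log_nonpos (by linarith) (by linarith)
    have h2 : - Real.log (1 - 1 / (3 * y)) ≤ (9 / 8) * (1 / (3 * y)) := by
      have h6 := Real.one_sub_inv_le_log_of_pos hpos
      have h7 : (1 - 1 / (3 * y))⁻¹ ≤ 1 + (9 / 8) * (1 / (3 * y)) := by
        rw [inv_le_comm₀ hpos (by positivity), inv_eq_one_div, div_le_iff₀ (by positivity)]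
        nlinarith
      linarith
    rw [abs_of_nonpos (div_nonpos_of_nonpos_of_nonneg h1 hlog2pos.le), ← neg_div, div_le_iff₀ hlog2pos]
    have h3 : 1 / (3 * y) = (1 / 3) * (1 / y) := by field_simp
    rw [h3] at h2 ⊢
    have h5 : 0 < 1 / y := by positivity
    nlinarith [mul_le_mul_of_nonneg_right hl2 h5.le]

/-- The logarithm along a path. -/
theorem logb_path {n : ℕ} (hn : 1 ≤ n) (m : ℕ) :
    ∃ A : ℕ, |Real.logb 2 (f^[m] n : ℝ) - Real.logb 2 n - m * Real.logb 2 3 + A| ≤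
      (6 / 10) * ∑ t ∈ range m, 1 / ((f^[t] n : ℕ) : ℝ) := by
  induction m with
  | zero => exact ⟨0, by simp⟩
  | succ m ih =>
    obtain ⟨A, hA⟩ := ih
    obtain ⟨c, hc⟩ := logb_step (iter_f_pos hn m)
    refine ⟨A + c, ?_⟩
    rw [Function.iterate_succ_apply', sum_range_succ, mul_add]
    push_cast
    calc |Real.logb 2 (f (f^[m] n) : ℝ) - Real.logb 2 n - (m + 1) * Real.logb 2 3 + (A + c)|
        = |(Real.logb 2 (f^[m] n : ℝ) - Real.logb 2 n - m * Real.logb 2 3 + A) +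
          (Real.logb 2 (f (f^[m] n) : ℝ) - Real.logb 2 (f^[m] n : ℝ) - Real.logb 2 3 + c)| := by
            congr 1; ring
      _ ≤ _ := abs_add_le _ _
      _ ≤ _ := add_le_add hA hc

/-- The Baker and Davenport step: `al` and `lP`, `lQ` are the integer parts of `2 ^ S * log₂ 3`,
`2 ^ s * log₂ P` and `2 ^ s * log₂ Q`. -/
theorem bd_step {s S : ℕ} {al lP lQ p q T D K mlo m : ℤ} {P Q : ℝ}
    (hs : s ≤ S) (hq : 0 < q) (hm : 0 < m) (hmK : m ≤ K) (hmlo : mlo ≤ m) (hmlo0 : 0 ≤ mlo)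
    (hal0 : (al : ℝ) ≤ 2 ^ S * Real.logb 2 3) (hal1 : 2 ^ S * Real.logb 2 3 ≤ al + 1)
    (hP0 : (lP : ℝ) ≤ 2 ^ s * Real.logb 2 P) (hP1 : 2 ^ s * Real.logb 2 P ≤ lP + 1)
    (hQ0 : (lQ : ℝ) ≤ 2 ^ s * Real.logb 2 Q) (hQ1 : 2 ^ s * Real.logb 2 Q ≤ lQ + 1)
    (hT : T ≤ (q * (lQ - lP)) % 2 ^ s) (hT' : (q * (lQ - lP)) % 2 ^ s ≤ 2 ^ s - T)
    (hD : |q * al - p * 2 ^ S| + q ≤ D)
    (hlast : 10 ^ 11 * mlo * (K * D) + 6 * q * 2 ^ S ≤ 10 ^ 11 * mlo * ((T - q) * 2 ^ (S - s)))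
    (hKD : K * D ≤ (T - q) * 2 ^ (S - s)) (A : ℤ) :
    (6 / 10) / (10 ^ 10 * m) ≤ |Real.logb 2 Q - Real.logb 2 P - m * Real.logb 2 3 + A| := by
  set α := Real.logb 2 3 with hα
  set β := Real.logb 2 Q - Real.logb 2 P with hβ
  have hqR : (0 : ℝ) < q := by exact_mod_cast hq
  have hmR : (0 : ℝ) < m := by exact_mod_cast hm
  have hS : (0 : ℝ) < 2 ^ S := by positivity
  have h2s : (0 : ℝ) < 2 ^ s := by positivity
  -- the integer z
  set z : ℤ := m * p - q * A with hz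
  -- distance from q (lQ - lP) to z 2 ^ s
  have hdist : T ≤ |q * (lQ - lP) - z * 2 ^ s| := by
    have hpow : (0 : ℤ) < 2 ^ s := by positivity
    set N := q * (lQ - lP) with hN
    have hdm : N = 2 ^ s * (N / 2 ^ s) + N % 2 ^ s := (Int.mul_ediv_add_emod N (2 ^ s)).symm
    set r := N % 2 ^ s with hr
    set d := N / 2 ^ s with hd
    have e : N - z * 2 ^ s = 2 ^ s * (d - z) + r := by rw [hdm]; ring
    rw [e]
    have hr0 : 0 ≤ r := Int.emod_nonneg _ hpow.ne'
    by_cases hdz : 0 ≤ d - z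
    · rw [abs_of_nonneg (by positivity)]
      nlinarith
    · have h1 : d - z ≤ -1 := by omega
      have h2 : 2 ^ s * (d - z) + r ≤ -T := by nlinarith
      calc T ≤ -(2 ^ s * (d - z) + r) := by linarith
        _ ≤ _ := neg_le_abs _
  have hdistR : (T : ℝ) ≤ |(q : ℝ) * (lQ - lP) - z * 2 ^ s| := by
    have := (Int.cast_le (R := ℝ)).2 hdist
    push_cast at this
    exact this
  -- the real version
  have h1 : |2 ^ s * (q * β) - q * (lQ - lP)| ≤ q := by
    have e : 2 ^ s * (q * β) - q * (lQ - lP) =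
        q * ((2 ^ s * Real.logb 2 Q - lQ) - (2 ^ s * Real.logb 2 P - lP)) := by
      rw [hβ]; ring
    rw [e, abs_mul, abs_of_pos hqR]
    have : |(2 ^ s * Real.logb 2 Q - lQ) - (2 ^ s * Real.logb 2 P - lP)| ≤ 1 := by
      rw [abs_le]; constructor <;> linarith
    calc (q : ℝ) * _ ≤ q * 1 := by apply mul_le_mul_of_nonneg_left this hqR.le
      _ = q := mul_one _
  have h2 : (T : ℝ) - q ≤ 2 ^ s * |q * β - z| := by
    have e : 2 ^ s * |q * β - z| = |2 ^ s * (q * β) - z * 2 ^ s| := by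
      rw [← abs_of_pos h2s, ← abs_mul, abs_of_pos h2s]; congr 1; ring
    rw [e]
    have h3 : |(q : ℝ) * (lQ - lP) - z * 2 ^ s| ≤
        |2 ^ s * (q * β) - z * 2 ^ s| + |2 ^ s * (q * β) - q * (lQ - lP)| := by
      have h4 : (q : ℝ) * (lQ - lP) - z * 2 ^ s =
        (2 ^ s * (q * β) - z * 2 ^ s) - (2 ^ s * (q * β) - q * (lQ - lP)) := by ring
      rw [h4]
      exact abs_sub _ _
    linarith
  have h3 : 2 ^ S * |q * α - p| ≤ D := by
    have hDR : |(q : ℝ) * al - p * 2 ^ S| + q ≤ D := by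
      have := (Int.cast_le (R := ℝ)).2 hD
      push_cast at this
      exact this
    have e : 2 ^ S * |q * α - p| = |(q * al - p * 2 ^ S) + q * (2 ^ S * α - al)| := by
      rw [← abs_of_pos hS, ← abs_mul, abs_of_pos hS]; congr 1; ring
    rw [e]
    have h4 : |(q : ℝ) * (2 ^ S * α - al)| ≤ q := by
      rw [abs_mul, abs_of_pos hqR]
      have : |2 ^ S * α - al| ≤ 1 := by rw [abs_le]; constructor <;> linarith
      calc (q : ℝ) * _ ≤ q * 1 := by apply mul_le_mul_of_nonneg_left this hqR.le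
        _ = q := mul_one _
    calc _ ≤ |(q : ℝ) * al - p * 2 ^ S| + |(q : ℝ) * (2 ^ S * α - al)| := abs_add_le _ _
      _ ≤ _ := by linarith
  -- combine
  set X := β - m * α + A with hX
  have h5 : |q * β - z| ≤ q * |X| + m * |q * α - p| := by
    have e : (q : ℝ) * β - z = q * X + m * (q * α - p) := by
      rw [hX, hz]; push_cast; ring
    rw [e]
    calc _ ≤ |q * X| + |m * (q * α - p)| := abs_add_le _ _
      _ = _ := by rw [abs_mul, abs_mul, abs_of_pos hqR, abs_of_pos hmR]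
  have hSs : (2 : ℝ) ^ S = 2 ^ (S - s) * 2 ^ s := by rw [← pow_add, Nat.sub_add_cancel hs]
  have hpos' : (0 : ℝ) < 2 ^ (S - s) := by positivity
  -- 2^S * q * |X| ≥ (T - q) * 2^(S-s) - m D
  have h6 : ((T : ℝ) - q) * 2 ^ (S - s) - K * D ≤ 2 ^ S * (q * |X|) := by
    have h7 : ((T : ℝ) - q) * 2 ^ (S - s) ≤ 2 ^ S * |q * β - z| := by
      rw [hSs]; nlinarith
    have h8 : 2 ^ S * |q * β - z| ≤ 2 ^ S * (q * |X|) + m * (2 ^ S * |q * α - p|) := by
      calc _ ≤ 2 ^ S * (q * |X| + m * |q * α - p|) := by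
            apply mul_le_mul_of_nonneg_left h5 hS.le
        _ = _ := by ring
    have hmKR : (m : ℝ) ≤ K := by exact_mod_cast hmK
    have hD0 : (0 : ℝ) ≤ D := le_trans (by positivity) h3
    have h9 : (m : ℝ) * (2 ^ S * |q * α - p|) ≤ K * D := by
      calc _ ≤ (m : ℝ) * D := mul_le_mul_of_nonneg_left h3 hmR.le
        _ ≤ _ := mul_le_mul_of_nonneg_right hmKR hD0
    linarith
  have hlastR : (10 : ℝ) ^ 11 * mlo * (K * D) + 6 * q * 2 ^ S ≤
      10 ^ 11 * mlo * ((T - q) * 2 ^ (S - s)) := by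
    have := (Int.cast_le (R := ℝ)).2 hlast
    push_cast at this
    linarith
  have hKDR : (K : ℝ) * D ≤ (T - q) * 2 ^ (S - s) := by
    have := (Int.cast_le (R := ℝ)).2 hKD
    push_cast at this
    exact this
  have hmloR : (mlo : ℝ) ≤ m := by exact_mod_cast hmlo
  have hmlo0R : (0 : ℝ) ≤ mlo := by exact_mod_cast hmlo0
  set R := ((T : ℝ) - q) * 2 ^ (S - s) - K * D with hR
  have hR0 : 0 ≤ R := by rw [hR]; linarith
  have h10 : 6 * (q : ℝ) * 2 ^ S ≤ 10 ^ 11 * m * R := by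
    have : 6 * (q : ℝ) * 2 ^ S ≤ 10 ^ 11 * mlo * R := by rw [hR]; linarith
    calc _ ≤ 10 ^ 11 * mlo * R := this
      _ ≤ _ := by
        apply mul_le_mul_of_nonneg_right _ hR0
        apply mul_le_mul_of_nonneg_left hmloR (by positivity)
  have h11 : 6 * (q : ℝ) * 2 ^ S ≤ 10 ^ 11 * m * (2 ^ S * (q * |X|)) := by
    calc _ ≤ _ := h10
      _ ≤ _ := by apply mul_le_mul_of_nonneg_left h6 (by positivity)
  have h12 : 6 ≤ (10 : ℝ) ^ 11 * m * |X| := by
    have hqS : (0 : ℝ) < q * 2 ^ S := by positivity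
    by_contra hcon
    push Not at hcon
    have : 10 ^ 11 * m * (2 ^ S * (q * |X|)) = (10 ^ 11 * m * |X|) * (q * 2 ^ S) := by ring
    rw [this] at h11
    nlinarith
  rw [div_le_iff₀ (by positivity)]
  nlinarith

end Pool.Agent.Helper994_CO
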