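import Pool.Agent.Helper994_CO.Lg
import Pool.Agent.Helper994_CO.Path

set_option autoImplicit false

/-!
# The checks on the data, and what they give
-/

namespace Pool.Agent.Helper994_CO

/-- The height. -/
def H : ℕ := 10 ^ 211

/-- Data for one member `a` of the list: `f^[i] a = P > H`, `g^[j] a = Q > H`, and the integer
parts of `2 ^ 384 * log₂ P` and `2 ^ 384 * log₂ Q`. -/
structure Row where
  a : ℕ
  i : ℕ
  P : ℕ
  j : ℕ
  Q : ℕ
  lP : ℕ
  lQ : ℕ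
  EP : ℕ
  EQ : ℕ

/-- One interval `[mlo, K]` of lengths, with a good approximation `p / q` to `log₂ 3`. -/
structure Entry where
  mlo : ℕ
  K : ℕ
  p : ℕ
  q : ℕ
  T : ℕ
  D : ℕ

def allK {α : Type} (l : List α) (P : α → Bool) : Bool :=
  List.rec true (fun x _ ih => cond (P x) ih false) l

theorem allK_sound {α : Type} {l : List α} {P : α → Bool} (h : allK l P = true) :
    ∀ x ∈ l, P x = true := by
  induction l with
  | nil => intro x hx; simp at hx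
  | cons y l ih =>
    have h' : cond (P y) (allK l P) false = true := h
    cases hc : P y with
    | false => rw [hc] at h'; simp at h'
    | true =>
      rw [hc] at h'
      intro x hx
      rcases List.mem_cons.1 hx with rfl | hx
      · exact hc
      · exact ih h' x hx

def rowOK (r : Row) : Bool :=
  Nat.beq (fwd r.i r.a) r.P && Nat.ble (Nat.succ H) r.P && Nat.beq (bwd H r.j r.a) r.Q &&
    Nat.ble (Nat.succ H) r.Q && lgOK 399 384 r.EP r.P r.lP && lgOK 399 384 r.EQ r.Q r.lQ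

/-- What a good row says. -/
structure RowGood (r : Row) : Prop where
  fP : f^[r.i] r.a = r.P
  fL : ∀ t, 1 ≤ t → t ≤ r.i → f^[t] r.a ∉ L
  hP : H < r.P
  gQ : g^[r.j] r.a = r.Q
  gH : ∀ t, t < r.j → g^[t] r.a ≤ H
  hQ : H < r.Q
  lP0 : (r.lP : ℝ) ≤ 2 ^ 384 * Real.logb 2 r.P
  lP1 : 2 ^ 384 * Real.logb 2 r.P ≤ r.lP + 1
  lQ0 : (r.lQ : ℝ) ≤ 2 ^ 384 * Real.logb 2 r.Q
  lQ1 : 2 ^ 384 * Real.logb 2 r.Q ≤ r.lQ + 1

theorem rowOK_sound {r : Row} (h : rowOK r = true) : RowGood r := by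
  unfold rowOK at h
  simp only [Bool.and_eq_true, Nat.beq_eq, Nat.ble_eq] at h
  obtain ⟨⟨⟨⟨⟨h1, h2⟩, h3⟩, h4⟩, h5⟩, h6⟩ := h
  have hP : H < r.P := h2
  have hQ : H < r.Q := h4
  have f1 := fwd_sound r.i r.a (by rw [h1]; omega)
  have g1 := bwd_sound H r.j r.a (by rw [h3]; omega)
  have l1 := lgOK_sound h5
  have l2 := lgOK_sound h6
  exact ⟨by rw [f1.1, h1], f1.2, hP, by rw [g1.1, h3], g1.2, hQ, l1.1, l1.2, l2.1, l2.2⟩

/-- `2 ^ 384`. -/
def M384 : ℕ := 2 ^ 384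

/-- `2 ^ 400`. -/
def M400 : ℕ := 2 ^ 400

def pairOK (q T lP lQ : ℕ) : Bool :=
  strict (Nat.mod (Nat.mul q (Nat.sub (Nat.add lQ M400) lP)) M384) (fun r =>
    Nat.ble T r && Nat.ble (Nat.add r T) M384)

theorem pairOK_sound {q T lP lQ : ℕ} (h : pairOK q T lP lQ = true) (hl : lP ≤ M400) :
    (T : ℤ) ≤ ((q : ℤ) * ((lQ : ℤ) - lP)) % 2 ^ 384 ∧
      ((q : ℤ) * ((lQ : ℤ) - lP)) % 2 ^ 384 ≤ 2 ^ 384 - T := by
  unfold pairOK at h
  rw [strict_eq] at h
  simp only [Bool.and_eq_true, Nat.ble_eq] at h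
  obtain ⟨h1, h2⟩ := h
  have h1' : T ≤ (q * (lQ + M400 - lP)) % M384 := h1
  have h2' : (q * (lQ + M400 - lP)) % M384 + T ≤ M384 := h2
  have e : ((q : ℤ) * ((lQ : ℤ) - lP)) % 2 ^ 384 = (((q * (lQ + M400 - lP)) % M384 : ℕ) : ℤ) := by
    have hM : (M384 : ℤ) = 2 ^ 384 := by unfold M384; push_cast; rfl
    have hM4 : (M400 : ℤ) = 2 ^ 384 * 2 ^ 16 := by
      unfold M400
      rw [← pow_add]
      push_cast
      rfl
    push_cast
    rw [Nat.cast_sub (by omega)]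
    push_cast
    rw [hM, hM4]
    rw [show (q : ℤ) * ((lQ : ℤ) + 2 ^ 384 * 2 ^ 16 - lP) =
      (q : ℤ) * ((lQ : ℤ) - lP) + 2 ^ 384 * (q * 2 ^ 16) by ring, Int.add_mul_emod_self_left]
  have hM : (M384 : ℤ) = 2 ^ 384 := by unfold M384; push_cast; rfl
  rw [e]
  constructor
  · exact_mod_cast h1'
  · have := (Int.ofNat_le (m := (q * (lQ + M400 - lP)) % M384 + T) (n := M384)).2 h2'
    push_cast at this
    push_cast
    linarith

/-- All pairs of rows are good for the entry. -/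
def pairsOK (rows : List Row) (e : Entry) : Bool :=
  allK rows (fun ra => allK rows (fun rb => pairOK e.q e.T ra.lP rb.lQ))

/-- The numerical conditions on one entry; `al` is the integer part of `2 ^ 736 * log₂ 3`. -/
def entOK (al : ℕ) (e : Entry) : Bool :=
  Nat.ble 1 e.q && Nat.ble e.q e.D && Nat.ble e.q e.T &&
  Nat.ble (Nat.add (Nat.mul e.q al) e.q) (Nat.add (Nat.mul e.p (2 ^ 736)) e.D) &&
  Nat.ble (Nat.add (Nat.mul e.p (2 ^ 736)) e.q) (Nat.add (Nat.mul e.q al) e.D) &&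
  Nat.ble (Nat.mul e.K e.D) (Nat.mul (Nat.sub e.T e.q) (2 ^ 352)) &&
  Nat.ble (Nat.add (Nat.mul (Nat.mul (10 ^ 11) e.mlo) (Nat.mul e.K e.D)) (Nat.mul (Nat.mul 6 e.q) (2 ^ 736)))
    (Nat.mul (Nat.mul (10 ^ 11) e.mlo) (Nat.mul (Nat.sub e.T e.q) (2 ^ 352)))

/-- Do the intervals of the entries cover `[c, N]`? -/
def coverOK (N : ℕ) (l : List Entry) : ℕ → Bool :=
  List.rec (fun c => Nat.ble (Nat.succ N) c)
    (fun e _ ih c => cond (Nat.ble e.mlo c) (ih (Nat.succ e.K)) false) l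

theorem coverOK_sound {N : ℕ} {l : List Entry} : ∀ {c : ℕ}, coverOK N l c = true →
    ∀ m, c ≤ m → m ≤ N → ∃ e ∈ l, e.mlo ≤ m ∧ m ≤ e.K := by
  induction l with
  | nil =>
    intro c h m h1 h2
    have h' : Nat.ble (Nat.succ N) c = true := h
    rw [Nat.ble_eq] at h'
    omega
  | cons e l ih =>
    intro c h m h1 h2
    have h' : cond (Nat.ble e.mlo c) (coverOK N l (Nat.succ e.K)) false = true := h
    cases hc : Nat.ble e.mlo c with
    | false => rw [hc] at h'; simp at h'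
    | true =>
      rw [hc] at h'
      rw [Nat.ble_eq] at hc
      by_cases hm : m ≤ e.K
      · exact ⟨e, by simp, by omega, hm⟩
      · obtain ⟨e', he', h3⟩ := ih h' m (by omega) h2
        exact ⟨e', by simp [he'], h3⟩

theorem int_abs_le {q al p M D : ℕ} (h1 : q * al + q ≤ p * M + D) (h2 : p * M + q ≤ q * al + D) :
    |(q : ℤ) * al - p * M| + q ≤ D := by
  have a1 : (q : ℤ) * al + q ≤ p * M + D := by exact_mod_cast h1
  have a2 : (p : ℤ) * M + q ≤ q * al + D := by exact_mod_cast h2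
  have : |(q : ℤ) * al - p * M| ≤ (D : ℤ) - q := by
    rw [abs_le]; constructor <;> linarith
  linarith

theorem int_last {mlo KD q M T N : ℕ} (hq : q ≤ T)
    (h : 10 ^ 11 * mlo * KD + 6 * q * M ≤ 10 ^ 11 * mlo * ((T - q) * N)) :
    10 ^ 11 * (mlo : ℤ) * KD + 6 * q * M ≤ 10 ^ 11 * mlo * (((T : ℤ) - q) * N) := by
  have a1 : ((10 ^ 11 * mlo * KD + 6 * q * M : ℕ) : ℤ) ≤
    ((10 ^ 11 * mlo * ((T - q) * N) : ℕ) : ℤ) := by exact_mod_cast h
  push_cast [Nat.cast_sub hq] at a1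
  norm_num at a1 ⊢
  exact a1

theorem int_kd {KD q T N : ℕ} (hq : q ≤ T) (h : KD ≤ (T - q) * N) :
    (KD : ℤ) ≤ ((T : ℤ) - q) * N := by
  have a1 : ((KD : ℕ) : ℤ) ≤ (((T - q) * N : ℕ) : ℤ) := by exact_mod_cast h
  push_cast [Nat.cast_sub hq] at a1
  exact a1

/-- The inequality that the checks give. -/
theorem gap_of_checks {al : ℕ} {e : Entry} {ra rb : Row}
    (hal0 : (al : ℝ) ≤ 2 ^ 736 * Real.logb 2 3) (hal1 : 2 ^ 736 * Real.logb 2 3 ≤ al + 1)
    (he : entOK al e = true) (ha : RowGood ra) (hb : RowGood rb) (hl : ra.lP ≤ M400)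
    (hp : pairOK e.q e.T ra.lP rb.lQ = true) {m : ℕ} (hm : 0 < m) (h1 : e.mlo ≤ m) (h2 : m ≤ e.K)
    (A : ℕ) :
    (6 / 10) / (10 ^ 10 * m) ≤ |Real.logb 2 rb.Q - Real.logb 2 ra.P - m * Real.logb 2 3 + A| := by
  unfold entOK at he
  simp only [Bool.and_eq_true, Nat.ble_eq] at he
  obtain ⟨⟨⟨⟨⟨⟨e1, e2⟩, e3⟩, e4⟩, e5⟩, e6⟩, e7⟩ := he
  have e4' : e.q * al + e.q ≤ e.p * 2 ^ 736 + e.D := e4
  have e5' : e.p * 2 ^ 736 + e.q ≤ e.q * al + e.D := e5
  have e6' : e.K * e.D ≤ (e.T - e.q) * 2 ^ 352 := e6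
  have e7' : 10 ^ 11 * e.mlo * (e.K * e.D) + 6 * e.q * 2 ^ 736 ≤
      10 ^ 11 * e.mlo * ((e.T - e.q) * 2 ^ 352) := e7
  obtain ⟨p1, p2⟩ := pairOK_sound hp hl
  have b1 := int_abs_le e4' e5'
  have b2 := int_last e3 e7'
  have b3 := int_kd e3 e6'
  simp only [Nat.cast_mul, Nat.cast_pow, Nat.cast_ofNat] at b1 b2 b3
  have := bd_step (s := 384) (S := 736) (al := al) (lP := ra.lP) (lQ := rb.lQ) (p := e.p) (q := e.q)
    (T := e.T) (D := e.D) (K := e.K) (mlo := e.mlo) (m := m) (P := ra.P) (Q := rb.Q)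
    (by norm_num) (by exact_mod_cast e1) (by exact_mod_cast hm) (by exact_mod_cast h2)
    (by exact_mod_cast h1) (Int.natCast_nonneg _) (by exact_mod_cast hal0) (by exact_mod_cast hal1)
    (by exact_mod_cast ha.lP0) (by exact_mod_cast ha.lP1)
    (by exact_mod_cast hb.lQ0) (by exact_mod_cast hb.lQ1) p1 p2 b1 b2 b3 A
  push_cast at this
  exact this

end Pool.Agent.Helper994_CO
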