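import Pool.Agent.Helper994_CO.Data

set_option autoImplicit false

namespace Pool.Agent.Helper994_CO

theorem rows0_ok : allK rows0 rowOK = true := by decide +kernel

theorem rows1_ok : allK rows1 rowOK = true := by decide +kernel

end Pool.Agent.Helper994_CO
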