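import Pool.Agent.Helper994_CO.Data
import Pool.Agent.Helper994_CO.RowsOK0
import Pool.Agent.Helper994_CO.RowsOK1
import Pool.Agent.Helper994_CO.RowsOK2
import Pool.Agent.Helper994_CO.RowsOK3
import Pool.Agent.Helper994_CO.RowsOK4

set_option autoImplicit false

/-!
# Paths of length at most `10 ^ 100` between two members of the list
-/

namespace Pool.Agent.Helper994_CO

open Finset

theorem entries_ok : allK cover (entOK al) = true := by decide +kernel

theorem cover_ok : coverOK (10 ^ 100) cover 1 = true := by decide +kernel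

theorem pairs_ok : allK cover (pairsOK rows) = true := by decide +kernel

theorem lP_ok : allK rows (fun r => Nat.ble r.lP M400) = true := by decide +kernel

theorem PQ_ok : allK rows (fun ra => allK rows (fun rb => cond (Nat.beq ra.P rb.Q) false true)) = true := by
  decide +kernel

theorem al_ok : lgOK 751 727 60 (3 ^ 512) al = true := by decide +kernel

theorem rows_a : rows.map Row.a = L := by decide +kernel

theorem rows_good : ∀ r ∈ rows, RowGood r := by
  intro r hr
  apply rowOK_sound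
  unfold rows at hr
  simp only [List.mem_append] at hr
  rcases hr with h | h | h | h | h | h | h | h | h | h
  · exact allK_sound rows0_ok r h
  · exact allK_sound rows1_ok r h
  · exact allK_sound rows2_ok r h
  · exact allK_sound rows3_ok r h
  · exact allK_sound rows4_ok r h
  · exact allK_sound rows5_ok r h
  · exact allK_sound rows6_ok r h
  · exact allK_sound rows7_ok r h
  · exact allK_sound rows8_ok r h
  · exact allK_sound rows9_ok r h

theorem exists_row {a : ℕ} (ha : a ∈ L) : ∃ r ∈ rows, r.a = a := by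
  rw [← rows_a, List.mem_map] at ha
  exact ha

theorem al_bounds : (al : ℝ) ≤ 2 ^ 736 * Real.logb 2 3 ∧ 2 ^ 736 * Real.logb 2 3 ≤ al + 1 := by
  have h := lgOK_sound al_ok
  have e : Real.logb 2 ((3 ^ 512 : ℕ) : ℝ) = 512 * Real.logb 2 3 := by
    push_cast
    rw [← Real.rpow_natCast, Real.logb_rpow_eq_mul_logb_of_pos (by norm_num)]
    push_cast
    ring
  rw [e] at h
  have e2 : (2 : ℝ) ^ 736 = 2 ^ 727 * 512 := by
    rw [show (512 : ℝ) = 2 ^ 9 by norm_num, ← pow_add]
  rw [e2]
  constructor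
  · linarith [h.1]
  · linarith [h.2]

/-- **Main theorem on short joins.** -/
theorem joins {a b k : ℕ} (ha : a ∈ L) (hb : b ∈ L) (hk : 1 ≤ k) (hk2 : k ≤ 10 ^ 100)
    (h : f^[k] a = b) :
    ∃ i j : ℕ, i < j ∧ j ≤ k ∧ 10 ^ 211 < f^[i] a ∧ 10 ^ 211 < f^[j] a ∧
      1 / (10 ^ 10 * ((j : ℝ) - i)) ≤ ∑ t ∈ Ico i j, 1 / ((f^[t] a : ℕ) : ℝ) := by
  obtain ⟨ra, hra, rfl⟩ := exists_row ha
  obtain ⟨rb, hrb, rfl⟩ := exists_row hb
  have ga := rows_good ra hra
  have gb := rows_good rb hrb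
  have hik : ra.i < k := by
    by_contra hcon
    push Not at hcon
    exact ga.fL k hk hcon (h ▸ hb)
  have hback : ∀ t, t ≤ k → f^[k - t] ra.a = g^[t] rb.a := by
    intro t ht
    rw [iter_back ht, h]
  have hjk : rb.j ≤ k - ra.i := by
    by_contra hcon
    push Not at hcon
    have h1 := gb.gH (k - ra.i) hcon
    rw [← hback (k - ra.i) (by omega)] at h1
    have h2 : k - (k - ra.i) = ra.i := by omega
    rw [h2, ga.fP] at h1
    exact absurd ga.hP (by omega)
  set i := ra.i with hi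
  set j := k - rb.j with hj
  have hxj : f^[j] ra.a = rb.Q := by
    rw [hj, hback rb.j (by omega), gb.gQ]
  have hij : i ≤ j := by omega
  have hne : i ≠ j := by
    intro hcon
    have hPQ := allK_sound (allK_sound PQ_ok ra hra) rb hrb
    have : ra.P = rb.Q := by rw [← ga.fP, ← hxj, ← hcon]
    rw [this] at hPQ
    have h3 : Nat.beq rb.Q rb.Q = true := Nat.beq_refl _
    rw [h3] at hPQ
    simp at hPQ
  have hlt : i < j := lt_of_le_of_ne hij hne
  refine ⟨i, j, hlt, by omega, ?_, ?_, ?_⟩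
  · have := ga.hP; rw [ga.fP]; exact this
  · have := gb.hQ; rw [hxj]; exact this
  · set m := j - i with hm
    have hm1 : 1 ≤ m := by omega
    have hm2 : m ≤ 10 ^ 100 := by omega
    obtain ⟨e, he, he1, he2⟩ := coverOK_sound cover_ok m hm1 hm2
    have hent := allK_sound entries_ok e he
    have hpair := allK_sound (allK_sound (allK_sound pairs_ok e he) ra hra) rb hrb
    have hlP : ra.lP ≤ M400 := by
      have := allK_sound lP_ok ra hra
      rw [Nat.ble_eq] at this
      exact this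
    have hPpos : 1 ≤ ra.P := by
      have := ga.hP; omega
    obtain ⟨A, hA⟩ := logb_path hPpos m
    have hgap := gap_of_checks al_bounds.1 al_bounds.2 hent ga gb hlP hpair (m := m) (by omega) he1 he2 A
    have hPm : f^[m] ra.P = rb.Q := by
      rw [← ga.fP, ← hxj, ← Function.iterate_add_apply]
      have : m + i = j := by omega
      rw [this]
    rw [hPm] at hA
    have hsum : ∑ t ∈ Ico i j, 1 / ((f^[t] ra.a : ℕ) : ℝ) = ∑ t ∈ range m, 1 / ((f^[t] ra.P : ℕ) : ℝ) := by
      rw [Finset.sum_Ico_eq_sum_range]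
      apply Finset.sum_congr rfl
      intro t _
      have e2 : f^[i + t] ra.a = f^[t] ra.P := by
        rw [← ga.fP, ← Function.iterate_add_apply, Nat.add_comm]
      rw [e2]
    rw [hsum]
    have hmR : ((m : ℕ) : ℝ) = (j : ℝ) - i := by
      rw [hm, Nat.cast_sub hij]
    rw [← hmR]
    have h5 := hgap.trans hA
    have hmpos : (0 : ℝ) < m := by exact_mod_cast hm1
    have h6 : (6 / 10) / (10 ^ 10 * (m : ℝ)) = (6 / 10) * (1 / (10 ^ 10 * (m : ℝ))) := by ring
    rw [h6] at h5
    linarith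

/-- The valley. -/
theorem valley {a b k : ℕ} (ha : a ∈ L) (hb : b ∈ L) (hk : 1 ≤ k) (hk2 : k ≤ 10 ^ 100)
    (h : f^[k] a = b) :
    ∃ i t j : ℕ, i < t ∧ t < j ∧ j ≤ k ∧ 10 ^ 211 < f^[i] a ∧ 10 ^ 211 < f^[j] a ∧
      f^[t] a ≤ 10 ^ 10 * (j - i) ^ 2 ∧
      1 / (10 ^ 10 * ((j : ℝ) - i)) ≤ ∑ t ∈ Ico i j, 1 / ((f^[t] a : ℕ) : ℝ) := by
  obtain ⟨i, j, hij, hjk, h1, h2, h3⟩ := joins ha hb hk hk2 h
  have ha1 : 1 ≤ a := by
    simp only [L, List.mem_cons, List.not_mem_nil, or_false] at ha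
    omega
  set m := j - i with hm
  have hmR : ((m : ℕ) : ℝ) = (j : ℝ) - i := by rw [hm, Nat.cast_sub hij.le]
  have hmpos : (0 : ℝ) < m := by
    have : 1 ≤ m := by omega
    exact_mod_cast this
  have hex : ∃ t ∈ Ico i j, f^[t] a ≤ 10 ^ 10 * m ^ 2 := by
    by_contra hcon
    push Not at hcon
    have hlt : ∑ t ∈ Ico i j, 1 / ((f^[t] a : ℕ) : ℝ) < ∑ _t ∈ Ico i j, 1 / (10 ^ 10 * (m : ℝ) ^ 2) := by
      apply Finset.sum_lt_sum_of_nonempty (by simpa using hij)
      intro t ht
      apply one_div_lt_one_div_of_lt (by positivity)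
      exact_mod_cast hcon t ht
    rw [Finset.sum_const, Nat.card_Ico, nsmul_eq_mul, ← hm] at hlt
    have e : (m : ℝ) * (1 / (10 ^ 10 * (m : ℝ) ^ 2)) = 1 / (10 ^ 10 * m) := by
      field_simp
    rw [e, hmR] at hlt
    exact absurd hlt (not_lt.2 h3)
  obtain ⟨t, ht, htle⟩ := hex
  rw [Finset.mem_Ico] at ht
  have hne : i ≠ t := by
    intro hcon
    rw [← hcon] at htle
    have hm100 : m ≤ 10 ^ 100 := by omega
    have : (10 : ℕ) ^ 211 < 10 ^ 210 := by
      calc 10 ^ 211 < f^[i] a := h1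
        _ ≤ 10 ^ 10 * m ^ 2 := htle
        _ ≤ 10 ^ 10 * (10 ^ 100) ^ 2 := Nat.mul_le_mul_left _ (Nat.pow_le_pow_left hm100 2)
        _ = 10 ^ 210 := by rw [← pow_mul, ← pow_add]
    exact absurd this (not_lt.2 (Nat.pow_le_pow_right (by norm_num) (by norm_num)))
  exact ⟨i, t, j, lt_of_le_of_ne ht.1 hne, ht.2, hjk, h1, h2, htle, h3⟩

end Pool.Agent.Helper994_CO
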