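import Pool.Agent.Helper994_CO.Base

set_option autoImplicit false

/-!
# Loops that the kernel can run, and their soundness
-/

namespace Pool.Agent.Helper994_CO

/-- Call by value for natural numbers. -/
def strict {α : Type} (x : ℕ) (k : ℕ → α) : α := Nat.rec (k 0) (fun n _ => k (n + 1)) x

theorem strict_eq {α : Type} (x : ℕ) (k : ℕ → α) : strict x k = k x := by
  cases x <;> rfl

/-- `f`, in a form the kernel evaluates quickly. -/
def fK (x : ℕ) : ℕ :=
  cond (Nat.beq (Nat.mod x 2) 0) (Nat.div (Nat.mul 3 x) 2) (Nat.div (Nat.add (Nat.mul 3 x) 1) 4)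

/-- `g`, in a form the kernel evaluates quickly. -/
def gK (x : ℕ) : ℕ :=
  cond (Nat.beq (Nat.mod x 3) 0) (Nat.div (Nat.mul 2 x) 3)
    (cond (Nat.beq (Nat.mod x 3) 1) (Nat.div (Nat.sub (Nat.mul 4 x) 1) 3)
      (Nat.div (Nat.add (Nat.mul 4 x) 1) 3))

theorem fK_eq (x : ℕ) : fK x = f x := by
  show cond (Nat.beq (x % 2) 0) (3 * x / 2) ((3 * x + 1) / 4) = f x
  unfold f
  by_cases h : x % 2 = 0
  · simp [h]
  · have h1 : x % 2 = 1 := by omega
    simp [h1, Nat.beq]

theorem gK_eq (x : ℕ) : gK x = g x := by
  show cond (Nat.beq (x % 3) 0) (2 * x / 3)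
    (cond (Nat.beq (x % 3) 1) ((4 * x - 1) / 3) ((4 * x + 1) / 3)) = g x
  unfold g
  have h3 : x % 3 = 0 ∨ x % 3 = 1 ∨ x % 3 = 2 := by omega
  rcases h3 with h | h | h <;> simp [h, Nat.beq]

/-- Membership of a list, for the kernel. -/
def memK (l : List ℕ) (x : ℕ) : Bool :=
  List.rec false (fun y _ ih => cond (Nat.beq x y) true ih) l

theorem memK_eq_false {l : List ℕ} {x : ℕ} (h : memK l x = false) : x ∉ l := by
  induction l with
  | nil => simp
  | cons y l ih =>
    have h' : cond (Nat.beq x y) true (memK l x) = false := h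
    cases hb : Nat.beq x y with
    | true => rw [hb] at h'; simp at h'
    | false =>
      rw [hb] at h'
      have hne : x ≠ y := by
        intro he
        have := Nat.beq_refl x
        rw [he] at hb this
        rw [hb] at this
        exact absurd this (by simp)
      intro hm
      rcases List.mem_cons.1 hm with h1 | h1
      · exact hne h1
      · exact ih h' h1

/-- Run `f` for `n` steps from `x`; the answer is `0` as soon as a value lies in `L`. -/
def fwd (n : ℕ) : ℕ → ℕ :=
  Nat.rec (fun x => x)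
    (fun _ ih x => strict (fK x) (fun y =>
      cond (cond (Nat.ble y 980) (memK L y) false) 0 (ih y))) n

theorem le_980 {y : ℕ} (h : y ∈ L) : y ≤ 980 := by
  simp only [L, List.mem_cons, List.not_mem_nil, or_false] at h
  omega

theorem fwd_sound (n : ℕ) : ∀ x : ℕ, fwd n x ≠ 0 →
    f^[n] x = fwd n x ∧ ∀ t, 1 ≤ t → t ≤ n → f^[t] x ∉ L := by
  induction n with
  | zero => intro x _; exact ⟨rfl, fun t h1 h2 => by omega⟩
  | succ n ih =>
    intro x hx
    have e : fwd (n + 1) x = cond (cond (Nat.ble (f x) 980) (memK L (f x)) false) 0 (fwd n (f x)) := by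
      show strict (fK x) (fun y => cond (cond (Nat.ble y 980) (memK L y) false) 0 (fwd n y)) = _
      rw [strict_eq, fK_eq]
    rw [e] at hx ⊢
    cases hc : cond (Nat.ble (f x) 980) (memK L (f x)) false with
    | true => rw [hc] at hx; simp at hx
    | false =>
      rw [hc] at hx
      have hx' : fwd n (f x) ≠ 0 := hx
      obtain ⟨h1, h2⟩ := ih (f x) hx'
      have hL : f x ∉ L := by
        intro hm
        have h980 := le_980 hm
        have hb : Nat.ble (f x) 980 = true := by rw [Nat.ble_eq]; exact h980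
        rw [hb] at hc
        have hc' : memK L (f x) = false := hc
        exact memK_eq_false hc' hm
      refine ⟨h1, ?_⟩
      intro t ht1 ht2
      obtain ⟨t', rfl⟩ : ∃ t', t = t' + 1 := ⟨t - 1, by omega⟩
      rw [Function.iterate_succ_apply]
      by_cases h0 : t' = 0
      · subst h0; exact hL
      · exact h2 t' (by omega) (by omega)

/-- Run `g` for `n` steps from `x`, checking that every value but the last is at most `H`
(the answer is `0` if not). -/
def bwd (H : ℕ) (n : ℕ) : ℕ → ℕ :=
  Nat.rec (fun x => x)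
    (fun _ ih x => cond (Nat.ble x H) (strict (gK x) (fun y => ih y)) 0) n

theorem bwd_sound (H n : ℕ) : ∀ x : ℕ, bwd H n x ≠ 0 →
    g^[n] x = bwd H n x ∧ ∀ t, t < n → g^[t] x ≤ H := by
  induction n with
  | zero => intro x _; exact ⟨rfl, fun t h1 => by omega⟩
  | succ n ih =>
    intro x hx
    have e : bwd H (n + 1) x = cond (Nat.ble x H) (bwd H n (g x)) 0 := by
      show cond (Nat.ble x H) (strict (gK x) (fun y => bwd H n y)) 0 = _
      rw [strict_eq, gK_eq]
    rw [e] at hx ⊢
    cases hc : Nat.ble x H with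
    | false => rw [hc] at hx; simp at hx
    | true =>
      rw [hc] at hx
      have hx' : bwd H n (g x) ≠ 0 := hx
      obtain ⟨h1, h2⟩ := ih (g x) hx'
      refine ⟨h1, ?_⟩
      intro t ht
      by_cases h0 : t = 0
      · subst h0; rw [Nat.ble_eq] at hc; exact hc
      · obtain ⟨t', rfl⟩ : ∃ t', t = t' + 1 := ⟨t - 1, by omega⟩
        rw [Function.iterate_succ_apply]
        exact h2 t' (by omega)

end Pool.Agent.Helper994_CO
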