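import Pool.Agent.Helper994_CO.Kernel

set_option autoImplicit false

/-!
# Integer parts of `2 ^ s * log₂ N`, run by the kernel
-/

namespace Pool.Agent.Helper994_CO

/-- The state `(u, v, E)` of the squaring loop, with `w + 1` the width of the mantissas, and
`W3 = 2 ^ (2 * w + 1)`; the answer is whether the loop ends with the value `l`. -/
def lgLoop (w W3 l : ℕ) (n : ℕ) : ℕ → ℕ → ℕ → Bool :=
  Nat.rec (fun u v E => Nat.ble (Nat.pow 2 w) u && Nat.ble v (Nat.pow 2 (Nat.succ w)) &&
      Nat.beq (Nat.add E w) l)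
    (fun _ ih u v E =>
      strict (Nat.mul u u) (fun u2 =>
        strict (Nat.add w (cond (Nat.ble W3 u2) 1 0)) (fun sh =>
          strict (Nat.pow 2 sh) (fun ps =>
            strict (Nat.div u2 ps) (fun u' =>
              strict (Nat.add (Nat.div (Nat.mul v v) ps) 1) (fun v' =>
                cond (Nat.ble 1 u') (strict (Nat.add (Nat.mul 2 E) sh) (fun E' => ih u' v' E')) false)))))) n

theorem lgLoop_succ (w W3 l n u v E : ℕ) : ∃ sh : ℕ,
    lgLoop w W3 l (n + 1) u v E =
      cond (Nat.ble 1 (u * u / 2 ^ sh))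
        (lgLoop w W3 l n (u * u / 2 ^ sh) (v * v / 2 ^ sh + 1) (2 * E + sh)) false := by
  refine ⟨Nat.add w (cond (Nat.ble W3 (Nat.mul u u)) 1 0), ?_⟩
  show strict (Nat.mul u u) (fun u2 =>
        strict (Nat.add w (cond (Nat.ble W3 u2) 1 0)) (fun sh =>
          strict (Nat.pow 2 sh) (fun ps =>
            strict (Nat.div u2 ps) (fun u' =>
              strict (Nat.add (Nat.div (Nat.mul v v) ps) 1) (fun v' =>
                cond (Nat.ble 1 u') (strict (Nat.add (Nat.mul 2 E) sh) (fun E' =>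
                  lgLoop w W3 l n u' v' E')) false))))) = _
  simp only [strict_eq]
  rfl

theorem lgLoop_sound (w W3 l : ℕ) (n : ℕ) : ∀ (u v E : ℕ) (lam : ℝ), 1 ≤ u → 1 ≤ v →
    Real.logb 2 u + E ≤ lam → lam ≤ Real.logb 2 v + E → lgLoop w W3 l n u v E = true →
    (l : ℝ) ≤ 2 ^ n * lam ∧ 2 ^ n * lam ≤ l + 1 := by
  induction n with
  | zero =>
    intro u v E lam hu hv h1 h2 h
    have h' : (Nat.ble (Nat.pow 2 w) u && Nat.ble v (Nat.pow 2 (Nat.succ w)) &&
      Nat.beq (Nat.add E w) l) = true := h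
    rw [Bool.and_eq_true, Bool.and_eq_true, Nat.beq_eq, Nat.ble_eq, Nat.ble_eq] at h'
    obtain ⟨⟨ha, hb⟩, hc⟩ := h'
    have hu' : ((2 ^ w : ℕ) : ℝ) ≤ u := by exact_mod_cast ha
    have hv' : (v : ℝ) ≤ ((2 ^ (w + 1) : ℕ) : ℝ) := by exact_mod_cast hb
    have hlu : (w : ℝ) ≤ Real.logb 2 u := by
      rw [Real.le_logb_iff_rpow_le (by norm_num) (by exact_mod_cast hu)]
      rw [Real.rpow_natCast]; exact_mod_cast hu'
    have hlv : Real.logb 2 v ≤ (w : ℝ) + 1 := by
      rw [Real.logb_le_iff_le_rpow (by norm_num) (by exact_mod_cast hv)]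
      have : ((w : ℝ) + 1) = ((w + 1 : ℕ) : ℝ) := by push_cast; ring
      rw [this, Real.rpow_natCast]; exact_mod_cast hv'
    have hc' : E + w = l := hc
    have hlR : (E : ℝ) + w = l := by exact_mod_cast hc'
    constructor
    · rw [pow_zero, one_mul]; linarith
    · rw [pow_zero, one_mul]; linarith
  | succ n ih =>
    intro u v E lam hu hv h1 h2 h
    obtain ⟨sh, hsh⟩ := lgLoop_succ w W3 l n u v E
    rw [hsh] at h
    cases hc : Nat.ble 1 (u * u / 2 ^ sh) with
    | false => rw [hc] at h; simp at h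
    | true =>
      rw [hc] at h
      have h' : lgLoop w W3 l n (u * u / 2 ^ sh) (v * v / 2 ^ sh + 1) (2 * E + sh) = true := h
      rw [Nat.ble_eq] at hc
      have hps : (0 : ℝ) < 2 ^ sh := by positivity
      have huR : (0 : ℝ) < u := by exact_mod_cast hu
      have hvR : (0 : ℝ) < v := by exact_mod_cast hv
      have hlog2 : Real.logb 2 ((2 : ℝ) ^ sh) = sh := by
        rw [← Real.rpow_natCast, Real.logb_rpow (by norm_num) (by norm_num)]
      have key := ih (u * u / 2 ^ sh) (v * v / 2 ^ sh + 1) (2 * E + sh) (2 * lam) hc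
        (Nat.le_add_left 1 _) ?_ ?_ h'
      · rw [pow_succ]
        obtain ⟨k1, k2⟩ := key
        constructor <;> linarith
      · -- lower
        have hle : ((u * u / 2 ^ sh : ℕ) : ℝ) ≤ (u : ℝ) * u / 2 ^ sh := by
          have := @Nat.cast_div_le ℝ _ _ _ (u * u) (2 ^ sh)
          push_cast at this
          exact this
        have hpos : (0 : ℝ) < ((u * u / 2 ^ sh : ℕ) : ℝ) := by exact_mod_cast hc
        have hmono : Real.logb 2 ((u * u / 2 ^ sh : ℕ) : ℝ) ≤ Real.logb 2 ((u : ℝ) * u / 2 ^ sh) :=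
          Real.logb_le_logb_of_le (by norm_num) hpos hle
        rw [Real.logb_div (by positivity) (by positivity), Real.logb_mul huR.ne' huR.ne', hlog2] at hmono
        push_cast at hmono ⊢
        linarith
      · -- upper
        have hle : (v : ℝ) * v / 2 ^ sh ≤ ((v * v / 2 ^ sh + 1 : ℕ) : ℝ) := by
          rw [div_le_iff₀ hps]
          have h3 := Nat.lt_mul_div_succ (v * v) (show 0 < 2 ^ sh by positivity)
          have h4 : v * v ≤ (v * v / 2 ^ sh + 1) * 2 ^ sh := by
            calc v * v ≤ 2 ^ sh * (v * v / 2 ^ sh + 1) := h3.le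
              _ = _ := mul_comm _ _
          exact_mod_cast h4
        have hmono : Real.logb 2 ((v : ℝ) * v / 2 ^ sh) ≤ Real.logb 2 ((v * v / 2 ^ sh + 1 : ℕ) : ℝ) :=
          Real.logb_le_logb_of_le (by norm_num) (by positivity) hle
        rw [Real.logb_div (by positivity) (by positivity), Real.logb_mul hvR.ne' hvR.ne', hlog2] at hmono
        push_cast at hmono ⊢
        linarith

/-- Does the squaring loop started at `N`, whose top `w + 1` binary digits are cut off after `E`
places, give the integer part `l` of `2 ^ s * log₂ N`? -/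
def lgOK (w s E N l : ℕ) : Bool :=
  strict (Nat.div N (Nat.pow 2 E)) (fun u =>
    Nat.ble 1 u && lgLoop w (Nat.pow 2 (Nat.add (Nat.mul 2 w) 1)) l s u (Nat.add u 1) E)

theorem lgOK_sound {w s E N l : ℕ} (h : lgOK w s E N l = true) :
    (l : ℝ) ≤ 2 ^ s * Real.logb 2 N ∧ 2 ^ s * Real.logb 2 N ≤ l + 1 := by
  unfold lgOK at h
  rw [strict_eq, Bool.and_eq_true, Nat.ble_eq] at h
  obtain ⟨h1, h2⟩ := h
  have h1' : 1 ≤ N / 2 ^ E := h1
  have hps : (0 : ℝ) < 2 ^ E := by positivity
  have hlog2 : Real.logb 2 ((2 : ℝ) ^ E) = E := by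
    rw [← Real.rpow_natCast, Real.logb_rpow (by norm_num) (by norm_num)]
  have hN : 0 < N := by
    rcases Nat.eq_zero_or_pos N with h0 | h0
    · subst h0; simp at h1'
    · exact h0
  have hNR : (0 : ℝ) < N := by exact_mod_cast hN
  refine lgLoop_sound w _ l s (N / 2 ^ E) (N / 2 ^ E + 1) E (Real.logb 2 N) h1'
    (Nat.le_add_left 1 _) ?_ ?_ h2
  · have hle : ((N / 2 ^ E : ℕ) : ℝ) ≤ (N : ℝ) / 2 ^ E := by
      have := @Nat.cast_div_le ℝ _ _ _ N (2 ^ E)
      push_cast at this
      exact this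
    have hpos : (0 : ℝ) < ((N / 2 ^ E : ℕ) : ℝ) := by exact_mod_cast h1'
    have hmono : Real.logb 2 ((N / 2 ^ E : ℕ) : ℝ) ≤ Real.logb 2 ((N : ℝ) / 2 ^ E) :=
      Real.logb_le_logb_of_le (by norm_num) hpos hle
    rw [Real.logb_div (by positivity) (by positivity), hlog2] at hmono
    linarith
  · have hle : (N : ℝ) / 2 ^ E ≤ ((N / 2 ^ E + 1 : ℕ) : ℝ) := by
      rw [div_le_iff₀ hps]
      have h3 := Nat.lt_mul_div_succ N (show 0 < 2 ^ E by positivity)
      have h4 : N ≤ (N / 2 ^ E + 1) * 2 ^ E := by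
        calc N ≤ 2 ^ E * (N / 2 ^ E + 1) := h3.le
          _ = _ := mul_comm _ _
      exact_mod_cast h4
    have hmono : Real.logb 2 ((N : ℝ) / 2 ^ E) ≤ Real.logb 2 ((N / 2 ^ E + 1 : ℕ) : ℝ) :=
      Real.logb_le_logb_of_le (by norm_num) (by positivity) hle
    rw [Real.logb_div (by positivity) (by positivity), hlog2] at hmono
    linarith

end Pool.Agent.Helper994_CO
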