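import Pool.Agent.Helper994_CO.Path
import Pool.Agent.H319R2.Measure

set_option autoImplicit false

/-!
# Short paths between near integers
-/

namespace Pool.Agent.Helper994_CO

open Finset Filter Topology

/-- The two ends of a high path are not too close. -/
theorem ends_apart : ∃ c : ℝ, 0 < c ∧ ∀ (a k : ℕ) (Y : ℝ), 1 ≤ a → 1 ≤ k → 1 ≤ Y →
    (∀ t < k, Y ≤ ((f^[t] a : ℕ) : ℝ)) →
    |Real.logb 2 (f^[k] a : ℕ) - Real.logb 2 a| ≤ 1 →
    c ≤ (k : ℝ) ^ 13 * (|Real.logb 2 (f^[k] a : ℕ) - Real.logb 2 a| + (6 / 10) * (k / Y)) := by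
  obtain ⟨c, hc, hmeas⟩ := Pool.Agent.H319R2.measure
  refine ⟨c / 5 ^ 13, by positivity, ?_⟩
  intro a k Y ha hk hY hhigh hend
  obtain ⟨A, hA⟩ := logb_path ha k
  have hkR : (1 : ℝ) ≤ k := by exact_mod_cast hk
  have hY0 : (0 : ℝ) < Y := by linarith
  -- the sum of reciprocals
  have hsum : ∑ t ∈ range k, 1 / ((f^[t] a : ℕ) : ℝ) ≤ k / Y := by
    calc ∑ t ∈ range k, 1 / ((f^[t] a : ℕ) : ℝ) ≤ ∑ _t ∈ range k, 1 / Y := by
          apply sum_le_sum
          intro t ht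
          exact one_div_le_one_div_of_le hY0 (hhigh t (mem_range.1 ht))
      _ = k / Y := by rw [sum_const, card_range, nsmul_eq_mul]; ring
  have hkY : (k : ℝ) / Y ≤ k := by
    rw [div_le_iff₀ hY0]; nlinarith
  set E := Real.logb 2 (f^[k] a : ℕ) - Real.logb 2 a with hE
  set al := Real.logb 2 3 with hal
  have hA' : |E - k * al + A| ≤ (6 / 10) * (k / Y) :=
    hA.trans (mul_le_mul_of_nonneg_left hsum (by norm_num))
  -- bound for `al`
  have hal2 : al ≤ 2 := by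
    rw [hal, Real.logb_le_iff_le_rpow (by norm_num) (by norm_num)]
    norm_num
  have hal0 : 0 ≤ al := Real.logb_nonneg (by norm_num) (by norm_num)
  have hAle : (A : ℝ) ≤ 4 * k := by
    have h1 := (abs_le.1 hA').2
    have h2 := (abs_le.1 hend).1
    nlinarith
  have hl2 : (0 : ℝ) < Real.log 2 := Real.log_pos (by norm_num)
  have hl2' : Real.log 2 ≤ 1 := by
    have := Real.log_two_lt_d9; linarith
  have hm := hmeas (-(A : ℤ)) k (Or.inr (by exact_mod_cast (by omega : k ≠ 0)))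
  have e1 : ((|(-(A : ℤ))| + |(k : ℤ)| : ℤ) : ℝ) = A + k := by
    rw [abs_neg, Nat.abs_cast, Nat.abs_cast]; push_cast; ring
  have e2 : ((-(A : ℤ) : ℤ) : ℝ) * Real.log 2 + ((k : ℤ) : ℝ) * Real.log 3 = (k * al - A) * Real.log 2 := by
    rw [hal]; unfold Real.logb; push_cast; field_simp; ring
  rw [e1, e2, abs_mul, abs_of_pos hl2] at hm
  have h3 : |(k : ℝ) * al - A| ≤ |E| + (6 / 10) * (k / Y) := by
    have : (k : ℝ) * al - A = E - (E - k * al + A) := by ring
    rw [this]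
    exact (abs_sub _ _).trans (by linarith)
  have h4 : ((A : ℝ) + k) ^ 13 ≤ (5 * k) ^ 13 := by
    apply pow_le_pow_left₀ (by positivity)
    linarith
  have h5 : c ≤ (5 * (k : ℝ)) ^ 13 * (|E| + (6 / 10) * (k / Y)) := by
    calc c ≤ ((A : ℝ) + k) ^ 13 * (|(k : ℝ) * al - A| * Real.log 2) := hm
      _ ≤ (5 * (k : ℝ)) ^ 13 * (|(k : ℝ) * al - A| * 1) := by
          apply mul_le_mul h4 _ (by positivity) (by positivity)
          exact mul_le_mul_of_nonneg_left hl2' (abs_nonneg _)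
      _ ≤ (5 * (k : ℝ)) ^ 13 * (|E| + (6 / 10) * (k / Y)) := by
          apply mul_le_mul_of_nonneg_left _ (by positivity)
          rw [mul_one]; exact h3
  rw [div_le_iff₀ (by positivity)]
  rw [mul_pow] at h5
  linarith

/-- Logarithms of near integers. -/
theorem logb_near {n m : ℕ} {θ : ℝ} (hn : 1 ≤ n) (hθ : θ ≤ 1 / 4)
    (h : |(m : ℝ) - n| ≤ n * θ) : 1 ≤ m ∧ |Real.logb 2 m - Real.logb 2 n| ≤ 2 * θ := by
  have hnR : (1 : ℝ) ≤ n := by exact_mod_cast hn
  have hn0 : (0 : ℝ) < n := by linarith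
  obtain ⟨h1, h2⟩ := abs_le.1 h
  have hθ0 : 0 ≤ θ := by
    have := (abs_nonneg _).trans h
    by_contra hcon
    push Not at hcon
    nlinarith
  have hm0 : (0 : ℝ) < m := by nlinarith
  have hm1 : 1 ≤ m := by
    have : 0 < m := by exact_mod_cast hm0
    omega
  refine ⟨hm1, ?_⟩
  have hl2 := log_two_lower
  have hl2pos : (0 : ℝ) < Real.log 2 := by linarith
  have e : Real.logb 2 m - Real.logb 2 n = Real.log (m / n) / Real.log 2 := by
    unfold Real.logb
    rw [Real.log_div hm0.ne' hn0.ne']; ring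
  rw [e, abs_div, abs_of_pos hl2pos, div_le_iff₀ hl2pos]
  have hq1 : (m : ℝ) / n ≤ 1 + θ := by rw [div_le_iff₀ hn0]; nlinarith
  have hq2 : 1 - θ ≤ (m : ℝ) / n := by rw [le_div_iff₀ hn0]; nlinarith
  have hqpos : (0 : ℝ) < m / n := by positivity
  rw [abs_le]
  constructor
  · -- lower
    have h3 := Real.one_sub_inv_le_log_of_pos hqpos
    have h4 : ((m : ℝ) / n)⁻¹ ≤ 1 + (4 / 3) * θ := by
      rw [inv_le_comm₀ hqpos (by positivity)]
      refine le_trans ?_ hq2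
      rw [inv_eq_one_div, div_le_iff₀ (by positivity)]
      nlinarith
    nlinarith
  · have h3 := Real.log_le_sub_one_of_pos hqpos
    nlinarith

/-- The set of the integers up to `N` that a short path joins to a near integer. -/
def nearSet (η δ : ℝ) (N : ℕ) : Set ℕ :=
  {n : ℕ | 1 ≤ n ∧ n ≤ N ∧ ∃ m k : ℕ, 1 ≤ k ∧ (k : ℝ) ≤ (N : ℝ) ^ δ ∧
    |(m : ℝ) - n| ≤ (n : ℝ) ^ (1 - η) ∧ (f^[k] n = m ∨ f^[k] m = n)}

theorem near_main (η ε : ℝ) (hη : 0 < η) (hε : 0 < ε) : ∃ δ : ℝ, 0 < δ ∧ ∃ C : ℝ, ∀ N : ℕ, 1 ≤ N →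
    ((nearSet η δ N).ncard : ℝ) ≤ C * (N : ℝ) ^ ε := by
  obtain ⟨c, hc, hends⟩ := ends_apart
  set δ := min (ε * η / 14) (ε / 16) with hδ
  have hδ0 : 0 < δ := lt_min (by positivity) (by positivity)
  have hδ1 : 14 * δ ≤ ε * η := by
    have : δ ≤ ε * η / 14 := min_le_left _ _
    linarith
  have hδ2 : 16 * δ ≤ ε := by
    have : δ ≤ ε / 16 := min_le_right _ _
    linarith
  -- the threshold
  have hlim : Tendsto (fun N : ℕ => (N : ℝ) ^ δ) atTop atTop :=
    (tendsto_rpow_atTop hδ0).comp tendsto_natCast_atTop_atTop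
  obtain ⟨N0, hN0⟩ := eventually_atTop.1 (hlim.eventually_gt_atTop (8 + 8 / c))
  refine ⟨δ, hδ0, N0 + 5, fun N hN => ?_⟩
  have hNR : (1 : ℝ) ≤ N := by exact_mod_cast hN
  have hNpos : (0 : ℝ) < N := by linarith
  have hNε : (1 : ℝ) ≤ (N : ℝ) ^ ε := Real.one_le_rpow hNR hε.le
  have hIcc : nearSet η δ N ⊆ Set.Icc 1 N := fun n hn => ⟨hn.1, hn.2.1⟩
  by_cases hsmall : N ≤ N0
  · -- small `N`
    have h1 : (nearSet η δ N).ncard ≤ N := by
      calc (nearSet η δ N).ncard ≤ (Set.Icc 1 N).ncard := Set.ncard_le_ncard hIcc (Set.finite_Icc 1 N)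
        _ = N := by rw [← Finset.coe_Icc, Set.ncard_coe_finset, Nat.card_Icc, Nat.add_sub_cancel]
    have h2 : ((nearSet η δ N).ncard : ℝ) ≤ N0 := by exact_mod_cast h1.trans hsmall
    calc ((nearSet η δ N).ncard : ℝ) ≤ (N0 : ℝ) * 1 := by linarith
      _ ≤ (N0 + 5) * (N : ℝ) ^ ε := by
        apply mul_le_mul (by linarith) hNε (by norm_num) (by positivity)
  push Not at hsmall
  have hbig : 8 + 8 / c < (N : ℝ) ^ δ := hN0 N hsmall.le
  set K : ℕ := ⌊(N : ℝ) ^ δ⌋₊ with hK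
  set Y : ℕ := ⌊(N : ℝ) ^ (15 * δ)⌋₊ with hY
  set X : ℕ := ⌊(N : ℝ) ^ ε⌋₊ with hX
  classical
  set S : Finset ℕ := Icc 1 X ∪ (((Icc 1 Y) ×ˢ (range (K + 1))).image (fun p => f^[p.2] p.1) ∪
    ((Icc 1 Y) ×ˢ (range (K + 1))).image (fun p => g^[p.2] p.1)) with hS
  have hNδ0 : (0 : ℝ) < (N : ℝ) ^ δ := Real.rpow_pos_of_pos hNpos δ
  have hsub : nearSet η δ N ⊆ (S : Set ℕ) := by
    rintro n ⟨hn1, hnN, m, k, hk1, hkN, hnear, hpath⟩
    rw [mem_coe, hS]
    simp only [mem_union, mem_image, mem_product, mem_Icc, mem_range, Prod.exists]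
    by_contra hcon
    push Not at hcon
    obtain ⟨hX1, hf1, hg1⟩ := hcon
    have hnR : (1 : ℝ) ≤ n := by exact_mod_cast hn1
    have hn0 : (0 : ℝ) < n := by linarith
    have hnX : (N : ℝ) ^ ε < n := by
      have h1 : X < n := hX1 hn1
      exact (Nat.floor_lt (by positivity)).1 h1
    have hkK : k ≤ K := Nat.le_floor hkN
    -- theta
    set θ : ℝ := (n : ℝ) ^ (-η) with hθ
    have hθpos : 0 < θ := Real.rpow_pos_of_pos hn0 _
    have hsplit : (n : ℝ) ^ (1 - η) = n * θ := by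
      rw [hθ, sub_eq_add_neg, Real.rpow_add hn0, Real.rpow_one]
    have hθle : θ ≤ (N : ℝ) ^ (-(14 * δ)) := by
      calc θ ≤ ((N : ℝ) ^ ε) ^ (-η) :=
            Real.rpow_le_rpow_of_nonpos (by positivity) hnX.le (by linarith)
        _ = (N : ℝ) ^ (-(ε * η)) := by rw [← Real.rpow_mul hNpos.le]; congr 1; ring
        _ ≤ _ := Real.rpow_le_rpow_of_exponent_le hNR (by linarith)
    have hNinv : (N : ℝ) ^ (-(14 * δ)) = ((N : ℝ) ^ δ)⁻¹ ^ 14 := by
      rw [Real.rpow_neg hNpos.le, inv_pow, ← Real.rpow_natCast ((N : ℝ) ^ δ) 14, ← Real.rpow_mul hNpos.le]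
      congr 2; push_cast; ring
    set z : ℝ := ((N : ℝ) ^ δ)⁻¹ with hz
    have hz0 : 0 < z := inv_pos.2 hNδ0
    have hzle : z ≤ 1 / 8 := by
      rw [hz, inv_eq_one_div]
      apply one_div_le_one_div_of_le (by norm_num)
      have : 0 < 8 / c := by positivity
      linarith
    have hz14 : z ^ 14 ≤ z := by
      have : z ^ 14 ≤ z ^ 1 := pow_le_pow_of_le_one hz0.le (by linarith) (by norm_num)
      simpa using this
    have hθ4 : θ ≤ 1 / 4 := by rw [hNinv] at hθle; linarith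
    rw [hsplit] at hnear
    obtain ⟨hm1, hlog⟩ := logb_near hn1 hθ4 hnear
    -- the common conclusion
    have hfinal : ∀ a b : ℕ, 1 ≤ a → f^[k] a = b → |Real.logb 2 b - Real.logb 2 a| ≤ 2 * θ →
        (∀ t < k, (N : ℝ) ^ (15 * δ) ≤ ((f^[t] a : ℕ) : ℝ)) → False := by
      intro a b ha hab hl hhigh
      have hYone : (1 : ℝ) ≤ (N : ℝ) ^ (15 * δ) := Real.one_le_rpow hNR (by positivity)
      have h1 := hends a k ((N : ℝ) ^ (15 * δ)) ha hk1 hYone hhigh
        (by rw [hab]; linarith)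
      rw [hab] at h1
      have hkz : (k : ℝ) * z ≤ 1 := by
        rw [hz, mul_inv_le_iff₀ hNδ0]; linarith
      have hYz : (N : ℝ) ^ (15 * δ) = (z⁻¹) ^ 15 := by
        rw [hz, inv_inv, ← Real.rpow_natCast ((N : ℝ) ^ δ) 15, ← Real.rpow_mul hNpos.le]
        congr 1; push_cast; ring
      rw [hNinv] at hθle
      have h2 : (k : ℝ) ^ 13 * (|Real.logb 2 b - Real.logb 2 a| + 6 / 10 * (k / (N : ℝ) ^ (15 * δ))) ≤
          (k : ℝ) ^ 13 * (2 * z ^ 14 + 6 / 10 * (k * z ^ 15)) := by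
        apply mul_le_mul_of_nonneg_left _ (by positivity)
        rw [hYz, inv_pow, div_inv_eq_mul]
        linarith
      have h3 : (k : ℝ) ^ 13 * (2 * z ^ 14 + 6 / 10 * (k * z ^ 15)) =
          (k * z) ^ 13 * (2 * z) + 6 / 10 * ((k * z) ^ 14 * z) := by ring
      have h4 : ((k : ℝ) * z) ^ 13 ≤ 1 := pow_le_one₀ (by positivity) hkz
      have h5 : ((k : ℝ) * z) ^ 14 ≤ 1 := pow_le_one₀ (by positivity) hkz
      have h6 : c ≤ 3 * z := by
        rw [h3] at h2
        have h7 : ((k : ℝ) * z) ^ 13 * (2 * z) ≤ 1 * (2 * z) :=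
          mul_le_mul_of_nonneg_right h4 (by positivity)
        have h8 : ((k : ℝ) * z) ^ 14 * z ≤ 1 * z := mul_le_mul_of_nonneg_right h5 hz0.le
        linarith
      -- but `z < c / 8`
      have h9 : z < c / 8 := by
        rw [hz, inv_lt_comm₀ hNδ0 (by positivity)]
        have : (c / 8)⁻¹ = 8 / c := by rw [inv_div]
        rw [this]; linarith
      linarith
    rcases hpath with hp | hp
    · refine hfinal n m hn1 hp hlog ?_
      intro t ht
      by_contra hlow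
      push Not at hlow
      have h1 : f^[t] n ≤ Y := Nat.le_floor hlow.le
      have h2 := iter_f_pos hn1 t
      exact hg1 (f^[t] n) t ⟨⟨h2, h1⟩, by omega⟩ (iter_g_iter_f t n)
    · refine hfinal m n hm1 hp (by rw [abs_sub_comm]; exact hlog) ?_
      intro t ht
      by_contra hlow
      push Not at hlow
      have h1 : f^[t] m ≤ Y := Nat.le_floor hlow.le
      have h2 := iter_f_pos hm1 t
      refine hf1 (f^[t] m) (k - t) ⟨⟨h2, h1⟩, by omega⟩ ?_
      rw [← Function.iterate_add_apply, Nat.sub_add_cancel ht.le, hp]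
  -- counting
  have hcard : (nearSet η δ N).ncard ≤ X + (Y * (K + 1) + Y * (K + 1)) := by
    calc (nearSet η δ N).ncard ≤ (S : Set ℕ).ncard := Set.ncard_le_ncard hsub S.finite_toSet
      _ = S.card := Set.ncard_coe_finset S
      _ ≤ X + (Y * (K + 1) + Y * (K + 1)) := by
        rw [hS]
        refine (card_union_le _ _).trans (Nat.add_le_add ?_ ?_)
        · rw [Nat.card_Icc, Nat.add_sub_cancel]
        · refine (card_union_le _ _).trans (Nat.add_le_add ?_ ?_)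
          · refine card_image_le.trans ?_
            rw [card_product, Nat.card_Icc, Nat.add_sub_cancel, card_range]
          · refine card_image_le.trans ?_
            rw [card_product, Nat.card_Icc, Nat.add_sub_cancel, card_range]
  have hcardR : ((nearSet η δ N).ncard : ℝ) ≤ X + (Y * (K + 1) + Y * (K + 1)) := by exact_mod_cast hcard
  have hXle : (X : ℝ) ≤ (N : ℝ) ^ ε := Nat.floor_le (by positivity)
  have hYle : (Y : ℝ) ≤ (N : ℝ) ^ (15 * δ) := Nat.floor_le (by positivity)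
  have hKle : (K : ℝ) ≤ (N : ℝ) ^ δ := Nat.floor_le (by positivity)
  have hK1 : (K : ℝ) + 1 ≤ 2 * (N : ℝ) ^ δ := by
    have : 0 < 8 / c := by positivity
    linarith
  have hYK : (Y : ℝ) * (K + 1) ≤ 2 * (N : ℝ) ^ ε := by
    calc (Y : ℝ) * (K + 1) ≤ (N : ℝ) ^ (15 * δ) * (2 * (N : ℝ) ^ δ) :=
          mul_le_mul hYle hK1 (by positivity) (by positivity)
      _ = 2 * (N : ℝ) ^ (16 * δ) := by
          have : (16 : ℝ) * δ = 15 * δ + δ := by ring
          rw [this, Real.rpow_add hNpos]; ring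
      _ ≤ 2 * (N : ℝ) ^ ε := by
          apply mul_le_mul_of_nonneg_left _ (by norm_num)
          exact Real.rpow_le_rpow_of_exponent_le hNR hδ2
  have hN00 : (0 : ℝ) ≤ N0 := by positivity
  have : (0 : ℝ) ≤ N0 * (N : ℝ) ^ ε := by positivity
  nlinarith

end Pool.Agent.Helper994_CO
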