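import Pool.Agent.Helper994_CO.Base

set_option autoImplicit false

/-!
# Counting words of the permutation: exponents, periodicity, and the two counting recursions
-/

namespace Pool.Agent.Helper994_CO

open Finset

/-- The exponent of two in one forward step. -/
def ex (n : ℕ) : ℕ := if n % 2 = 0 then 1 else 2

/-- The exponent of two in one backward step. -/
def eb (n : ℕ) : ℕ := if n % 3 = 0 then 1 else 2

/-- The total exponent of two in `k` forward steps. -/
def fa : ℕ → ℕ → ℕ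
  | 0, _ => 0
  | k + 1, n => ex n + fa k (f n)

/-- The total exponent of two in `k` backward steps. -/
def ba : ℕ → ℕ → ℕ
  | 0, _ => 0
  | k + 1, n => eb n + ba k (g n)

theorem f_add_even (n t : ℕ) : f (n + 4 * t) = f n + (if n % 2 = 0 then 6 else 3) * t := by
  unfold f
  split_ifs <;> omega

theorem ex_add (n t : ℕ) : ex (n + 4 * t) = ex n := by
  unfold ex
  have : (n + 4 * t) % 2 = n % 2 := by omega
  rw [this]

theorem g_add (n t : ℕ) : g (n + 3 * t) = g n + (if n % 3 = 0 then 2 else 4) * t := by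
  unfold g
  split_ifs <;> omega

theorem eb_add (n t : ℕ) : eb (n + 3 * t) = eb n := by
  unfold eb
  have : (n + 3 * t) % 3 = n % 3 := by omega
  rw [this]

/-- A function of `n` given by a step recursion along `f` is periodic. -/
theorem per_fwd {β : Type*} (Φ : ℕ → ℕ → β) (Ψ : ℕ → ℕ → β → β)
    (h0 : ∀ n m, Φ 0 n = Φ 0 m) (hs : ∀ k n, Φ (k + 1) n = Ψ k (n % 4) (Φ k (f n))) (k : ℕ) :
    ∀ n t : ℕ, Φ k (n + 4 ^ k * t) = Φ k n := by
  induction k with
  | zero => intro n t; exact h0 _ _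
  | succ k ih =>
    intro n t
    have e : n + 4 ^ (k + 1) * t = n + 4 * (4 ^ k * t) := by ring
    rw [hs, hs, e, f_add_even, show (if n % 2 = 0 then 6 else 3) * (4 ^ k * t) =
      4 ^ k * ((if n % 2 = 0 then 6 else 3) * t) by ring, ih]
    congr 1
    omega

theorem per_bwd {β : Type*} (Φ : ℕ → ℕ → β) (Ψ : ℕ → ℕ → β → β)
    (h0 : ∀ n m, Φ 0 n = Φ 0 m) (hs : ∀ k n, Φ (k + 1) n = Ψ k (n % 3) (Φ k (g n))) (k : ℕ) :
    ∀ n t : ℕ, Φ k (n + 3 ^ k * t) = Φ k n := by
  induction k with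
  | zero => intro n t; exact h0 _ _
  | succ k ih =>
    intro n t
    have e : n + 3 ^ (k + 1) * t = n + 3 * (3 ^ k * t) := by ring
    rw [hs, hs, e, g_add, show (if n % 3 = 0 then 2 else 4) * (3 ^ k * t) =
      3 ^ k * ((if n % 3 = 0 then 2 else 4) * t) by ring, ih]
    congr 1
    omega

theorem fa_per (k n t : ℕ) : fa k (n + 4 ^ k * t) = fa k n := by
  refine per_fwd fa (fun _ r x => (if r % 2 = 0 then 1 else 2) + x) (fun _ _ => rfl) ?_ k n t
  intro k n
  show ex n + fa k (f n) = _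
  unfold ex
  have : n % 4 % 2 = n % 2 := by omega
  simp only [this]

theorem ba_per (k n t : ℕ) : ba k (n + 3 ^ k * t) = ba k n := by
  refine per_bwd ba (fun _ r x => (if r = 0 then 1 else 2) + x) (fun _ _ => rfl) ?_ k n t
  intro k n
  rfl

theorem sum_affine (G : ℕ → ℝ) (N : ℕ) (hN : 0 < N) (hg : ∀ m t, G (m + N * t) = G m)
    (c b : ℕ) (hc : Nat.Coprime N c) : ∑ t ∈ range N, G (c * t + b) = ∑ t ∈ range N, G t := by
  have h1 : ∀ t, G (c * t + b) = G ((c * t + b) % N) := by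
    intro t
    conv_lhs => rw [← Nat.mod_add_div (c * t + b) N]
    exact hg _ _
  have hinj : Set.InjOn (fun t => (c * t + b) % N) (range N : Finset ℕ) := by
    intro s hs t ht hst
    have e1 : c * s + b ≡ c * t + b [MOD N] := hst
    have e2 : c * s ≡ c * t [MOD N] := Nat.ModEq.add_right_cancel' b e1
    have e3 : s ≡ t [MOD N] := Nat.ModEq.cancel_left_of_coprime hc e2
    exact Nat.ModEq.eq_of_lt_of_lt e3 (by simpa using hs) (by simpa using ht)
  have himg : (range N).image (fun t => (c * t + b) % N) = range N := by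
    apply eq_of_subset_of_card_le
    · intro y hy
      obtain ⟨t, -, rfl⟩ := mem_image.1 hy
      exact mem_range.2 (Nat.mod_lt _ hN)
    · rw [card_image_of_injOn hinj]
  calc ∑ t ∈ range N, G (c * t + b) = ∑ t ∈ range N, G ((c * t + b) % N) :=
        sum_congr rfl fun t _ => h1 t
    _ = ∑ y ∈ (range N).image (fun t => (c * t + b) % N), G y := by
        rw [sum_image hinj]
    _ = _ := by rw [himg]

theorem sum_mul_range (G : ℕ → ℝ) (N : ℕ) (hg : ∀ m t, G (m + N * t) = G m) (q : ℕ) :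
    ∑ t ∈ range (N * q), G t = q * ∑ t ∈ range N, G t := by
  induction q with
  | zero => simp
  | succ q ih =>
    rw [Nat.mul_succ, sum_range_add, ih]
    have : ∑ x ∈ range N, G (N * q + x) = ∑ x ∈ range N, G x :=
      sum_congr rfl fun x _ => by rw [add_comm, hg]
    rw [this]
    push_cast
    ring

theorem sum_two (G : ℕ → ℝ) (n : ℕ) : ∑ m ∈ range (2 * n), G m =
    ∑ t ∈ range n, (G (2 * t) + G (2 * t + 1)) := by
  induction n with
  | zero => simp
  | succ n ih =>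
    rw [show 2 * (n + 1) = 2 * n + 1 + 1 by ring, sum_range_succ, sum_range_succ, ih, sum_range_succ]
    ring

theorem sum_three (G : ℕ → ℝ) (n : ℕ) : ∑ m ∈ range (3 * n), G m =
    ∑ t ∈ range n, (G (3 * t) + G (3 * t + 1) + G (3 * t + 2)) := by
  induction n with
  | zero => simp
  | succ n ih =>
    rw [show 3 * (n + 1) = 3 * n + 1 + 1 + 1 by ring, sum_range_succ, sum_range_succ,
      sum_range_succ, ih, sum_range_succ]
    ring

theorem sum_four (G : ℕ → ℝ) (n : ℕ) : ∑ m ∈ range (4 * n), G m =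
    ∑ t ∈ range (2 * n), G (2 * t) + ∑ t ∈ range n, G (4 * t + 1) + ∑ t ∈ range n, G (4 * t + 3) := by
  have h := sum_two G (2 * n)
  rw [show 2 * (2 * n) = 4 * n by ring] at h
  rw [h, sum_add_distrib]
  have h2 := sum_two (fun t => G (2 * t + 1)) n
  rw [h2, sum_add_distrib]
  have e1 : ∀ t, 2 * (2 * t) + 1 = 4 * t + 1 := fun t => by ring
  have e2 : ∀ t, 2 * (2 * t + 1) + 1 = 4 * t + 3 := fun t => by ring
  simp only [e1, e2]
  ring

/-- Peeling the first forward step off a sum over a full period. -/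
theorem sum_fwd_succ (k : ℕ) (Φ : ℕ → ℝ) (Φ1 Φ2 : ℕ → ℝ)
    (h1 : ∀ n, n % 2 = 0 → Φ n = Φ1 (f n)) (h2 : ∀ n, n % 2 = 1 → Φ n = Φ2 (f n))
    (p1 : ∀ m t, Φ1 (m + 4 ^ k * t) = Φ1 m) (p2 : ∀ m t, Φ2 (m + 4 ^ k * t) = Φ2 m) :
    ∑ n ∈ range (4 ^ (k + 1)), Φ n =
      2 * ∑ n ∈ range (4 ^ k), Φ1 n + 2 * ∑ n ∈ range (4 ^ k), Φ2 n := by
  have hpos : 0 < 4 ^ k := by positivity
  have hcop : Nat.Coprime (4 ^ k) 3 := Nat.Coprime.pow_left k (by norm_num)
  rw [pow_succ' 4 k, sum_four]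
  have e1 : ∀ t, Φ (2 * t) = Φ1 (3 * t) := by
    intro t; rw [h1 _ (by omega), f_two_mul]
  have e2 : ∀ t, Φ (4 * t + 1) = Φ2 (3 * t + 1) := by
    intro t; rw [h2 _ (by omega), f_four_add]
  have e3 : ∀ t, Φ (4 * t + 3) = Φ2 (3 * t + 2) := by
    intro t; rw [h2 _ (by omega), f_four_add']
  simp only [e1, e2, e3]
  have p1' : ∀ m t, (fun x => Φ1 (3 * x)) (m + 4 ^ k * t) = (fun x => Φ1 (3 * x)) m := by
    intro m t
    show Φ1 (3 * (m + 4 ^ k * t)) = Φ1 (3 * m)
    rw [show 3 * (m + 4 ^ k * t) = 3 * m + 4 ^ k * (3 * t) by ring, p1]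
  have s1 : ∑ t ∈ range (2 * 4 ^ k), Φ1 (3 * t) = 2 * ∑ t ∈ range (4 ^ k), Φ1 t := by
    rw [mul_comm 2 (4 ^ k), sum_mul_range (fun x => Φ1 (3 * x)) (4 ^ k) p1' 2]
    have := sum_affine Φ1 (4 ^ k) hpos p1 3 0 hcop
    simp only [add_zero] at this
    rw [this]
    norm_num
  rw [s1, sum_affine Φ2 (4 ^ k) hpos p2 3 1 hcop, sum_affine Φ2 (4 ^ k) hpos p2 3 2 hcop]
  ring

/-- Peeling the first backward step off a sum over a full period. -/
theorem sum_bwd_succ (k : ℕ) (Φ : ℕ → ℝ) (Φ1 Φ2 : ℕ → ℝ)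
    (h1 : ∀ n, n % 3 = 0 → Φ n = Φ1 (g n)) (h2 : ∀ n, n % 3 ≠ 0 → Φ n = Φ2 (g n))
    (p1 : ∀ m t, Φ1 (m + 3 ^ k * t) = Φ1 m) (p2 : ∀ m t, Φ2 (m + 3 ^ k * t) = Φ2 m) :
    ∑ n ∈ range (3 ^ (k + 1)), Φ n =
      ∑ n ∈ range (3 ^ k), Φ1 n + 2 * ∑ n ∈ range (3 ^ k), Φ2 n := by
  have hpos : 0 < 3 ^ k := by positivity
  have hcop2 : Nat.Coprime (3 ^ k) 2 := Nat.Coprime.pow_left k (by norm_num)
  have hcop4 : Nat.Coprime (3 ^ k) 4 := Nat.Coprime.pow_left k (by norm_num)
  rw [pow_succ' 3 k, sum_three]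
  have g0 : ∀ t, g (3 * t) = 2 * t + 0 := by intro t; unfold g; split_ifs <;> omega
  have g1 : ∀ t, g (3 * t + 1) = 4 * t + 1 := by intro t; unfold g; split_ifs <;> omega
  have g2 : ∀ t, g (3 * t + 2) = 4 * t + 3 := by intro t; unfold g; split_ifs <;> omega
  have e1 : ∀ t, Φ (3 * t) = Φ1 (2 * t + 0) := by
    intro t; rw [h1 _ (by omega), g0]
  have e2 : ∀ t, Φ (3 * t + 1) = Φ2 (4 * t + 1) := by
    intro t; rw [h2 _ (by omega), g1]
  have e3 : ∀ t, Φ (3 * t + 2) = Φ2 (4 * t + 3) := by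
    intro t; rw [h2 _ (by omega), g2]
  simp only [e1, e2, e3]
  rw [sum_add_distrib, sum_add_distrib, sum_affine Φ1 (3 ^ k) hpos p1 2 0 hcop2,
    sum_affine Φ2 (3 ^ k) hpos p2 4 1 hcop4, sum_affine Φ2 (3 ^ k) hpos p2 4 3 hcop4]
  ring

/-! ### The survivors -/

/-- `B * 2 ^ a < A * 3 ^ k` along the first `K` forward steps. -/
def Vf : ℕ → ℕ → ℕ → ℕ → Prop
  | 0, _, _, _ => True
  | K + 1, A, B, n => B * 2 ^ ex n < 3 * A ∧ Vf K (3 * A) (B * 2 ^ ex n) (f n)

/-- `B * 3 ^ k < A * 2 ^ b` along the first `K` backward steps. -/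
def Vb : ℕ → ℕ → ℕ → ℕ → Prop
  | 0, _, _, _ => True
  | K + 1, A, B, n => 3 * B < A * 2 ^ eb n ∧ Vb K (A * 2 ^ eb n) (3 * B) (g n)

instance decVf : ∀ K A B n, Decidable (Vf K A B n)
  | 0, _, _, _ => .isTrue trivial
  | K + 1, A, B, n => @instDecidableAnd _ _ _ (decVf K (3 * A) (B * 2 ^ ex n) (f n))

instance decVb : ∀ K A B n, Decidable (Vb K A B n)
  | 0, _, _, _ => .isTrue trivial
  | K + 1, A, B, n => @instDecidableAnd _ _ _ (decVb K (A * 2 ^ eb n) (3 * B) (g n))

/-- The number of surviving words, forward. -/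
def Tf : ℕ → ℕ → ℕ → ℕ
  | 0, _, _ => 1
  | K + 1, A, B => (if B * 2 < 3 * A then Tf K (3 * A) (B * 2) else 0) +
      (if B * 4 < 3 * A then Tf K (3 * A) (B * 4) else 0)

/-- The number of surviving words, backward. -/
def Tb : ℕ → ℕ → ℕ → ℕ
  | 0, _, _ => 1
  | K + 1, A, B => (if 3 * B < A * 2 then Tb K (A * 2) (3 * B) else 0) +
      2 * (if 3 * B < A * 4 then Tb K (A * 4) (3 * B) else 0)

theorem Vf_iff (K : ℕ) : ∀ A B n, Vf K A B n ↔ ∀ k, 1 ≤ k → k ≤ K → B * 2 ^ fa k n < A * 3 ^ k := by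
  induction K with
  | zero => intro A B n; exact ⟨fun _ k h1 h2 => by omega, fun _ => trivial⟩
  | succ K ih =>
    intro A B n
    show (B * 2 ^ ex n < 3 * A ∧ Vf K (3 * A) (B * 2 ^ ex n) (f n)) ↔ _
    rw [ih]
    have e : ∀ k, B * 2 ^ ex n * 2 ^ fa k (f n) = B * 2 ^ fa (k + 1) n := by
      intro k
      show _ = B * 2 ^ (ex n + fa k (f n))
      rw [pow_add]; ring
    have e' : ∀ k, 3 * A * 3 ^ k = A * 3 ^ (k + 1) := by intro k; ring
    constructor
    · rintro ⟨h1, h2⟩ k hk1 hk2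
      obtain ⟨j, rfl⟩ : ∃ j, k = j + 1 := ⟨k - 1, by omega⟩
      rcases Nat.eq_zero_or_pos j with hj | hj
      · subst hj
        have : B * 2 ^ fa 1 n = B * 2 ^ ex n := by rw [← e 0]; simp [fa]
        rw [zero_add, this, pow_one, mul_comm A 3]; exact h1
      · have := h2 j hj (by omega)
        rw [e, e'] at this; exact this
    · intro h
      constructor
      · have := h 1 le_rfl (by omega)
        rw [pow_one, mul_comm A 3] at this
        have h3 : B * 2 ^ fa 1 n = B * 2 ^ ex n := by rw [← e 0]; simp [fa]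
        rw [h3] at this; exact this
      · intro k hk1 hk2
        rw [e, e']
        exact h (k + 1) (by omega) (by omega)

theorem Vb_iff (K : ℕ) : ∀ A B n, Vb K A B n ↔ ∀ k, 1 ≤ k → k ≤ K → B * 3 ^ k < A * 2 ^ ba k n := by
  induction K with
  | zero => intro A B n; exact ⟨fun _ k h1 h2 => by omega, fun _ => trivial⟩
  | succ K ih =>
    intro A B n
    show (3 * B < A * 2 ^ eb n ∧ Vb K (A * 2 ^ eb n) (3 * B) (g n)) ↔ _
    rw [ih]
    have e : ∀ k, A * 2 ^ eb n * 2 ^ ba k (g n) = A * 2 ^ ba (k + 1) n := by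
      intro k
      show _ = A * 2 ^ (eb n + ba k (g n))
      rw [pow_add]; ring
    have e' : ∀ k, 3 * B * 3 ^ k = B * 3 ^ (k + 1) := by intro k; ring
    constructor
    · rintro ⟨h1, h2⟩ k hk1 hk2
      obtain ⟨j, rfl⟩ : ∃ j, k = j + 1 := ⟨k - 1, by omega⟩
      rcases Nat.eq_zero_or_pos j with hj | hj
      · subst hj
        have : A * 2 ^ ba 1 n = A * 2 ^ eb n := by rw [← e 0]; simp [ba]
        rw [zero_add, this, pow_one, mul_comm B 3]; exact h1
      · have := h2 j hj (by omega)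
        rw [e, e'] at this; exact this
    · intro h
      constructor
      · have := h 1 le_rfl (by omega)
        rw [pow_one, mul_comm B 3] at this
        have h3 : A * 2 ^ ba 1 n = A * 2 ^ eb n := by rw [← e 0]; simp [ba]
        rw [h3] at this; exact this
      · intro k hk1 hk2
        rw [e, e']
        exact h (k + 1) (by omega) (by omega)

theorem Vf_per (K : ℕ) : ∀ A B n t, Vf K A B (n + 4 ^ K * t) ↔ Vf K A B n := by
  induction K with
  | zero => intro A B n t; exact Iff.rfl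
  | succ K ih =>
    intro A B n t
    have e : n + 4 ^ (K + 1) * t = n + 4 * (4 ^ K * t) := by ring
    show (B * 2 ^ ex (n + 4 ^ (K + 1) * t) < 3 * A ∧
      Vf K (3 * A) (B * 2 ^ ex (n + 4 ^ (K + 1) * t)) (f (n + 4 ^ (K + 1) * t))) ↔
      (B * 2 ^ ex n < 3 * A ∧ Vf K (3 * A) (B * 2 ^ ex n) (f n))
    rw [e, ex_add, f_add_even, show (if n % 2 = 0 then 6 else 3) * (4 ^ K * t) =
      4 ^ K * ((if n % 2 = 0 then 6 else 3) * t) by ring, ih]

theorem Vb_per (K : ℕ) : ∀ A B n t, Vb K A B (n + 3 ^ K * t) ↔ Vb K A B n := by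
  induction K with
  | zero => intro A B n t; exact Iff.rfl
  | succ K ih =>
    intro A B n t
    have e : n + 3 ^ (K + 1) * t = n + 3 * (3 ^ K * t) := by ring
    show (3 * B < A * 2 ^ eb (n + 3 ^ (K + 1) * t) ∧
      Vb K (A * 2 ^ eb (n + 3 ^ (K + 1) * t)) (3 * B) (g (n + 3 ^ (K + 1) * t))) ↔
      (3 * B < A * 2 ^ eb n ∧ Vb K (A * 2 ^ eb n) (3 * B) (g n))
    rw [e, eb_add, g_add, show (if n % 3 = 0 then 2 else 4) * (3 ^ K * t) =
      3 ^ K * ((if n % 3 = 0 then 2 else 4) * t) by ring, ih]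

theorem sum_Vf (K : ℕ) : ∀ A B, ∑ n ∈ range (4 ^ K), (if Vf K A B n then (1 : ℝ) else 0) =
    2 ^ K * Tf K A B := by
  induction K with
  | zero => intro A B; simp [Vf, Tf]
  | succ K ih =>
    intro A B
    rw [sum_fwd_succ K _ (fun m => if B * 2 < 3 * A then (if Vf K (3 * A) (B * 2) m then (1 : ℝ) else 0) else 0)
      (fun m => if B * 4 < 3 * A then (if Vf K (3 * A) (B * 4) m then (1 : ℝ) else 0) else 0)]
    · show _ = 2 ^ (K + 1) * (((if B * 2 < 3 * A then Tf K (3 * A) (B * 2) else 0) +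
        (if B * 4 < 3 * A then Tf K (3 * A) (B * 4) else 0) : ℕ) : ℝ)
      by_cases h1 : B * 2 < 3 * A <;> by_cases h2 : B * 4 < 3 * A <;>
        simp only [h1, h2, if_true, if_false, ih, sum_const_zero] <;> push_cast <;> ring
    · intro n hn
      have hex : ex n = 1 := by unfold ex; rw [if_pos hn]
      show (if (B * 2 ^ ex n < 3 * A ∧ Vf K (3 * A) (B * 2 ^ ex n) (f n)) then (1 : ℝ) else 0) = _
      rw [hex, pow_one]
      by_cases h1 : B * 2 < 3 * A <;> simp [h1]
    · intro n hn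
      have hex : ex n = 2 := by unfold ex; rw [if_neg (by omega)]
      show (if (B * 2 ^ ex n < 3 * A ∧ Vf K (3 * A) (B * 2 ^ ex n) (f n)) then (1 : ℝ) else 0) = _
      rw [hex, show 2 ^ 2 = 4 by norm_num]
      by_cases h1 : B * 4 < 3 * A <;> simp [h1]
    · intro m t; simp only [Vf_per]
    · intro m t; simp only [Vf_per]

theorem sum_Vb (K : ℕ) : ∀ A B, ∑ n ∈ range (3 ^ K), (if Vb K A B n then (1 : ℝ) else 0) =
    Tb K A B := by
  induction K with
  | zero => intro A B; simp [Vb, Tb]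
  | succ K ih =>
    intro A B
    rw [sum_bwd_succ K _ (fun m => if 3 * B < A * 2 then (if Vb K (A * 2) (3 * B) m then (1 : ℝ) else 0) else 0)
      (fun m => if 3 * B < A * 4 then (if Vb K (A * 4) (3 * B) m then (1 : ℝ) else 0) else 0)]
    · show _ = (((if 3 * B < A * 2 then Tb K (A * 2) (3 * B) else 0) +
        2 * (if 3 * B < A * 4 then Tb K (A * 4) (3 * B) else 0) : ℕ) : ℝ)
      by_cases h1 : 3 * B < A * 2 <;> by_cases h2 : 3 * B < A * 4 <;>
        simp only [h1, h2, if_true, if_false, ih, sum_const_zero] <;> push_cast <;> ring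
    · intro n hn
      have hex : eb n = 1 := by unfold eb; rw [if_pos hn]
      show (if (3 * B < A * 2 ^ eb n ∧ Vb K (A * 2 ^ eb n) (3 * B) (g n)) then (1 : ℝ) else 0) = _
      rw [hex, pow_one]
      by_cases h1 : 3 * B < A * 2 <;> simp [h1]
    · intro n hn
      have hex : eb n = 2 := by unfold eb; rw [if_neg hn]
      show (if (3 * B < A * 2 ^ eb n ∧ Vb K (A * 2 ^ eb n) (3 * B) (g n)) then (1 : ℝ) else 0) = _
      rw [hex, show 2 ^ 2 = 4 by norm_num]
      by_cases h1 : 3 * B < A * 4 <;> simp [h1]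
    · intro m t; simp only [Vb_per]
    · intro m t; simp only [Vb_per]

/-! ### Monotonicity and the martingale bound -/

theorem Tf_succ_le (K : ℕ) : ∀ A B, Tf (K + 1) A B ≤ 2 * Tf K A B := by
  induction K with
  | zero =>
    intro A B
    simp only [Tf]
    split_ifs <;> omega
  | succ K ih =>
    intro A B
    have h1 := ih (3 * A) (B * 2)
    have h2 := ih (3 * A) (B * 4)
    show (if B * 2 < 3 * A then Tf (K + 1) (3 * A) (B * 2) else 0) +
      (if B * 4 < 3 * A then Tf (K + 1) (3 * A) (B * 4) else 0) ≤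
      2 * ((if B * 2 < 3 * A then Tf K (3 * A) (B * 2) else 0) +
      (if B * 4 < 3 * A then Tf K (3 * A) (B * 4) else 0))
    split_ifs <;> omega

theorem Tb_succ_le (K : ℕ) : ∀ A B, Tb (K + 1) A B ≤ 3 * Tb K A B := by
  induction K with
  | zero =>
    intro A B
    simp only [Tb]
    split_ifs <;> omega
  | succ K ih =>
    intro A B
    have h1 := ih (A * 2) (3 * B)
    have h2 := ih (A * 4) (3 * B)
    show (if 3 * B < A * 2 then Tb (K + 1) (A * 2) (3 * B) else 0) +
      2 * (if 3 * B < A * 4 then Tb (K + 1) (A * 4) (3 * B) else 0) ≤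
      3 * ((if 3 * B < A * 2 then Tb K (A * 2) (3 * B) else 0) +
      2 * (if 3 * B < A * 4 then Tb K (A * 4) (3 * B) else 0))
    split_ifs <;> omega

/-- A proportion at least `1 - B / A` survives for ever. -/
theorem Tf_lower (r : ℕ) : ∀ A B : ℕ, 1 ≤ A → (2 : ℝ) ^ r * (1 - B / A) ≤ Tf r A B := by
  induction r with
  | zero =>
    intro A B hA
    have hA' : (0 : ℝ) < A := by exact_mod_cast hA
    have : (0 : ℝ) ≤ B / A := by positivity
    simp only [Tf]
    push_cast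
    linarith
  | succ r ih =>
    intro A B hA
    have hA' : (0 : ℝ) < A := by exact_mod_cast hA
    have h1 := ih (3 * A) (B * 2) (by omega)
    have h2 := ih (3 * A) (B * 4) (by omega)
    have key : ∀ C : ℕ, (2 : ℝ) ^ r * (1 - (C : ℝ) / ((3 * A : ℕ) : ℝ)) ≤ Tf r (3 * A) C →
        (2 : ℝ) ^ r * (1 - (C : ℝ) / ((3 * A : ℕ) : ℝ)) ≤
          ((if C < 3 * A then Tf r (3 * A) C else 0 : ℕ) : ℝ) := by
      intro C hC
      split_ifs with hlt
      · exact hC
      · push_cast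
        push Not at hlt
        have h3 : (1 : ℝ) ≤ (C : ℝ) / ((3 * A : ℕ) : ℝ) := by
          rw [le_div_iff₀ (by push_cast; positivity), one_mul]
          exact_mod_cast hlt
        push_cast at h3
        have h4 : (0 : ℝ) < 2 ^ r := by positivity
        nlinarith
    have k1 := key _ h1
    have k2 := key _ h2
    show _ ≤ (((if B * 2 < 3 * A then Tf r (3 * A) (B * 2) else 0) +
      (if B * 4 < 3 * A then Tf r (3 * A) (B * 4) else 0) : ℕ) : ℝ)
    rw [Nat.cast_add]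
    refine le_trans (le_of_eq ?_) (add_le_add k1 k2)
    push_cast
    field_simp
    ring

theorem Tb_lower (r : ℕ) : ∀ A B : ℕ, 1 ≤ A → (3 : ℝ) ^ r * (1 - B / A) ≤ Tb r A B := by
  induction r with
  | zero =>
    intro A B hA
    have hA' : (0 : ℝ) < A := by exact_mod_cast hA
    have : (0 : ℝ) ≤ B / A := by positivity
    simp only [Tb]
    push_cast
    linarith
  | succ r ih =>
    intro A B hA
    have hA' : (0 : ℝ) < A := by exact_mod_cast hA
    have h1 := ih (A * 2) (3 * B) (by omega)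
    have h2 := ih (A * 4) (3 * B) (by omega)
    have key : ∀ C : ℕ, 1 ≤ C → (3 : ℝ) ^ r * (1 - ((3 * B : ℕ) : ℝ) / (C : ℝ)) ≤ Tb r C (3 * B) →
        (3 : ℝ) ^ r * (1 - ((3 * B : ℕ) : ℝ) / (C : ℝ)) ≤
          ((if 3 * B < C then Tb r C (3 * B) else 0 : ℕ) : ℝ) := by
      intro C hC1 hC
      split_ifs with hlt
      · exact hC
      · push_cast
        push Not at hlt
        have hC' : (0 : ℝ) < C := by exact_mod_cast hC1
        have h3 : (1 : ℝ) ≤ ((3 * B : ℕ) : ℝ) / (C : ℝ) := by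
          rw [le_div_iff₀ hC', one_mul]
          exact_mod_cast hlt
        push_cast at h3
        have h4 : (0 : ℝ) < 3 ^ r := by positivity
        nlinarith
    have k1 := key _ (by omega) h1
    have k2 := key _ (by omega) h2
    show _ ≤ (((if 3 * B < A * 2 then Tb r (A * 2) (3 * B) else 0) +
      2 * (if 3 * B < A * 4 then Tb r (A * 4) (3 * B) else 0) : ℕ) : ℝ)
    rw [Nat.cast_add, Nat.cast_mul]
    refine le_trans (le_of_eq ?_) (add_le_add k1 (mul_le_mul_of_nonneg_left k2 (by positivity)))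
    push_cast
    field_simp
    ring

end Pool.Agent.Helper994_CO
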