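import Pool.Agent.Helper994_CO.Trunc1
import Pool.Agent.Helper994_CO.Kernel

set_option autoImplicit false

/-!
# Evaluating the two counting recursions in the kernel
-/

namespace Pool.Agent.Helper994_CO

open Finset

/-- The common shape of the two counting recursions. -/
def D (t s w0 w1 : ℕ) (init : ℕ → ℕ → ℕ) : ℕ → ℕ → ℕ → ℕ
  | 0, P, Q => init P Q
  | r + 1, P, Q => w0 * (if Q * s < P * t then D t s w0 w1 init r (P * t) (Q * s) else 0) +
      w1 * (if Q * s * 2 < P * t then D t s w0 w1 init r (P * t) (Q * s * 2) else 0)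

theorem Tf_eq_D (r : ℕ) : ∀ A B, Tf r A B = D 3 2 1 1 (fun _ _ => 1) r A B := by
  induction r with
  | zero => intro A B; rfl
  | succ r ih =>
    intro A B
    show (if B * 2 < 3 * A then Tf r (3 * A) (B * 2) else 0) +
      (if B * 4 < 3 * A then Tf r (3 * A) (B * 4) else 0) =
      1 * (if B * 2 < A * 3 then D 3 2 1 1 (fun _ _ => 1) r (A * 3) (B * 2) else 0) +
      1 * (if B * 2 * 2 < A * 3 then D 3 2 1 1 (fun _ _ => 1) r (A * 3) (B * 2 * 2) else 0)
    rw [← ih, ← ih, mul_comm 3 A, show B * 2 * 2 = B * 4 by ring, one_mul, one_mul]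

theorem Tb_scale (r : ℕ) : ∀ c A B : ℕ, 1 ≤ c → Tb r (c * A) (c * B) = Tb r A B := by
  induction r with
  | zero => intro c A B _; rfl
  | succ r ih =>
    intro c A B hc
    have e1 : c * A * 2 = c * (A * 2) := by ring
    have e2 : c * A * 4 = c * (A * 4) := by ring
    have e3 : 3 * (c * B) = c * (3 * B) := by ring
    have i1 : (c * (3 * B) < c * (A * 2)) ↔ (3 * B < A * 2) := Nat.mul_lt_mul_left hc
    have i2 : (c * (3 * B) < c * (A * 4)) ↔ (3 * B < A * 4) := Nat.mul_lt_mul_left hc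
    show (if 3 * (c * B) < c * A * 2 then Tb r (c * A * 2) (3 * (c * B)) else 0) +
      2 * (if 3 * (c * B) < c * A * 4 then Tb r (c * A * 4) (3 * (c * B)) else 0) = _
    simp only [e1, e2, e3, i1, i2, ih c _ _ hc]
    rfl

theorem Tb_eq_D (r : ℕ) : ∀ A B, Tb r A B = D 4 3 2 1 (fun _ _ => 1) r A B := by
  induction r with
  | zero => intro A B; rfl
  | succ r ih =>
    intro A B
    show (if 3 * B < A * 2 then Tb r (A * 2) (3 * B) else 0) +
      2 * (if 3 * B < A * 4 then Tb r (A * 4) (3 * B) else 0) =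
      2 * (if B * 3 < A * 4 then D 4 3 2 1 (fun _ _ => 1) r (A * 4) (B * 3) else 0) +
      1 * (if B * 3 * 2 < A * 4 then D 4 3 2 1 (fun _ _ => 1) r (A * 4) (B * 3 * 2) else 0)
    rw [← ih, ← ih]
    have e1 : Tb r (A * 4) (B * 3 * 2) = Tb r (A * 2) (3 * B) := by
      rw [← Tb_scale r 2 (A * 2) (3 * B) (by norm_num)]
      congr 1 <;> ring
    have i1 : (B * 3 * 2 < A * 4) ↔ (3 * B < A * 2) := by omega
    have e2 : B * 3 = 3 * B := by ring
    rw [e1]
    simp only [i1]
    rw [e2]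
    ring

theorem D_le {t s w0 w1 : ℕ} {init : ℕ → ℕ → ℕ} {c : ℕ} (ht : 1 ≤ t)
    (hinit : ∀ P Q, 1 ≤ P → init P Q ≤ c * P)
    (r : ℕ) : ∀ P Q, 1 ≤ P → D t s w0 w1 init r P Q ≤ (w0 + w1) ^ r * (c * (t ^ r * P)) := by
  induction r with
  | zero => intro P Q hP; simpa [D] using hinit P Q hP
  | succ r ih =>
    intro P Q hP
    have hPt : 1 ≤ P * t := Nat.mul_pos hP ht
    have h1 := ih (P * t) (Q * s) hPt
    have h2 := ih (P * t) (Q * s * 2) hPt
    have e : (w0 + w1) ^ (r + 1) * (c * (t ^ (r + 1) * P)) =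
      w0 * ((w0 + w1) ^ r * (c * (t ^ r * (P * t)))) + w1 * ((w0 + w1) ^ r * (c * (t ^ r * (P * t)))) := by
      ring
    rw [e]
    apply Nat.add_le_add
    · apply Nat.mul_le_mul_left
      split_ifs
      · exact h1
      · exact Nat.zero_le _
    · apply Nat.mul_le_mul_left
      split_ifs
      · exact h2
      · exact Nat.zero_le _

/-- From the survivors after `K` steps to the survivors after `K + r` steps. -/
theorem D_lower {t s w0 w1 r : ℕ} (ht : 1 ≤ t)
    (hbase : ∀ P Q, 1 ≤ P → (w0 + w1) ^ r * (P - Q) ≤ D t s w0 w1 (fun _ _ => 1) r P Q * P) (K : ℕ) :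
    ∀ P Q, 1 ≤ P → (w0 + w1) ^ r * D t s w0 w1 (fun P Q => P - Q) K P Q ≤
      D t s w0 w1 (fun _ _ => 1) (K + r) P Q * (t ^ K * P) := by
  induction K with
  | zero => intro P Q hP; simpa [D] using hbase P Q hP
  | succ K ih =>
    intro P Q hP
    have hPt : 1 ≤ P * t := Nat.mul_pos hP ht
    have h1 := ih (P * t) (Q * s) hPt
    have h2 := ih (P * t) (Q * s * 2) hPt
    rw [show K + 1 + r = (K + r) + 1 by ring]
    show (w0 + w1) ^ r * (w0 * (if Q * s < P * t then D t s w0 w1 (fun P Q => P - Q) K (P * t) (Q * s) else 0) +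
      w1 * (if Q * s * 2 < P * t then D t s w0 w1 (fun P Q => P - Q) K (P * t) (Q * s * 2) else 0)) ≤
      (w0 * (if Q * s < P * t then D t s w0 w1 (fun _ _ => 1) (K + r) (P * t) (Q * s) else 0) +
      w1 * (if Q * s * 2 < P * t then D t s w0 w1 (fun _ _ => 1) (K + r) (P * t) (Q * s * 2) else 0)) *
      (t ^ (K + 1) * P)
    have e : t ^ (K + 1) * P = t ^ K * (P * t) := by ring
    rw [e, mul_add, add_mul]
    apply Nat.add_le_add
    · split_ifs
      · calc _ = w0 * ((w0 + w1) ^ r * D t s w0 w1 (fun P Q => P - Q) K (P * t) (Q * s)) := by ring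
          _ ≤ w0 * (D t s w0 w1 (fun _ _ => 1) (K + r) (P * t) (Q * s) * (t ^ K * (P * t))) :=
            Nat.mul_le_mul_left _ h1
          _ = _ := by ring
      · simp
    · split_ifs
      · calc _ = w1 * ((w0 + w1) ^ r * D t s w0 w1 (fun P Q => P - Q) K (P * t) (Q * s * 2)) := by ring
          _ ≤ w1 * (D t s w0 w1 (fun _ _ => 1) (K + r) (P * t) (Q * s * 2) * (t ^ K * (P * t))) :=
            Nat.mul_le_mul_left _ h2
          _ = _ := by ring
      · simp

theorem base_f (r : ℕ) : ∀ P Q, 1 ≤ P →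
    (1 + 1) ^ r * (P - Q) ≤ D 3 2 1 1 (fun _ _ => 1) r P Q * P := by
  intro P Q hP
  rw [← Tf_eq_D]
  rcases Nat.lt_or_ge P Q with h | h
  · rw [Nat.sub_eq_zero_of_le h.le]; simp
  · have h1 := Tf_lower r P Q hP
    have hP' : (0 : ℝ) < P := by exact_mod_cast hP
    have h2 : (2 : ℝ) ^ r * (P - Q) ≤ Tf r P Q * P := by
      have := mul_le_mul_of_nonneg_right h1 hP'.le
      have e : (2 : ℝ) ^ r * (1 - Q / P) * P = 2 ^ r * (P - Q) := by field_simp
      rw [e] at this
      exact this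
    have h3 : (((1 + 1) ^ r * (P - Q) : ℕ) : ℝ) ≤ ((Tf r P Q * P : ℕ) : ℝ) := by
      push_cast [Nat.cast_sub h]
      exact h2
    exact_mod_cast h3

theorem base_b (r : ℕ) : ∀ P Q, 1 ≤ P →
    (2 + 1) ^ r * (P - Q) ≤ D 4 3 2 1 (fun _ _ => 1) r P Q * P := by
  intro P Q hP
  rw [← Tb_eq_D]
  rcases Nat.lt_or_ge P Q with h | h
  · rw [Nat.sub_eq_zero_of_le h.le]; simp
  · have h1 := Tb_lower r P Q hP
    have hP' : (0 : ℝ) < P := by exact_mod_cast hP
    have h2 : (3 : ℝ) ^ r * (P - Q) ≤ Tb r P Q * P := by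
      have := mul_le_mul_of_nonneg_right h1 hP'.le
      have e : (3 : ℝ) ^ r * (1 - Q / P) * P = 3 ^ r * (P - Q) := by field_simp
      rw [e] at this
      exact this
    have h3 : (((2 + 1) ^ r * (P - Q) : ℕ) : ℝ) ≤ ((Tb r P Q * P : ℕ) : ℝ) := by
      push_cast [Nat.cast_sub h]
      exact h2
    exact_mod_cast h3

/-- One layer after another, from layer `k` down to layer `0`, the entries being the digits in
base `X`. -/
def run (t s w0 w1 X : ℕ) (k : ℕ) : ℕ → ℕ :=
  Nat.rec (fun l => l)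
    (fun k ih l =>
      strict (Nat.mod l (Nat.pow X (Nat.succ (Nat.log2 (Nat.div (Nat.pred (Nat.pow t (Nat.succ k)))
        (Nat.pow s (Nat.succ k))))))) (fun M =>
          strict (Nat.add (Nat.mul w0 M) (Nat.mul w1 (Nat.div M X))) (fun l' => ih l'))) k

/-- The first layer. -/
def initSum (a : ℕ → ℕ) (X : ℕ) : ℕ → ℕ
  | 0 => 0
  | m + 1 => initSum a X m + a m * X ^ m

theorem initSum_eq (a : ℕ → ℕ) (X m : ℕ) : initSum a X m = ∑ o ∈ range m, a o * X ^ o := by
  induction m with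
  | zero => rfl
  | succ m ih => rw [initSum, ih, sum_range_succ]

theorem sum_lt_pow {a : ℕ → ℕ} {X : ℕ} (ha : ∀ o, a o < X) (c : ℕ) :
    ∑ o ∈ range c, a o * X ^ o < X ^ c := by
  induction c with
  | zero => simp
  | succ c ih =>
    rw [sum_range_succ]
    have h1 : a c * X ^ c + X ^ c ≤ X ^ (c + 1) := by
      have : (a c + 1) * X ^ c ≤ X * X ^ c := Nat.mul_le_mul_right _ (ha c)
      rw [pow_succ', ← one_mul (X ^ c)]
      nlinarith
    omega

theorem sum_mod {a : ℕ → ℕ} {X : ℕ} (ha : ∀ o, a o < X) {c m : ℕ} (hcm : c ≤ m) :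
    (∑ o ∈ range m, a o * X ^ o) % X ^ c = ∑ o ∈ range c, a o * X ^ o := by
  obtain ⟨d, rfl⟩ := Nat.exists_eq_add_of_le hcm
  rw [sum_range_add]
  have e : ∑ x ∈ range d, a (c + x) * X ^ (c + x) = X ^ c * ∑ x ∈ range d, a (c + x) * X ^ x := by
    rw [mul_sum]
    apply sum_congr rfl
    intro x _
    rw [pow_add]; ring
  rw [e, Nat.add_mul_mod_self_left, Nat.mod_eq_of_lt (sum_lt_pow ha c)]

theorem sum_div {a : ℕ → ℕ} {X : ℕ} (ha : ∀ o, a o < X) (c : ℕ) :
    (∑ o ∈ range (c + 1), a o * X ^ o) / X = ∑ o ∈ range c, a (o + 1) * X ^ o := by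
  have hX : 0 < X := lt_of_le_of_lt (Nat.zero_le _) (ha 0)
  rw [sum_range_succ']
  have e : ∑ k ∈ range c, a (k + 1) * X ^ (k + 1) = X * ∑ k ∈ range c, a (k + 1) * X ^ k := by
    rw [mul_sum]
    apply sum_congr rfl
    intro x _
    rw [pow_succ]; ring
  rw [e, pow_zero, mul_one, Nat.mul_add_div hX, Nat.div_eq_of_lt (ha 0), add_zero]

/-- The cut: how many entries of a layer survive. -/
theorem cut_iff {t s k : ℕ} (hs : 1 ≤ s) (hst : s < t) (o : ℕ) :
    s ^ (k + 1) * 2 ^ o < t ^ (k + 1) ↔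
      o < Nat.succ (Nat.log2 (Nat.div (Nat.pred (Nat.pow t (Nat.succ k))) (Nat.pow s (Nat.succ k)))) := by
  show s ^ (k + 1) * 2 ^ o < t ^ (k + 1) ↔ o < Nat.log2 ((t ^ (k + 1) - 1) / s ^ (k + 1)) + 1
  have hspos : 0 < s ^ (k + 1) := by positivity
  have hlt : s ^ (k + 1) < t ^ (k + 1) := Nat.pow_lt_pow_left hst (by omega)
  have hR : (t ^ (k + 1) - 1) / s ^ (k + 1) ≠ 0 := by
    have : 1 ≤ (t ^ (k + 1) - 1) / s ^ (k + 1) := by
      rw [Nat.le_div_iff_mul_le hspos]; omega
    omega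
  rw [Nat.lt_succ_iff, Nat.le_log2 hR, Nat.le_div_iff_mul_le hspos, mul_comm (2 ^ o)]
  omega

theorem run_sound {t s w0 w1 X : ℕ} {init : ℕ → ℕ → ℕ} (hs : 1 ≤ s) (hst : s < t) (k : ℕ) :
    ∀ (r l m : ℕ), (∀ j, j ≤ k → ∀ o, D t s w0 w1 init (r + k - j) (t ^ j) (s ^ j * 2 ^ o) < X) →
      (∀ o, s ^ k * 2 ^ o < t ^ k → o < m) →
      l = ∑ o ∈ range m, D t s w0 w1 init r (t ^ k) (s ^ k * 2 ^ o) * X ^ o → 1 ≤ k →
      run t s w0 w1 X k l % X = D t s w0 w1 init (r + k) 1 1 := by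
  induction k with
  | zero => intro r l m _ _ _ h; omega
  | succ k ih =>
    intro r l m hX hm hl _
    set a : ℕ → ℕ := fun o => D t s w0 w1 init r (t ^ (k + 1)) (s ^ (k + 1) * 2 ^ o) with ha
    have haX : ∀ o, a o < X := by
      intro o
      have := hX (k + 1) le_rfl o
      rw [show r + (k + 1) - (k + 1) = r by omega] at this
      exact this
    set c := Nat.succ (Nat.log2 (Nat.div (Nat.pred (Nat.pow t (Nat.succ k))) (Nat.pow s (Nat.succ k)))) with hc
    have hcut := cut_iff (k := k) hs hst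
    have hcm : c ≤ m := by
      have h1 : s ^ (k + 1) * 2 ^ (c - 1) < t ^ (k + 1) := (hcut (c - 1)).2 (by omega)
      have := hm (c - 1) h1
      omega
    -- the new value
    have hrun : run t s w0 w1 X (k + 1) l =
        run t s w0 w1 X k (w0 * (l % X ^ c) + w1 * (l % X ^ c / X)) := by
      show strict (Nat.mod l (Nat.pow X (Nat.succ (Nat.log2 (Nat.div (Nat.pred (Nat.pow t (Nat.succ k)))
        (Nat.pow s (Nat.succ k))))))) (fun M =>
          strict (Nat.add (Nat.mul w0 M) (Nat.mul w1 (Nat.div M X))) (fun l' => run t s w0 w1 X k l')) = _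
      rw [strict_eq, strict_eq]
      rfl
    have hM : l % X ^ c = ∑ o ∈ range c, a o * X ^ o := by
      rw [hl]; exact sum_mod haX hcm
    obtain ⟨c', hc'⟩ : ∃ c', c = c' + 1 := ⟨c - 1, by omega⟩
    have hdiv : l % X ^ c / X = ∑ o ∈ range c', a (o + 1) * X ^ o := by
      rw [hM, hc']; exact sum_div haX c'
    have hnew : w0 * (l % X ^ c) + w1 * (l % X ^ c / X) =
        ∑ o ∈ range c, D t s w0 w1 init (r + 1) (t ^ k) (s ^ k * 2 ^ o) * X ^ o := by
      have e1 : ∀ o, D t s w0 w1 init (r + 1) (t ^ k) (s ^ k * 2 ^ o) =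
          w0 * (if o < c then a o else 0) + w1 * (if o + 1 < c then a (o + 1) else 0) := by
        intro o
        show w0 * (if s ^ k * 2 ^ o * s < t ^ k * t then D t s w0 w1 init r (t ^ k * t) (s ^ k * 2 ^ o * s) else 0) +
          w1 * (if s ^ k * 2 ^ o * s * 2 < t ^ k * t then
            D t s w0 w1 init r (t ^ k * t) (s ^ k * 2 ^ o * s * 2) else 0) = _
        have f1 : s ^ k * 2 ^ o * s = s ^ (k + 1) * 2 ^ o := by ring
        have f2 : s ^ k * 2 ^ o * s * 2 = s ^ (k + 1) * 2 ^ (o + 1) := by ring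
        have f3 : t ^ k * t = t ^ (k + 1) := by ring
        rw [f2, f1, f3]
        simp only [hcut, ha]
        rfl
      rw [hdiv, hM, mul_sum, mul_sum]
      have e2 : ∑ o ∈ range c', w1 * (a (o + 1) * X ^ o) =
          ∑ o ∈ range c, w1 * ((if o + 1 < c then a (o + 1) else 0) * X ^ o) := by
        rw [hc', sum_range_succ]
        simp only [lt_irrefl, if_false, zero_mul, mul_zero, add_zero]
        apply sum_congr rfl
        intro o ho
        rw [mem_range] at ho
        rw [if_pos (by omega)]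
      rw [e2, ← sum_add_distrib]
      apply sum_congr rfl
      intro o ho
      rw [mem_range] at ho
      rw [e1 o, if_pos ho]
      ring
    rw [hrun, hnew]
    rcases Nat.eq_zero_or_pos k with hk | hk
    · subst hk
      show (∑ o ∈ range c, D t s w0 w1 init (r + 1) (t ^ 0) (s ^ 0 * 2 ^ o) * X ^ o) % X = _
      have h0X : ∀ o, D t s w0 w1 init (r + 1) (t ^ 0) (s ^ 0 * 2 ^ o) < X := by
        intro o
        have := hX 0 (by omega) o
        simpa using this
      have := sum_mod (a := fun o => D t s w0 w1 init (r + 1) (t ^ 0) (s ^ 0 * 2 ^ o)) h0X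
        (show 1 ≤ c by omega)
      rw [pow_one, sum_range_one] at this
      rw [this]
      simp
    · have := ih (r + 1) _ c ?_ ?_ rfl hk
      · rw [this]; congr 1; omega
      · intro j hj o
        have := hX j (by omega) o
        rw [show r + 1 + k - j = r + (k + 1) - j by omega]
        exact this
      · intro o ho
        rw [← hcut]
        calc s ^ (k + 1) * 2 ^ o = s ^ k * 2 ^ o * s := by ring
          _ < t ^ k * s := Nat.mul_lt_mul_of_pos_right ho (by omega)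
          _ ≤ t ^ k * t := Nat.mul_le_mul_left _ hst.le
          _ = t ^ (k + 1) := by ring

/-- Evaluation by `run`. -/
theorem eval_run {t s w0 w1 X K m : ℕ} {init : ℕ → ℕ → ℕ} (hs : 1 ≤ s) (hst : s < t) (hK : 1 ≤ K)
    (hw : 1 ≤ w0 + w1) (hinit : ∀ P Q, 1 ≤ P → init P Q ≤ P)
    (hX : (w0 + w1) ^ K * t ^ K < X) (hm : t ^ K ≤ s ^ K * 2 ^ m) :
    run t s w0 w1 X K (initSum (fun o => init (t ^ K) (s ^ K * 2 ^ o)) X m) % X =
      D t s w0 w1 init K 1 1 := by
  have ht : 1 ≤ t := by omega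
  have := run_sound (w0 := w0) (w1 := w1) (X := X) (init := init) hs hst K 0
    (initSum (fun o => init (t ^ K) (s ^ K * 2 ^ o)) X m) m ?_ ?_ ?_ hK
  · rw [this, Nat.zero_add]
  · intro j hj o
    have h1 := D_le (s := s) (w0 := w0) (w1 := w1) (init := init) (c := 1) ht
      (fun P Q hP => by rw [one_mul]; exact hinit P Q hP) (0 + K - j) (t ^ j) (s ^ j * 2 ^ o)
      (Nat.one_le_pow _ _ ht)
    refine lt_of_le_of_lt h1 (lt_of_le_of_lt ?_ hX)
    rw [Nat.zero_add, ← pow_add, Nat.sub_add_cancel hj, one_mul]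
    exact Nat.mul_le_mul_right _ (Nat.pow_le_pow_right hw (by omega))
  · intro o ho
    by_contra hcon
    push Not at hcon
    have : s ^ K * 2 ^ m ≤ s ^ K * 2 ^ o :=
      Nat.mul_le_mul_left _ (Nat.pow_le_pow_right (by norm_num) hcon)
    omega
  · rw [initSum_eq]
    rfl

end Pool.Agent.Helper994_CO
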