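import Pool.Agent.Helper994_CO.Trunc2

set_option autoImplicit false

/-!
# The density of the integers without a dip in the first `K` steps, and the constant `κ`
-/

namespace Pool.Agent.Helper994_CO

open Finset Filter Topology

theorem sum_blocks (F : ℕ → ℝ) (P Q : ℕ) :
    ∑ n ∈ range (P * Q), F n = ∑ i ∈ range P, ∑ j ∈ range Q, F (P * j + i) := by
  rw [sum_comm]
  induction Q with
  | zero => simp
  | succ Q ih => rw [Nat.mul_succ, sum_range_add, ih, sum_range_succ]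

theorem sum_crt (φ ψ : ℕ → ℝ) (P Q : ℕ) (hQ : 0 < Q) (hcop : Nat.Coprime Q P)
    (hφ : ∀ m t, φ (m + P * t) = φ m) (hψ : ∀ m t, ψ (m + Q * t) = ψ m) :
    ∑ n ∈ range (P * Q), φ n * ψ n = (∑ n ∈ range P, φ n) * ∑ n ∈ range Q, ψ n := by
  rw [sum_blocks, sum_mul]
  apply sum_congr rfl
  intro i _
  have h1 : ∀ j, φ (P * j + i) = φ i := by intro j; rw [add_comm, hφ]
  simp only [h1]
  rw [← mul_sum, sum_affine ψ Q hQ hψ P i hcop]

/-- Sums of a periodic function over `[1, N]`. -/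
theorem sum_periodic (F : ℕ → ℝ) (P : ℕ) (hP : 0 < P) (hF : ∀ m t, F (m + P * t) = F m)
    (h0 : ∀ n, 0 ≤ F n) (h1 : ∀ n, F n ≤ 1) (N : ℕ) :
    N * ((∑ n ∈ range P, F n) / P) - P ≤ ∑ n ∈ Icc 1 N, F n ∧
      ∑ n ∈ Icc 1 N, F n ≤ N * ((∑ n ∈ range P, F n) / P) + P := by
  set S := ∑ n ∈ range P, F n with hS
  set G : ℕ → ℝ := fun n => F (n + 1) with hG
  have hGper : ∀ m t, G (m + P * t) = G m := by
    intro m t
    show F (m + P * t + 1) = F (m + 1)
    rw [show m + P * t + 1 = (m + 1) + P * t by ring, hF]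
  have hGS : ∑ n ∈ range P, G n = S := by
    have := sum_affine F P hP hF 1 1 (Nat.coprime_one_right P)
    simp only [one_mul] at this
    exact this
  have hIcc : ∑ n ∈ Icc 1 N, F n = ∑ n ∈ range N, G n := by
    rw [show Icc 1 N = Ico 1 (N + 1) by ext x; simp, sum_Ico_eq_sum_range]
    apply sum_congr rfl
    intro x _
    rw [hG, add_comm 1 x]
  have hS0 : 0 ≤ S := sum_nonneg fun n _ => h0 n
  have hSP : S ≤ P := by
    calc S ≤ ∑ n ∈ range P, (1 : ℝ) := sum_le_sum fun n _ => h1 n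
      _ = P := by simp
  have hPR : (0 : ℝ) < P := by exact_mod_cast hP
  have hG0 : ∀ n, 0 ≤ G n := fun n => h0 _
  have hdm := Nat.div_add_mod N P
  have hmod := Nat.mod_lt N hP
  rw [hIcc]
  constructor
  · have e1 : ∑ n ∈ range (P * (N / P)), G n ≤ ∑ n ∈ range N, G n := by
      apply sum_le_sum_of_subset_of_nonneg
      · intro x hx
        rw [mem_range] at hx ⊢
        omega
      · intro x _ _
        exact hG0 x
    rw [sum_mul_range G P hGper, hGS] at e1
    have e2 : (N : ℝ) / P - 1 ≤ ((N / P : ℕ) : ℝ) := by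
      rw [sub_le_iff_le_add, div_le_iff₀ hPR]
      have : N ≤ (N / P + 1) * P := by
        have : (N / P + 1) * P = P * (N / P) + P := by ring
        omega
      exact_mod_cast this
    calc N * (S / P) - P ≤ N * (S / P) - S := by linarith
      _ = (N / P - 1) * S := by field_simp
      _ ≤ ((N / P : ℕ) : ℝ) * S := mul_le_mul_of_nonneg_right e2 hS0
      _ ≤ _ := e1
  · have e1 : ∑ n ∈ range N, G n ≤ ∑ n ∈ range (P * (N / P + 1)), G n := by
      apply sum_le_sum_of_subset_of_nonneg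
      · intro x hx
        rw [mem_range] at hx ⊢
        have : P * (N / P + 1) = P * (N / P) + P := by ring
        omega
      · intro x _ _
        exact hG0 x
    rw [sum_mul_range G P hGper, hGS] at e1
    have e2 : ((N / P : ℕ) : ℝ) ≤ (N : ℝ) / P := Nat.cast_div_le
    calc ∑ n ∈ range N, G n ≤ ((N / P + 1 : ℕ) : ℝ) * S := e1
      _ ≤ (N / P + 1) * S := by
        apply mul_le_mul_of_nonneg_right _ hS0
        push_cast
        linarith
      _ = N * (S / P) + S := by field_simp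
      _ ≤ _ := by linarith

/-- The proportion of survivors, forward. -/
noncomputable def pf (K : ℕ) : ℝ := Tf K 1 1 / 2 ^ K

/-- The proportion of survivors, backward. -/
noncomputable def pb (K : ℕ) : ℝ := Tb K 1 1 / 3 ^ K

/-- Indicator of `n` having no dip in the first `K` steps, forward and backward. -/
noncomputable def surv (K n : ℕ) : ℝ :=
  (if Vf K 1 1 n then (1 : ℝ) else 0) * (if Vb K 1 1 n then (1 : ℝ) else 0)

theorem surv_eq (K n : ℕ) : surv K n = if Vf K 1 1 n ∧ Vb K 1 1 n then (1 : ℝ) else 0 := by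
  unfold surv
  by_cases h1 : Vf K 1 1 n <;> by_cases h2 : Vb K 1 1 n <;> simp [h1, h2]

theorem surv_nonneg (K n : ℕ) : 0 ≤ surv K n := by
  rw [surv_eq]; split_ifs <;> norm_num

theorem surv_le_one (K n : ℕ) : surv K n ≤ 1 := by
  rw [surv_eq]; split_ifs <;> norm_num

theorem sum_surv (K N : ℕ) :
    N * (pf K * pb K) - 12 ^ K ≤ ∑ n ∈ Icc 1 N, surv K n ∧
      ∑ n ∈ Icc 1 N, surv K n ≤ N * (pf K * pb K) + 12 ^ K := by
  have hper1 : ∀ m t, (fun n => if Vf K 1 1 n then (1 : ℝ) else 0) (m + 4 ^ K * t) =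
      (fun n => if Vf K 1 1 n then (1 : ℝ) else 0) m := by
    intro m t; simp only [Vf_per]
  have hper2 : ∀ m t, (fun n => if Vb K 1 1 n then (1 : ℝ) else 0) (m + 3 ^ K * t) =
      (fun n => if Vb K 1 1 n then (1 : ℝ) else 0) m := by
    intro m t; simp only [Vb_per]
  have hcop : Nat.Coprime (3 ^ K) (4 ^ K) := Nat.Coprime.pow _ _ (by norm_num)
  have hsum := sum_crt (fun n => if Vf K 1 1 n then (1 : ℝ) else 0)
    (fun n => if Vb K 1 1 n then (1 : ℝ) else 0) (4 ^ K) (3 ^ K) (by positivity) hcop hper1 hper2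
  have hper : ∀ m t, surv K (m + 4 ^ K * 3 ^ K * t) = surv K m := by
    intro m t
    unfold surv
    rw [show m + 4 ^ K * 3 ^ K * t = m + 4 ^ K * (3 ^ K * t) by ring] 
    have e1 := hper1 m (3 ^ K * t)
    have e2 := hper2 m (4 ^ K * t)
    rw [show m + 3 ^ K * (4 ^ K * t) = m + 4 ^ K * (3 ^ K * t) by ring] at e2
    simp only at e1 e2
    rw [e1, e2]
  have hP : 0 < 4 ^ K * 3 ^ K := by positivity
  have h := sum_periodic (surv K) (4 ^ K * 3 ^ K) hP hper (surv_nonneg K) (surv_le_one K) N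
  have e12 : ((4 ^ K * 3 ^ K : ℕ) : ℝ) = 12 ^ K := by
    push_cast
    rw [← mul_pow]; norm_num
  have hval : (∑ n ∈ range (4 ^ K * 3 ^ K), surv K n) / ((4 ^ K * 3 ^ K : ℕ) : ℝ) = pf K * pb K := by
    have e : ∑ n ∈ range (4 ^ K * 3 ^ K), surv K n = (2 ^ K * Tf K 1 1) * Tb K 1 1 := by
      unfold surv
      rw [hsum, sum_Vf, sum_Vb]
    rw [e, e12]
    unfold pf pb
    have e3 : (12 : ℝ) ^ K = 2 ^ K * (2 ^ K * 3 ^ K) := by
      rw [← mul_pow, ← mul_pow]; norm_num
    rw [e3]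
    field_simp
  rw [hval, e12] at h
  exact h

theorem pf_antitone : Antitone pf := by
  apply antitone_nat_of_succ_le
  intro K
  unfold pf
  rw [div_le_div_iff₀ (by positivity) (by positivity), pow_succ]
  have : (Tf (K + 1) 1 1 : ℝ) ≤ 2 * Tf K 1 1 := by exact_mod_cast Tf_succ_le K 1 1
  have h2 : (0 : ℝ) < 2 ^ K := by positivity
  nlinarith

theorem pb_antitone : Antitone pb := by
  apply antitone_nat_of_succ_le
  intro K
  unfold pb
  rw [div_le_div_iff₀ (by positivity) (by positivity), pow_succ]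
  have : (Tb (K + 1) 1 1 : ℝ) ≤ 3 * Tb K 1 1 := by exact_mod_cast Tb_succ_le K 1 1
  have h2 : (0 : ℝ) < 3 ^ K := by positivity
  nlinarith

theorem pf_nonneg (K : ℕ) : 0 ≤ pf K := by unfold pf; positivity

theorem pb_nonneg (K : ℕ) : 0 ≤ pb K := by unfold pb; positivity

/-- The density constant. -/
noncomputable def kap : ℝ := ⨅ K, pf K * pb K

theorem pfb_antitone : Antitone (fun K => pf K * pb K) := by
  intro a b hab
  exact mul_le_mul (pf_antitone hab) (pb_antitone hab) (pb_nonneg b) (pf_nonneg a)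

theorem pfb_bdd : BddBelow (Set.range (fun K => pf K * pb K)) :=
  ⟨0, by rintro _ ⟨K, rfl⟩; exact mul_nonneg (pf_nonneg K) (pb_nonneg K)⟩

theorem tendsto_kap : Tendsto (fun K => pf K * pb K) atTop (𝓝 kap) :=
  tendsto_atTop_ciInf pfb_antitone pfb_bdd

theorem kap_le (K : ℕ) : kap ≤ pf K * pb K := ciInf_le pfb_bdd K

theorem check_up : Nat.blt (100000 * ((run 3 2 1 1 (2 ^ 2304) 640 (initSum (fun _ => 1) (2 ^ 2304) 375) % 2 ^ 2304) *
    (run 4 3 2 1 (2 ^ 2304) 640 (initSum (fun _ => 1) (2 ^ 2304) 266) % 2 ^ 2304)))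
    (4978 * (2 ^ 640 * 3 ^ 640)) = true := by decide +kernel

theorem check_low : Nat.blt (4977 * (6 ^ 320 * 12 ^ 320)) (100000 * (
    (run 3 2 1 1 (2 ^ 1280) 320 (initSum (fun o => 3 ^ 320 - 2 ^ 320 * 2 ^ o) (2 ^ 1280) 188) % 2 ^ 1280) *
    (run 4 3 2 1 (2 ^ 1280) 320 (initSum (fun o => 4 ^ 320 - 3 ^ 320 * 2 ^ o) (2 ^ 1280) 133) % 2 ^ 1280)))
    = true := by decide +kernel

theorem blt_sound {a b : ℕ} (h : Nat.blt a b = true) : a < b := by
  have h' : Nat.ble (Nat.succ a) b = true := h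
  rw [Nat.ble_eq] at h'
  exact h'

theorem kap_lt : kap < 0.04978 := by
  have h := blt_sound check_up
  have e1 := eval_run (t := 3) (s := 2) (w0 := 1) (w1 := 1) (X := 2 ^ 2304) (K := 640) (m := 375)
    (init := fun _ _ => 1) (by norm_num) (by norm_num) (by norm_num) (by norm_num)
    (fun P Q hP => hP) (by decide +kernel) (by decide +kernel)
  have e2 := eval_run (t := 4) (s := 3) (w0 := 2) (w1 := 1) (X := 2 ^ 2304) (K := 640) (m := 266)
    (init := fun _ _ => 1) (by norm_num) (by norm_num) (by norm_num) (by norm_num)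
    (fun P Q hP => hP) (by decide +kernel) (by decide +kernel)
  rw [e1, e2, ← Tf_eq_D, ← Tb_eq_D] at h
  refine lt_of_le_of_lt (kap_le 640) ?_
  unfold pf pb
  have hR : (100000 : ℝ) * (Tf 640 1 1 * Tb 640 1 1) < 4978 * (2 ^ 640 * 3 ^ 640) := by
    have := (Nat.cast_lt (α := ℝ)).2 h
    simp only [Nat.cast_mul, Nat.cast_pow, Nat.cast_ofNat] at this
    exact this
  have hpos : (0 : ℝ) < 2 ^ 640 * 3 ^ 640 := by positivity
  rw [div_mul_div_comm, div_lt_iff₀ hpos]
  generalize (2 : ℝ) ^ 640 * 3 ^ 640 = Y at hR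
  linarith

theorem pf_lower (K r : ℕ) :
    (D 3 2 1 1 (fun P Q => P - Q) K 1 1 : ℝ) / 6 ^ K ≤ pf (K + r) := by
  have h1 := D_lower (t := 3) (s := 2) (w0 := 1) (w1 := 1) (r := r) (by norm_num) (base_f r) K 1 1 le_rfl
  rw [← Tf_eq_D] at h1
  set a := D 3 2 1 1 (fun P Q => P - Q) K 1 1 with ha
  have h1R : (2 : ℝ) ^ r * (a : ℝ) ≤ (Tf (K + r) 1 1 : ℝ) * 3 ^ K := by
    have := (Nat.cast_le (α := ℝ)).2 h1
    simp only [Nat.cast_mul, Nat.cast_pow, Nat.cast_ofNat, mul_one,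
      show (1 + 1 : ℕ) = 2 from rfl] at this
    exact this
  unfold pf
  rw [div_le_div_iff₀ (by positivity) (by positivity)]
  have e6 : (6 : ℝ) ^ K = 2 ^ K * 3 ^ K := by rw [← mul_pow]; norm_num
  have e7 : (2 : ℝ) ^ (K + r) = 2 ^ K * 2 ^ r := pow_add _ _ _
  rw [e6, e7]
  have hp : (0 : ℝ) < 2 ^ K := by positivity
  have h3 := mul_le_mul_of_nonneg_left h1R hp.le
  linarith

theorem pb_lower (K r : ℕ) :
    (D 4 3 2 1 (fun P Q => P - Q) K 1 1 : ℝ) / 12 ^ K ≤ pb (K + r) := by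
  have h1 := D_lower (t := 4) (s := 3) (w0 := 2) (w1 := 1) (r := r) (by norm_num) (base_b r) K 1 1 le_rfl
  rw [← Tb_eq_D] at h1
  set a := D 4 3 2 1 (fun P Q => P - Q) K 1 1 with ha
  have h1R : (3 : ℝ) ^ r * (a : ℝ) ≤ (Tb (K + r) 1 1 : ℝ) * 4 ^ K := by
    have := (Nat.cast_le (α := ℝ)).2 h1
    simp only [Nat.cast_mul, Nat.cast_pow, Nat.cast_ofNat, mul_one,
      show (2 + 1 : ℕ) = 3 from rfl] at this
    exact this
  unfold pb
  rw [div_le_div_iff₀ (by positivity) (by positivity)]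
  have e6 : (12 : ℝ) ^ K = 3 ^ K * 4 ^ K := by rw [← mul_pow]; norm_num
  have e7 : (3 : ℝ) ^ (K + r) = 3 ^ K * 3 ^ r := pow_add _ _ _
  rw [e6, e7]
  have hp : (0 : ℝ) < 3 ^ K := by positivity
  have h3 := mul_le_mul_of_nonneg_left h1R hp.le
  linarith

theorem le_kap (K : ℕ) : (D 3 2 1 1 (fun P Q => P - Q) K 1 1 : ℝ) / 6 ^ K *
    ((D 4 3 2 1 (fun P Q => P - Q) K 1 1 : ℝ) / 12 ^ K) ≤ kap := by
  refine ge_of_tendsto tendsto_kap ?_
  filter_upwards [eventually_ge_atTop K] with J hJ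
  obtain ⟨r, rfl⟩ := Nat.exists_eq_add_of_le hJ
  exact mul_le_mul (pf_lower K r) (pb_lower K r) (by positivity) (pf_nonneg _)

theorem lt_kap : 0.04977 < kap := by
  have h := blt_sound check_low
  have e1 := eval_run (t := 3) (s := 2) (w0 := 1) (w1 := 1) (X := 2 ^ 1280) (K := 320) (m := 188)
    (init := fun P Q => P - Q) (by norm_num) (by norm_num) (by norm_num) (by norm_num)
    (fun P Q _ => Nat.sub_le P Q) (by decide +kernel) (by decide +kernel)
  have e2 := eval_run (t := 4) (s := 3) (w0 := 2) (w1 := 1) (X := 2 ^ 1280) (K := 320) (m := 133)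
    (init := fun P Q => P - Q) (by norm_num) (by norm_num) (by norm_num) (by norm_num)
    (fun P Q _ => Nat.sub_le P Q) (by decide +kernel) (by decide +kernel)
  rw [e1, e2] at h
  have hk := le_kap 320
  refine lt_of_lt_of_le ?_ hk
  have hR : (4977 : ℝ) * (6 ^ 320 * 12 ^ 320) < 100000 * ((D 3 2 1 1 (fun P Q => P - Q) 320 1 1 : ℝ) *
      (D 4 3 2 1 (fun P Q => P - Q) 320 1 1 : ℝ)) := by
    have := (Nat.cast_lt (α := ℝ)).2 h
    simp only [Nat.cast_mul, Nat.cast_pow, Nat.cast_ofNat] at this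
    exact this
  have hpos : (0 : ℝ) < 6 ^ 320 * 12 ^ 320 := by positivity
  rw [div_mul_div_comm, lt_div_iff₀ hpos]
  generalize (6 : ℝ) ^ 320 * 12 ^ 320 = Y at hR
  linarith

end Pool.Agent.Helper994_CO
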