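import Pool.Agent.Helper994_CO.Base

set_option autoImplicit false

/-!
# Truncated orbits of the permutation: definitions
-/

namespace Pool.Agent.Helper994_CO

/-- `a` and `b` are joined by a path of `f` (in one direction or the other) all of whose members are
at most `H`. -/
def JoinedBelow (H : ℝ) (a b : ℕ) : Prop :=
  (∃ k, f^[k] a = b ∧ ∀ i ≤ k, ((f^[i] a : ℕ) : ℝ) ≤ H) ∨
    (∃ k, f^[k] b = a ∧ ∀ i ≤ k, ((f^[i] b : ℕ) : ℝ) ≤ H)

/-- `n` is the least positive integer joined to `n` by a path below the height `n ^ (1 + c)`. -/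
def TruncMin (c : ℝ) (n : ℕ) : Prop :=
  ∀ m, 1 ≤ m → JoinedBelow ((n : ℝ) ^ (1 + c)) n m → n ≤ m

/-- The orbit of `n`. -/
def orb (n : ℕ) : Set ℕ := {m | ∃ k, f^[k] n = m ∨ f^[k] m = n}

end Pool.Agent.Helper994_CO
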