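import Pool.Agent.Helper994_CO.Trunc1
import Pool.Agent.Helper994_CO.TruncDef

set_option autoImplicit false

/-!
# Heights along paths compared with powers of two and three
-/

namespace Pool.Agent.Helper994_CO

theorem fa_succ' (k n : ℕ) : fa (k + 1) n = fa k n + ex (f^[k] n) := by
  induction k generalizing n with
  | zero => simp [fa]
  | succ k ih =>
    show ex n + fa (k + 1) (f n) = ex n + fa k (f n) + ex (f^[k + 1] n)
    rw [ih (f n), Function.iterate_succ_apply]
    ring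

theorem ba_succ' (k n : ℕ) : ba (k + 1) n = ba k n + eb (g^[k] n) := by
  induction k generalizing n with
  | zero => simp [ba]
  | succ k ih =>
    show eb n + ba (k + 1) (g n) = eb n + ba k (g n) + eb (g^[k + 1] n)
    rw [ih (g n), Function.iterate_succ_apply]
    ring

theorem ex_le (n : ℕ) : ex n ≤ 2 := by unfold ex; split_ifs <;> omega

theorem eb_le (n : ℕ) : eb n ≤ 2 := by unfold eb; split_ifs <;> omega

theorem fa_le (k n : ℕ) : fa k n ≤ 2 * k := by
  induction k with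
  | zero => simp [fa]
  | succ k ih => rw [fa_succ']; have := ex_le (f^[k] n); omega

theorem ba_le (k n : ℕ) : ba k n ≤ 2 * k := by
  induction k with
  | zero => simp [ba]
  | succ k ih => rw [ba_succ']; have := eb_le (g^[k] n); omega

theorem f_step_le (x : ℕ) : f x * 2 ^ ex x ≤ 3 * x + 1 := by
  unfold f ex; split_ifs <;> omega

theorem f_step_ge (x : ℕ) : 3 * x ≤ f x * 2 ^ ex x + 1 := by
  unfold f ex; split_ifs <;> omega

theorem g_step_le (x : ℕ) : 3 * g x ≤ 2 ^ eb x * x + 1 := by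
  unfold g eb; split_ifs <;> omega

theorem g_step_ge (x : ℕ) : 2 ^ eb x * x ≤ 3 * g x + 1 := by
  unfold g eb; split_ifs <;> omega

/-- upper bound for the forward path -/
theorem fwd_upper (k n : ℕ) : f^[k] n * 2 ^ fa k n + 3 ^ k ≤ 3 ^ k * n + 4 ^ k := by
  induction k with
  | zero => simp [fa]
  | succ k ih =>
    rw [Function.iterate_succ_apply', fa_succ', pow_add]
    have h1 := f_step_le (f^[k] n)
    have h2 : 2 ^ fa k n ≤ 4 ^ k := by
      calc 2 ^ fa k n ≤ 2 ^ (2 * k) := Nat.pow_le_pow_right (by norm_num) (fa_le k n)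
        _ = 4 ^ k := by rw [pow_mul]; norm_num
    calc f (f^[k] n) * (2 ^ fa k n * 2 ^ ex (f^[k] n)) + 3 ^ (k + 1)
        = 2 ^ fa k n * (f (f^[k] n) * 2 ^ ex (f^[k] n)) + 3 ^ (k + 1) := by ring
      _ ≤ 2 ^ fa k n * (3 * f^[k] n + 1) + 3 ^ (k + 1) := by
        apply Nat.add_le_add_right; exact Nat.mul_le_mul_left _ h1
      _ = 3 * (f^[k] n * 2 ^ fa k n + 3 ^ k) + 2 ^ fa k n := by ring
      _ ≤ 3 * (3 ^ k * n + 4 ^ k) + 4 ^ k := by omega
      _ = _ := by ring

/-- upper bound for the backward path -/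
theorem bwd_upper (k n : ℕ) : 3 ^ k * g^[k] n + 3 ^ k ≤ 2 ^ ba k n * n + 4 ^ k := by
  induction k with
  | zero => simp [ba]
  | succ k ih =>
    rw [Function.iterate_succ_apply', ba_succ', pow_add]
    have h1 := g_step_le (g^[k] n)
    have h2 : 2 ^ eb (g^[k] n) ≤ 4 := by
      calc 2 ^ eb (g^[k] n) ≤ 2 ^ 2 := Nat.pow_le_pow_right (by norm_num) (eb_le _)
        _ = 4 := by norm_num
    have h3 : 1 ≤ 2 ^ eb (g^[k] n) := Nat.one_le_two_pow
    have h4 : 3 ^ k ≤ 4 ^ k := Nat.pow_le_pow_left (by norm_num) k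
    set e := 2 ^ eb (g^[k] n) with he
    calc 3 ^ (k + 1) * g (g^[k] n) + 3 ^ (k + 1)
        = 3 ^ k * (3 * g (g^[k] n)) + 3 ^ (k + 1) := by ring
      _ ≤ 3 ^ k * (e * g^[k] n + 1) + 3 ^ (k + 1) := by
        apply Nat.add_le_add_right; exact Nat.mul_le_mul_left _ h1
      _ = e * (3 ^ k * g^[k] n) + 4 * 3 ^ k := by ring
      _ ≤ e * (2 ^ ba k n * n) + 4 * 4 ^ k := by
        -- `3 ^ k * x ≤ 2 ^ ba * n + 4 ^ k - 3 ^ k`
        have h5 : e * (3 ^ k * g^[k] n) + e * 3 ^ k ≤ e * (2 ^ ba k n * n) + e * 4 ^ k := by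
          have := Nat.mul_le_mul_left e ih
          rw [mul_add, mul_add] at this
          exact this
        have h6 : e * 4 ^ k + 4 * 3 ^ k ≤ 4 * 4 ^ k + e * 3 ^ k := by
          nlinarith
        omega
      _ = _ := by ring

theorem f_le_two (x : ℕ) (hx : 1 ≤ x) : f x ≤ 2 * x := by unfold f; split_ifs <;> omega

theorem g_le_two (x : ℕ) (hx : 1 ≤ x) : g x ≤ 2 * x := by unfold g; split_ifs <;> omega

theorem iter_f_le (k n : ℕ) (hn : 1 ≤ n) : f^[k] n ≤ 2 ^ k * n := by
  induction k with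
  | zero => simp
  | succ k ih =>
    rw [Function.iterate_succ_apply']
    have := f_le_two (f^[k] n) (iter_f_pos hn k)
    calc _ ≤ 2 * f^[k] n := this
      _ ≤ 2 * (2 ^ k * n) := by omega
      _ = _ := by ring

theorem iter_g_le (k n : ℕ) (hn : 1 ≤ n) : g^[k] n ≤ 2 ^ k * n := by
  induction k with
  | zero => simp
  | succ k ih =>
    rw [Function.iterate_succ_apply']
    have := g_le_two (g^[k] n) (iter_g_pos hn k)
    calc _ ≤ 2 * g^[k] n := this
      _ ≤ 2 * (2 ^ k * n) := by omega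
      _ = _ := by ring

/-- lower bound for the forward path, as long as it does not go below its start -/
theorem fwd_lower {n : ℕ} (hn : 1 ≤ n) (k : ℕ) (h : ∀ i < k, n ≤ f^[i] n) :
    (3 : ℝ) ^ k * n * (1 - 1 / (3 * n)) ^ k ≤ 2 ^ fa k n * (f^[k] n : ℕ) := by
  have hnR : (0 : ℝ) < n := by exact_mod_cast hn
  have hn1 : (1 : ℝ) ≤ n := by exact_mod_cast hn
  have hfac : (0 : ℝ) ≤ 1 - 1 / (3 * n) := by
    rw [sub_nonneg, div_le_one (by positivity)]; linarith
  induction k with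
  | zero => simp [fa]
  | succ k ih =>
    have ih' := ih (fun i hi => h i (by omega))
    have hk := h k (by omega)
    rw [Function.iterate_succ_apply', fa_succ', pow_add 2]
    set x := f^[k] n with hx
    have hxR : (n : ℝ) ≤ x := by exact_mod_cast hk
    have h1 : (3 : ℝ) * x * (1 - 1 / (3 * n)) ≤ 2 ^ ex x * (f x : ℕ) := by
      have h2 : (3 : ℝ) * x ≤ (f x : ℕ) * 2 ^ ex x + 1 := by exact_mod_cast f_step_ge x
      have h3 : (1 : ℝ) ≤ 3 * x * (1 / (3 * n)) := by
        rw [mul_one_div, le_div_iff₀ (by positivity)]; linarith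
      nlinarith
    have h2fa : (0 : ℝ) < 2 ^ fa k n := by positivity
    calc (3 : ℝ) ^ (k + 1) * n * (1 - 1 / (3 * n)) ^ (k + 1)
        = ((3 : ℝ) ^ k * n * (1 - 1 / (3 * n)) ^ k) * (3 * (1 - 1 / (3 * n))) := by ring
      _ ≤ (2 ^ fa k n * x) * (3 * (1 - 1 / (3 * n))) :=
        mul_le_mul_of_nonneg_right ih' (by positivity)
      _ = 2 ^ fa k n * (3 * x * (1 - 1 / (3 * n))) := by ring
      _ ≤ 2 ^ fa k n * (2 ^ ex x * (f x : ℕ)) := mul_le_mul_of_nonneg_left h1 h2fa.le
      _ = _ := by ring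

theorem bwd_lower {n : ℕ} (hn : 1 ≤ n) (k : ℕ) (h : ∀ i < k, n ≤ g^[i] n) :
    (2 : ℝ) ^ ba k n * n * (1 - 1 / (3 * n)) ^ k ≤ 3 ^ k * (g^[k] n : ℕ) := by
  have hnR : (0 : ℝ) < n := by exact_mod_cast hn
  have hn1 : (1 : ℝ) ≤ n := by exact_mod_cast hn
  have hfac : (0 : ℝ) ≤ 1 - 1 / (3 * n) := by
    rw [sub_nonneg, div_le_one (by positivity)]; linarith
  induction k with
  | zero => simp [ba]
  | succ k ih =>
    have ih' := ih (fun i hi => h i (by omega))
    have hk := h k (by omega)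
    rw [Function.iterate_succ_apply', ba_succ', pow_add 2]
    set x := g^[k] n with hx
    have hxR : (n : ℝ) ≤ x := by exact_mod_cast hk
    have h1 : (2 : ℝ) ^ eb x * x * (1 - 1 / (3 * n)) ≤ 3 * (g x : ℕ) := by
      by_cases h3 : x % 3 = 0
      · have e1 : eb x = 1 := by unfold eb; rw [if_pos h3]
        have e2 : 3 * g x = 2 * x := by unfold g; rw [if_pos h3]; omega
        have e2' : (3 : ℝ) * (g x : ℕ) = 2 * x := by exact_mod_cast e2
        rw [e1, e2', pow_one]
        have : (0 : ℝ) ≤ 2 * x * (1 / (3 * n)) := by positivity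
        linarith
      · have e1 : eb x = 2 := by unfold eb; rw [if_neg h3]
        have h2 : (2 : ℝ) ^ 2 * x ≤ 3 * (g x : ℕ) + 1 := by
          have := g_step_ge x
          rw [e1] at this
          exact_mod_cast this
        rw [e1]
        have h4 : (1 : ℝ) ≤ 2 ^ 2 * x * (1 / (3 * n)) := by
          rw [mul_one_div, le_div_iff₀ (by positivity)]; nlinarith
        nlinarith
    have h2fa : (0 : ℝ) < 3 ^ k := by positivity
    calc (2 : ℝ) ^ ba k n * 2 ^ eb x * n * (1 - 1 / (3 * n)) ^ (k + 1)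
        = ((2 : ℝ) ^ ba k n * n * (1 - 1 / (3 * n)) ^ k) * (2 ^ eb x * (1 - 1 / (3 * n))) := by ring
      _ ≤ (3 ^ k * x) * (2 ^ eb x * (1 - 1 / (3 * n))) :=
        mul_le_mul_of_nonneg_right ih' (by positivity)
      _ = 3 ^ k * (2 ^ eb x * x * (1 - 1 / (3 * n))) := by ring
      _ ≤ 3 ^ k * (3 * (g x : ℕ)) := mul_le_mul_of_nonneg_left h1 h2fa.le
      _ = _ := by ring

/-- Bernoulli's inequality for the factor of the two bounds. -/
theorem factor_ge {n k : ℕ} (hn : 1 ≤ n) : 1 - (k : ℝ) / (3 * n) ≤ (1 - 1 / (3 * (n : ℝ))) ^ k := by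
  have hn1 : (1 : ℝ) ≤ n := by exact_mod_cast hn
  have h1 : (1 : ℝ) / (3 * n) ≤ 1 := by rw [div_le_one (by positivity)]; linarith
  have := one_add_mul_le_pow (show (-2 : ℝ) ≤ -(1 / (3 * (n : ℝ))) by linarith) k
  have e : (1 : ℝ) + k * -(1 / (3 * n)) = 1 - k / (3 * n) := by ring
  rw [e] at this
  rw [sub_eq_add_neg 1 (1 / (3 * (n : ℝ)))]
  exact this

theorem fwd_lower' {n k : ℕ} (hn : 1 ≤ n) (hk : k ≤ n) (h : ∀ i < k, n ≤ f^[i] n) :
    (2 : ℝ) * 3 ^ k * n ≤ 3 * (2 ^ fa k n * (f^[k] n : ℕ)) := by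
  have hnR : (0 : ℝ) < n := by exact_mod_cast hn
  have h1 := fwd_lower hn k h
  have h2 := factor_ge (k := k) hn
  have h3 : (2 : ℝ) / 3 ≤ 1 - (k : ℝ) / (3 * n) := by
    have : (k : ℝ) / (3 * n) ≤ 1 / 3 := by
      rw [div_le_div_iff₀ (by positivity) (by norm_num)]
      have : (k : ℝ) ≤ n := by exact_mod_cast hk
      linarith
    linarith
  have h4 : (3 : ℝ) ^ k * n * (2 / 3) ≤ 3 ^ k * n * (1 - 1 / (3 * n)) ^ k :=
    mul_le_mul_of_nonneg_left (h3.trans h2) (by positivity)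
  linarith

theorem bwd_lower' {n k : ℕ} (hn : 1 ≤ n) (hk : k ≤ n) (h : ∀ i < k, n ≤ g^[i] n) :
    (2 : ℝ) * 2 ^ ba k n * n ≤ 3 * (3 ^ k * (g^[k] n : ℕ)) := by
  have hnR : (0 : ℝ) < n := by exact_mod_cast hn
  have h1 := bwd_lower hn k h
  have h2 := factor_ge (k := k) hn
  have h3 : (2 : ℝ) / 3 ≤ 1 - (k : ℝ) / (3 * n) := by
    have : (k : ℝ) / (3 * n) ≤ 1 / 3 := by
      rw [div_le_div_iff₀ (by positivity) (by norm_num)]
      have : (k : ℝ) ≤ n := by exact_mod_cast hk
      linarith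
    linarith
  have h4 : (2 : ℝ) ^ ba k n * n * (2 / 3) ≤ 2 ^ ba k n * n * (1 - 1 / (3 * n)) ^ k :=
    mul_le_mul_of_nonneg_left (h3.trans h2) (by positivity)
  linarith

theorem two_three_ne {a k : ℕ} (hk : 1 ≤ k) : 2 ^ a ≠ 3 ^ k := by
  intro h
  have h3 : (3 ^ k) % 2 = 1 := by rw [Nat.pow_mod]; simp
  rcases Nat.eq_zero_or_pos a with ha | ha
  · subst ha
    have : 1 < 3 ^ k := Nat.one_lt_pow (by omega) (by norm_num)
    simp at h; omega
  · obtain ⟨b, rfl⟩ : ∃ b, a = b + 1 := ⟨a - 1, by omega⟩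
    rw [← h, pow_succ] at h3
    omega

/-- A truncated-minimal large number has no dip in the first `K` steps. -/
theorem no_dip_of_truncMin {c : ℝ} {K n : ℕ} (h4 : 4 ^ K < n)
    (hbig : (2 : ℝ) ^ K * n ≤ (n : ℝ) ^ (1 + c)) (h : TruncMin c n) :
    Vf K 1 1 n ∧ Vb K 1 1 n := by
  have hn : 1 ≤ n := by
    have : 1 ≤ 4 ^ K := Nat.one_le_pow _ _ (by norm_num)
    omega
  constructor
  · rw [Vf_iff]
    intro k hk1 hk2
    rw [one_mul, one_mul]
    by_contra hcon
    push Not at hcon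
    have hne := two_three_ne (a := fa k n) hk1
    have hlt : 3 ^ k + 1 ≤ 2 ^ fa k n := by omega
    have hup := fwd_upper k n
    have hpos := iter_f_pos hn k
    have hx : f^[k] n < n := by
      by_contra hge
      push Not at hge
      have h1 : n * (3 ^ k + 1) ≤ f^[k] n * 2 ^ fa k n := Nat.mul_le_mul hge hlt
      have h2 : 4 ^ k ≤ 4 ^ K := Nat.pow_le_pow_right (by norm_num) hk2
      have h3 : n * (3 ^ k + 1) = 3 ^ k * n + n := by ring
      have h8 : 0 < 3 ^ k := by positivity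
      omega
    have hj : JoinedBelow ((n : ℝ) ^ (1 + c)) n (f^[k] n) := by
      left
      refine ⟨k, rfl, fun i hi => ?_⟩
      refine le_trans ?_ hbig
      have h5 := iter_f_le i n hn
      have h6 : 2 ^ i * n ≤ 2 ^ K * n :=
        Nat.mul_le_mul_right _ (Nat.pow_le_pow_right (by norm_num) (by omega))
      exact_mod_cast h5.trans h6
    have := h _ hpos hj
    omega
  · rw [Vb_iff]
    intro k hk1 hk2
    rw [one_mul, one_mul]
    by_contra hcon
    push Not at hcon
    have hne := two_three_ne (a := ba k n) hk1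
    have hlt : 2 ^ ba k n + 1 ≤ 3 ^ k := by omega
    have hup := bwd_upper k n
    have hpos := iter_g_pos hn k
    have hx : g^[k] n < n := by
      by_contra hge
      push Not at hge
      have h1 : (2 ^ ba k n + 1) * n ≤ 3 ^ k * g^[k] n := Nat.mul_le_mul hlt hge
      have h2 : 4 ^ k ≤ 4 ^ K := Nat.pow_le_pow_right (by norm_num) hk2
      have h3 : (2 ^ ba k n + 1) * n = 2 ^ ba k n * n + n := by ring
      have h8 : 0 < 3 ^ k := by positivity
      omega
    have hj : JoinedBelow ((n : ℝ) ^ (1 + c)) n (g^[k] n) := by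
      right
      refine ⟨k, iter_f_iter_g k n, fun i hi => ?_⟩
      refine le_trans ?_ hbig
      have e : f^[i] (g^[k] n) = g^[k - i] n := by
        have : k = i + (k - i) := by omega
        conv_lhs => rw [this, Function.iterate_add_apply]
        exact iter_f_iter_g i _
      rw [e]
      have h5 := iter_g_le (k - i) n hn
      have h6 : 2 ^ (k - i) * n ≤ 2 ^ K * n :=
        Nat.mul_le_mul_right _ (Nat.pow_le_pow_right (by norm_num) (by omega))
      exact_mod_cast h5.trans h6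
    have := h _ hpos hj
    omega

end Pool.Agent.Helper994_CO
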