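import Pool.Agent.Helper994_CO.Trunc3
import Pool.Agent.Helper994_CO.Trunc4

set_option autoImplicit false

/-!
# Exponential moments: few integers dip late or stay low
-/

namespace Pool.Agent.Helper994_CO

open Finset

/-- The weight of a forward path. -/
noncomputable def Wf (k n : ℕ) : ℝ := √((2 : ℝ) ^ fa k n / 3 ^ k)

/-- The weight of a backward path. -/
noncomputable def Wb (k n : ℕ) : ℝ := √((3 : ℝ) ^ k / 2 ^ ba k n)

theorem Wf_per (k m t : ℕ) : Wf k (m + 4 ^ k * t) = Wf k m := by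
  unfold Wf; rw [fa_per]

theorem Wb_per (k m t : ℕ) : Wb k (m + 3 ^ k * t) = Wb k m := by
  unfold Wb; rw [ba_per]

theorem Wf_nonneg (k n : ℕ) : 0 ≤ Wf k n := Real.sqrt_nonneg _

theorem Wb_nonneg (k n : ℕ) : 0 ≤ Wb k n := Real.sqrt_nonneg _

theorem Wf_succ (k n : ℕ) : Wf (k + 1) n = √((2 : ℝ) ^ ex n / 3) * Wf k (f n) := by
  unfold Wf
  rw [← Real.sqrt_mul (by positivity)]
  congr 1
  show (2 : ℝ) ^ (ex n + fa k (f n)) / 3 ^ (k + 1) = _
  rw [pow_add, pow_succ]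
  field_simp

theorem Wb_succ (k n : ℕ) : Wb (k + 1) n = √((3 : ℝ) / 2 ^ eb n) * Wb k (g n) := by
  unfold Wb
  rw [← Real.sqrt_mul (by positivity)]
  congr 1
  show (3 : ℝ) ^ (k + 1) / 2 ^ (eb n + ba k (g n)) = _
  rw [pow_add 2, pow_succ]
  field_simp

theorem sum_Wf (k : ℕ) : ∑ n ∈ range (4 ^ k), Wf k n = (2 * √(2 / 3) + 2 * √(4 / 3)) ^ k := by
  induction k with
  | zero => simp [Wf, fa]
  | succ k ih =>
    rw [sum_fwd_succ k (Wf (k + 1)) (fun m => √(2 / 3) * Wf k m) (fun m => √(4 / 3) * Wf k m)]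
    · rw [← mul_sum, ← mul_sum, ih, pow_succ]; ring
    · intro n hn
      rw [Wf_succ]
      have : ex n = 1 := by unfold ex; rw [if_pos hn]
      rw [this, pow_one]
    · intro n hn
      rw [Wf_succ]
      have : ex n = 2 := by unfold ex; rw [if_neg (by omega)]
      rw [this, show (2 : ℝ) ^ 2 = 4 by norm_num]
    · intro m t; simp only [Wf_per]
    · intro m t; simp only [Wf_per]

theorem sum_Wb (k : ℕ) : ∑ n ∈ range (3 ^ k), Wb k n = (√(3 / 2) + 2 * √(3 / 4)) ^ k := by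
  induction k with
  | zero => simp [Wb, ba]
  | succ k ih =>
    rw [sum_bwd_succ k (Wb (k + 1)) (fun m => √(3 / 2) * Wb k m) (fun m => √(3 / 4) * Wb k m)]
    · rw [← mul_sum, ← mul_sum, ih, pow_succ]; ring
    · intro n hn
      rw [Wb_succ]
      have : eb n = 1 := by unfold eb; rw [if_pos hn]
      rw [this, pow_one]
    · intro n hn
      rw [Wb_succ]
      have : eb n = 2 := by unfold eb; rw [if_neg hn]
      rw [this, show (2 : ℝ) ^ 2 = 4 by norm_num]
    · intro m t; simp only [Wb_per]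
    · intro m t; simp only [Wb_per]

theorem rate_f : 2 * √(2 / 3) + 2 * √(4 / 3) ≤ (4 : ℝ) * 0.98562 := by
  have h1 : √(2 / 3 : ℝ) ≤ 0.8165 := by
    rw [Real.sqrt_le_left (by norm_num)]; norm_num
  have h2 : √(4 / 3 : ℝ) ≤ 1.15471 := by
    rw [Real.sqrt_le_left (by norm_num)]; norm_num
  linarith

theorem rate_b : √(3 / 2) + 2 * √(3 / 4) ≤ (3 : ℝ) * 0.98562 := by
  have h1 : √(3 / 2 : ℝ) ≤ 1.22475 := by
    rw [Real.sqrt_le_left (by norm_num)]; norm_num
  have h2 : √(3 / 4 : ℝ) ≤ 0.866026 := by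
    rw [Real.sqrt_le_left (by norm_num)]; norm_num
  linarith

/-- The general first moment bound. -/
theorem sum_weight_le {W : ℕ → ℝ} {P N : ℕ} {R : ℝ} (hP : 0 < P) (hW0 : ∀ n, 0 ≤ W n)
    (hper : ∀ m t, W (m + P * t) = W m) (hsum : ∑ n ∈ range P, W n ≤ P * R) (hR : 0 ≤ R)
    (hPN : P ≤ N) : ∑ n ∈ Icc 1 N, W n ≤ 2 * N * R := by
  have hPR : (0 : ℝ) < P := by exact_mod_cast hP
  have e1 : ∑ n ∈ Icc 1 N, W n ≤ ∑ n ∈ range (P * (N / P + 1)), W n := by
    apply sum_le_sum_of_subset_of_nonneg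
    · intro x hx
      rw [mem_Icc] at hx
      rw [mem_range]
      have h1 := Nat.div_add_mod N P
      have h2 := Nat.mod_lt N hP
      have : P * (N / P + 1) = P * (N / P) + P := by ring
      omega
    · intro x _ _
      exact hW0 x
  rw [sum_mul_range W P hper] at e1
  have e2 : ((N / P + 1 : ℕ) : ℝ) * P ≤ 2 * N := by
    have h1 : N / P * P ≤ N := Nat.div_mul_le_self N P
    have : (N / P + 1) * P ≤ 2 * N := by
      have : (N / P + 1) * P = N / P * P + P := by ring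
      omega
    exact_mod_cast this
  calc ∑ n ∈ Icc 1 N, W n ≤ ((N / P + 1 : ℕ) : ℝ) * ∑ n ∈ range P, W n := e1
    _ ≤ ((N / P + 1 : ℕ) : ℝ) * (P * R) := mul_le_mul_of_nonneg_left hsum (by positivity)
    _ = (((N / P + 1 : ℕ) : ℝ) * P) * R := by ring
    _ ≤ 2 * N * R := mul_le_mul_of_nonneg_right e2 hR

theorem card_le_of_weight {W : ℕ → ℝ} {N : ℕ} {lam B : ℝ} (hlam : 0 < lam) (hW0 : ∀ n, 0 ≤ W n)
    (hsum : ∑ n ∈ Icc 1 N, W n ≤ B) (S : Finset ℕ) (hS : S ⊆ Icc 1 N) (hSW : ∀ n ∈ S, lam ≤ W n) :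
    (S.card : ℝ) ≤ B / lam := by
  rw [le_div_iff₀ hlam]
  calc (S.card : ℝ) * lam = ∑ n ∈ S, lam := by rw [sum_const, nsmul_eq_mul]
    _ ≤ ∑ n ∈ S, W n := sum_le_sum hSW
    _ ≤ ∑ n ∈ Icc 1 N, W n := sum_le_sum_of_subset_of_nonneg hS fun n _ _ => hW0 n
    _ ≤ B := hsum

theorem count_f {k N : ℕ} (h : 4 ^ k ≤ N) {lam : ℝ} (hlam : 0 < lam) (S : Finset ℕ)
    (hS : S ⊆ Icc 1 N) (hSW : ∀ n ∈ S, lam ≤ Wf k n) :
    (S.card : ℝ) ≤ 2 * N * 0.98562 ^ k / lam := by
  refine card_le_of_weight hlam (Wf_nonneg k) ?_ S hS hSW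
  refine sum_weight_le (W := Wf k) (P := 4 ^ k) (by positivity) (Wf_nonneg k)
    (Wf_per k) ?_ (by positivity) h
  rw [sum_Wf]
  push_cast
  rw [← mul_pow]
  exact pow_le_pow_left₀ (by positivity) rate_f k

theorem count_b {k N : ℕ} (h : 3 ^ k ≤ N) {lam : ℝ} (hlam : 0 < lam) (S : Finset ℕ)
    (hS : S ⊆ Icc 1 N) (hSW : ∀ n ∈ S, lam ≤ Wb k n) :
    (S.card : ℝ) ≤ 2 * N * 0.98562 ^ k / lam := by
  refine card_le_of_weight hlam (Wb_nonneg k) ?_ S hS hSW
  refine sum_weight_le (W := Wb k) (P := 3 ^ k) (by positivity) (Wb_nonneg k)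
    (Wb_per k) ?_ (by positivity) h
  rw [sum_Wb]
  push_cast
  rw [← mul_pow]
  exact pow_le_pow_left₀ (by positivity) rate_b k

/-- The two ways in which `n` can fail forward. -/
theorem fwd_fail {c : ℝ} (hc : 0 ≤ c) {K k0 n N : ℕ} (hnN : n ≤ N) (hK : K * 3 ^ K < n) (hk0 : k0 ≤ n)
    (hV : Vf K 1 1 n) {k : ℕ} (hlt : f^[k] n < n)
    (hH : ∀ i ≤ k, ((f^[i] n : ℕ) : ℝ) ≤ (n : ℝ) ^ (1 + c)) :
    (∃ j, K < j ∧ j ≤ k0 ∧ √(2 / 3) ≤ Wf j n) ∨ √(2 / 3 / (N : ℝ) ^ c) ≤ Wf k0 n := by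
  have hn : 1 ≤ n := by omega
  have hnR : (0 : ℝ) < n := by exact_mod_cast hn
  classical
  have hex : ∃ j, f^[j] n < n := ⟨k, hlt⟩
  set k' := Nat.find hex with hk'
  have hk'k : k' ≤ k := Nat.find_min' hex hlt
  have hk'lt : f^[k'] n < n := Nat.find_spec hex
  have hmin : ∀ i < k', n ≤ f^[i] n := fun i hi => by
    have := Nat.find_min hex hi
    omega
  have hk'1 : 1 ≤ k' := by
    by_contra h0
    have : k' = 0 := by omega
    rw [this] at hk'lt
    simp at hk'lt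
  by_cases h1 : k' ≤ K
  · -- impossible
    exfalso
    rw [Vf_iff] at hV
    have h2 := hV k' hk'1 h1
    rw [one_mul, one_mul] at h2
    have h3 := fwd_lower hn k' hmin
    have h4 := factor_ge (k := k') hn
    have h5 : (3 : ℝ) ^ k' * n * (1 - (k' : ℝ) / (3 * n)) ≤ 2 ^ fa k' n * (f^[k'] n : ℕ) :=
      le_trans (mul_le_mul_of_nonneg_left h4 (by positivity)) h3
    have h6 : (3 : ℝ) ^ k' * n * (1 - (k' : ℝ) / (3 * n)) = 3 ^ k' * n - 3 ^ k' * k' / 3 := by
      field_simp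
    rw [h6] at h5
    have h7 : (2 : ℝ) ^ fa k' n * (f^[k'] n : ℕ) ≤ (3 ^ k' - 1) * n := by
      have e1 : (2 : ℝ) ^ fa k' n ≤ 3 ^ k' - 1 := by
        have : 2 ^ fa k' n + 1 ≤ 3 ^ k' := h2
        have : (2 : ℝ) ^ fa k' n + 1 ≤ 3 ^ k' := by exact_mod_cast this
        linarith
      have e2 : ((f^[k'] n : ℕ) : ℝ) ≤ n := by exact_mod_cast hk'lt.le
      exact mul_le_mul e1 e2 (by positivity) (le_trans (by positivity) e1)
    have h8 : (n : ℝ) ≤ 3 ^ k' * k' := by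
      have : (0 : ℝ) ≤ 3 ^ k' * k' := by positivity
      linarith
    have h9 : n ≤ 3 ^ k' * k' := by exact_mod_cast h8
    have h10 : 3 ^ k' * k' ≤ 3 ^ K * K :=
      Nat.mul_le_mul (Nat.pow_le_pow_right (by norm_num) h1) h1
    rw [mul_comm] at hK
    omega
  · by_cases h2 : k' ≤ k0
    · left
      refine ⟨k', by omega, h2, ?_⟩
      have h3 := fwd_lower' hn (by omega : k' ≤ n) hmin
      unfold Wf
      apply Real.sqrt_le_sqrt
      rw [div_le_div_iff₀ (by norm_num) (by positivity)]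
      have h4 : ((f^[k'] n : ℕ) : ℝ) ≤ n := by exact_mod_cast hk'lt.le
      have h5 : (2 : ℝ) * 3 ^ k' * n ≤ 3 * 2 ^ fa k' n * n := by
        calc (2 : ℝ) * 3 ^ k' * n ≤ 3 * (2 ^ fa k' n * (f^[k'] n : ℕ)) := h3
          _ ≤ 3 * (2 ^ fa k' n * n) := by
            apply mul_le_mul_of_nonneg_left _ (by norm_num)
            exact mul_le_mul_of_nonneg_left h4 (by positivity)
          _ = _ := by ring
      have h6 := le_of_mul_le_mul_right h5 hnR
      linarith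
    · right
      push Not at h2
      have h3 := fwd_lower' hn hk0 (fun i hi => hmin i (by omega))
      have h4 := hH k0 (by omega)
      unfold Wf
      apply Real.sqrt_le_sqrt
      have hNc : (0 : ℝ) < (N : ℝ) ^ c := by
        apply Real.rpow_pos_of_pos
        have : 1 ≤ N := by omega
        exact_mod_cast this
      have hnc : (n : ℝ) ^ c ≤ (N : ℝ) ^ c :=
        Real.rpow_le_rpow hnR.le (by exact_mod_cast hnN) hc
      rw [Real.rpow_add hnR, Real.rpow_one] at h4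
      rw [div_div, div_le_div_iff₀ (by positivity) (by positivity)]
      have h5 : (2 : ℝ) * 3 ^ k0 * n ≤ 2 ^ fa k0 n * (3 * (N : ℝ) ^ c) * n := by
        calc (2 : ℝ) * 3 ^ k0 * n ≤ 3 * (2 ^ fa k0 n * (f^[k0] n : ℕ)) := h3
          _ ≤ 3 * (2 ^ fa k0 n * (n * (n : ℝ) ^ c)) := by
            apply mul_le_mul_of_nonneg_left _ (by norm_num)
            exact mul_le_mul_of_nonneg_left h4 (by positivity)
          _ ≤ 3 * (2 ^ fa k0 n * (n * (N : ℝ) ^ c)) := by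
            apply mul_le_mul_of_nonneg_left _ (by norm_num)
            apply mul_le_mul_of_nonneg_left _ (by positivity)
            exact mul_le_mul_of_nonneg_left hnc hnR.le
          _ = _ := by ring
      exact le_of_mul_le_mul_right h5 hnR

/-- The two ways in which `n` can fail backward. -/
theorem bwd_fail {c : ℝ} (hc : 0 ≤ c) {K k0 n N : ℕ} (hnN : n ≤ N) (hK : K * 3 ^ K < n) (hk0 : k0 ≤ n)
    (hV : Vb K 1 1 n) {k : ℕ} (hlt : g^[k] n < n)
    (hH : ∀ i ≤ k, ((g^[i] n : ℕ) : ℝ) ≤ (n : ℝ) ^ (1 + c)) :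
    (∃ j, K < j ∧ j ≤ k0 ∧ √(2 / 3) ≤ Wb j n) ∨ √(2 / 3 / (N : ℝ) ^ c) ≤ Wb k0 n := by
  have hn : 1 ≤ n := by omega
  have hnR : (0 : ℝ) < n := by exact_mod_cast hn
  classical
  have hex : ∃ j, g^[j] n < n := ⟨k, hlt⟩
  set k' := Nat.find hex with hk'
  have hk'k : k' ≤ k := Nat.find_min' hex hlt
  have hk'lt : g^[k'] n < n := Nat.find_spec hex
  have hmin : ∀ i < k', n ≤ g^[i] n := fun i hi => by
    have := Nat.find_min hex hi
    omega
  have hk'1 : 1 ≤ k' := by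
    by_contra h0
    have : k' = 0 := by omega
    rw [this] at hk'lt
    simp at hk'lt
  by_cases h1 : k' ≤ K
  · -- impossible
    exfalso
    rw [Vb_iff] at hV
    have h2 := hV k' hk'1 h1
    rw [one_mul, one_mul] at h2
    have h3 := bwd_lower hn k' hmin
    have h4 := factor_ge (k := k') hn
    have h5 : (2 : ℝ) ^ ba k' n * n * (1 - (k' : ℝ) / (3 * n)) ≤ 3 ^ k' * (g^[k'] n : ℕ) :=
      le_trans (mul_le_mul_of_nonneg_left h4 (by positivity)) h3
    have h6 : (2 : ℝ) ^ ba k' n * n * (1 - (k' : ℝ) / (3 * n)) = 2 ^ ba k' n * n - 2 ^ ba k' n * k' / 3 := by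
      field_simp
    rw [h6] at h5
    -- `3 ^ k' ≤ 2 ^ ba - 1`
    have e1 : (3 : ℝ) ^ k' ≤ 2 ^ ba k' n - 1 := by
      have : 3 ^ k' + 1 ≤ 2 ^ ba k' n := h2
      have : (3 : ℝ) ^ k' + 1 ≤ 2 ^ ba k' n := by exact_mod_cast this
      linarith
    have e2 : ((g^[k'] n : ℕ) : ℝ) ≤ n := by exact_mod_cast hk'lt.le
    have h7 : (3 : ℝ) ^ k' * (g^[k'] n : ℕ) ≤ 3 ^ k' * n := mul_le_mul_of_nonneg_left e2 (by positivity)
    have h8 : (2 : ℝ) ^ ba k' n * n - 2 ^ ba k' n * k' / 3 ≤ 3 ^ k' * n := h5.trans h7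
    -- compare: `2 ^ ba (n - k' / 3) ≤ 3 ^ k' n`, and `3 ^ k' + 1 ≤ 2 ^ ba`
    have hk'n : (k' : ℝ) ≤ n := by
      have : k' ≤ n := by
        have : K ≤ K * 3 ^ K := Nat.le_mul_of_pos_right _ (by positivity)
        omega
      exact_mod_cast this
    have h9 : ((3 : ℝ) ^ k' + 1) * (n - k' / 3) ≤ 3 ^ k' * n := by
      have h10 : ((3 : ℝ) ^ k' + 1) * (n - k' / 3) ≤ 2 ^ ba k' n * (n - k' / 3) := by
        apply mul_le_mul_of_nonneg_right (by linarith)
        linarith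
      have h11 : (2 : ℝ) ^ ba k' n * (n - k' / 3) = 2 ^ ba k' n * n - 2 ^ ba k' n * k' / 3 := by ring
      linarith
    have h12 : (n : ℝ) ≤ 3 ^ k' * k' := by
      have h13 : (1 : ℝ) ≤ 3 ^ k' := one_le_pow₀ (by norm_num)
      have h14 : (0 : ℝ) ≤ k' := by positivity
      nlinarith
    have h15 : n ≤ 3 ^ k' * k' := by exact_mod_cast h12
    have h16 : 3 ^ k' * k' ≤ 3 ^ K * K :=
      Nat.mul_le_mul (Nat.pow_le_pow_right (by norm_num) h1) h1
    rw [mul_comm] at hK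
    omega
  · by_cases h2 : k' ≤ k0
    · left
      refine ⟨k', by omega, h2, ?_⟩
      have h3 := bwd_lower' hn (by omega : k' ≤ n) hmin
      unfold Wb
      apply Real.sqrt_le_sqrt
      rw [div_le_div_iff₀ (by norm_num) (by positivity)]
      have h4 : ((g^[k'] n : ℕ) : ℝ) ≤ n := by exact_mod_cast hk'lt.le
      have h5 : (2 : ℝ) * 2 ^ ba k' n * n ≤ 3 * 3 ^ k' * n := by
        calc (2 : ℝ) * 2 ^ ba k' n * n ≤ 3 * (3 ^ k' * (g^[k'] n : ℕ)) := h3
          _ ≤ 3 * (3 ^ k' * n) := by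
            apply mul_le_mul_of_nonneg_left _ (by norm_num)
            exact mul_le_mul_of_nonneg_left h4 (by positivity)
          _ = _ := by ring
      have h6 := le_of_mul_le_mul_right h5 hnR
      linarith
    · right
      push Not at h2
      have h3 := bwd_lower' hn hk0 (fun i hi => hmin i (by omega))
      have h4 := hH k0 (by omega)
      unfold Wb
      apply Real.sqrt_le_sqrt
      have hNc : (0 : ℝ) < (N : ℝ) ^ c := by
        apply Real.rpow_pos_of_pos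
        have : 1 ≤ N := by omega
        exact_mod_cast this
      have hnc : (n : ℝ) ^ c ≤ (N : ℝ) ^ c :=
        Real.rpow_le_rpow hnR.le (by exact_mod_cast hnN) hc
      rw [Real.rpow_add hnR, Real.rpow_one] at h4
      rw [div_div, div_le_div_iff₀ (by positivity) (by positivity)]
      have h5 : (2 : ℝ) * 2 ^ ba k0 n * n ≤ 3 ^ k0 * (3 * (N : ℝ) ^ c) * n := by
        calc (2 : ℝ) * 2 ^ ba k0 n * n ≤ 3 * (3 ^ k0 * (g^[k0] n : ℕ)) := h3
          _ ≤ 3 * (3 ^ k0 * (n * (n : ℝ) ^ c)) := by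
            apply mul_le_mul_of_nonneg_left _ (by norm_num)
            exact mul_le_mul_of_nonneg_left h4 (by positivity)
          _ ≤ 3 * (3 ^ k0 * (n * (N : ℝ) ^ c)) := by
            apply mul_le_mul_of_nonneg_left _ (by norm_num)
            apply mul_le_mul_of_nonneg_left _ (by positivity)
            exact mul_le_mul_of_nonneg_left hnc hnR.le
          _ = _ := by ring
      exact le_of_mul_le_mul_right h5 hnR

end Pool.Agent.Helper994_CO
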