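import Pool.Agent.Helper994_CO.Trunc5

set_option autoImplicit false

/-!
# The density of the truncated-minimal integers
-/

namespace Pool.Agent.Helper994_CO

open Finset Filter Topology

theorem geom_le (K m : ℕ) : ∑ j ∈ Ioc K m, (0.98562 : ℝ) ^ j ≤ 69 * 0.98562 ^ K := by
  have key : ∀ m, K ≤ m → ∑ j ∈ Ioc K m, (0.98562 : ℝ) ^ j ≤ 69 * (0.98562 ^ K - 0.98562 ^ m) := by
    intro m hm
    induction m, hm using Nat.le_induction with
    | base => simp
    | succ m hm ih =>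
      rw [Finset.sum_Ioc_succ_top (by omega)]
      have hp : (0 : ℝ) < 0.98562 ^ m := by positivity
      rw [pow_succ]
      nlinarith
  rcases Nat.lt_or_ge m K with h | h
  · rw [Finset.Ioc_eq_empty (by omega), sum_empty]
    positivity
  · have := key m h
    have hp : (0 : ℝ) < 0.98562 ^ m := by positivity
    linarith

theorem sqrt_rpow_le {N k : ℕ} (hN : 1 ≤ N) (h : N ≤ 4 ^ (k + 1)) :
    √((N : ℝ) ^ ((1 : ℝ) / 50)) ≤ 1.014 ^ (k + 1) := by
  have hN0 : (0 : ℝ) ≤ N := by positivity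
  have h4 : (4 : ℝ) ≤ 1.014 ^ 100 := by norm_num
  have h1 : (N : ℝ) ≤ ((1.014 ^ (k + 1)) ^ 2) ^ 50 := by
    calc (N : ℝ) ≤ 4 ^ (k + 1) := by exact_mod_cast h
      _ ≤ (1.014 ^ 100) ^ (k + 1) := pow_le_pow_left₀ (by norm_num) h4 _
      _ = ((1.014 ^ (k + 1)) ^ 2) ^ 50 := by rw [← pow_mul, ← pow_mul, ← pow_mul]; congr 1; ring
  rw [Real.sqrt_le_left (by positivity)]
  calc (N : ℝ) ^ ((1 : ℝ) / 50) ≤ (((1.014 ^ (k + 1)) ^ 2) ^ 50) ^ ((1 : ℝ) / 50) :=
        Real.rpow_le_rpow hN0 h1 (by norm_num)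
    _ = (1.014 ^ (k + 1)) ^ 2 := by
        rw [← Real.rpow_natCast ((1.014 ^ (k + 1)) ^ 2) 50, ← Real.rpow_mul (by positivity)]
        norm_num

theorem sqrt_two_thirds : (0.8164 : ℝ) ≤ √(2 / 3) := by
  apply Real.le_sqrt_of_sq_le
  norm_num

open Classical in
/-- Few survivors of the first `K` steps fail to be truncated-minimal. -/
theorem bad_card (K N : ℕ) (hN : 1 ≤ N) :
    (((Icc 1 N).filter (fun n => (Vf K 1 1 n ∧ Vb K 1 1 n) ∧ ¬ TruncMin (1 / 50) n)).card : ℝ) ≤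
      (K * 3 ^ K + Nat.log 3 N + 1) + 340 * N * 0.98562 ^ K + 5 * N * 0.9995 ^ Nat.log 4 N := by
  set k0 := Nat.log 4 N with hk0
  set k1 := Nat.log 3 N with hk1
  have hk01 : k0 ≤ k1 := Nat.log_anti_left (by norm_num) (by norm_num)
  have h4N : 4 ^ k0 ≤ N := Nat.pow_log_le_self 4 (by omega)
  have h3N : 3 ^ k1 ≤ N := Nat.pow_log_le_self 3 (by omega)
  have h4N' : N ≤ 4 ^ (k0 + 1) := (Nat.lt_pow_succ_log_self (by norm_num) N).le
  have h3N' : N ≤ 4 ^ (k1 + 1) := by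
    calc N ≤ 3 ^ (k1 + 1) := (Nat.lt_pow_succ_log_self (by norm_num) N).le
      _ ≤ 4 ^ (k1 + 1) := Nat.pow_le_pow_left (by norm_num) _
  set B := (Icc 1 N).filter (fun n => (Vf K 1 1 n ∧ Vb K 1 1 n) ∧ ¬ TruncMin (1 / 50) n) with hB
  set S0 := (Icc 1 N).filter (fun n => n ≤ K * 3 ^ K + k1) with hS0
  set S1 := (Ioc K k0).biUnion (fun j => (Icc 1 N).filter (fun n => √(2 / 3) ≤ Wf j n)) with hS1
  set S2 := (Icc 1 N).filter (fun n => √(2 / 3 / (N : ℝ) ^ ((1 : ℝ) / 50)) ≤ Wf k0 n) with hS2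
  set S3 := (Ioc K k1).biUnion (fun j => (Icc 1 N).filter (fun n => √(2 / 3) ≤ Wb j n)) with hS3
  set S4 := (Icc 1 N).filter (fun n => √(2 / 3 / (N : ℝ) ^ ((1 : ℝ) / 50)) ≤ Wb k1 n) with hS4
  have hsub : B ⊆ S0 ∪ (S1 ∪ (S2 ∪ (S3 ∪ S4))) := by
    intro n hn
    rw [hB, mem_filter] at hn
    obtain ⟨hnI, ⟨hVf, hVb⟩, hnot⟩ := hn
    have hnI' := mem_Icc.1 hnI
    simp only [mem_union]
    by_cases hsmall : n ≤ K * 3 ^ K + k1
    · left; rw [hS0, mem_filter]; exact ⟨hnI, hsmall⟩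
    right
    push Not at hsmall
    unfold TruncMin at hnot
    push Not at hnot
    obtain ⟨m, hm1, hj, hmn⟩ := hnot
    rcases hj with ⟨k, hk, hH⟩ | ⟨k, hk, hH⟩
    · have hlt : f^[k] n < n := by rw [hk]; exact hmn
      rcases fwd_fail (c := 1 / 50) (by norm_num) hnI'.2 (by omega : K * 3 ^ K < n)
        (by omega : k0 ≤ n) hVf hlt hH with ⟨j, hj1, hj2, hj3⟩ | h
      · left
        rw [hS1, mem_biUnion]
        exact ⟨j, mem_Ioc.2 ⟨hj1, hj2⟩, mem_filter.2 ⟨hnI, hj3⟩⟩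
      · right; left
        rw [hS2, mem_filter]; exact ⟨hnI, h⟩
    · have hgm : g^[k] n = m := by rw [← hk, iter_g_iter_f]
      have hlt : g^[k] n < n := by rw [hgm]; exact hmn
      have hH' : ∀ i ≤ k, ((g^[i] n : ℕ) : ℝ) ≤ (n : ℝ) ^ (1 + (1 : ℝ) / 50) := by
        intro i hi
        have e : g^[i] n = f^[k - i] m := by
          rw [iter_back hi, hk]
        rw [e]
        exact hH (k - i) (by omega)
      rcases bwd_fail (c := 1 / 50) (by norm_num) hnI'.2 (by omega : K * 3 ^ K < n)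
        (by omega : k1 ≤ n) hVb hlt hH' with ⟨j, hj1, hj2, hj3⟩ | h
      · right; right; left
        rw [hS3, mem_biUnion]
        exact ⟨j, mem_Ioc.2 ⟨hj1, hj2⟩, mem_filter.2 ⟨hnI, hj3⟩⟩
      · right; right; right
        rw [hS4, mem_filter]; exact ⟨hnI, h⟩
  have hcard : B.card ≤ S0.card + (S1.card + (S2.card + (S3.card + S4.card))) := by
    refine (card_le_card hsub).trans ?_
    refine (card_union_le _ _).trans (Nat.add_le_add_left ?_ _)
    refine (card_union_le _ _).trans (Nat.add_le_add_left ?_ _)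
    refine (card_union_le _ _).trans (Nat.add_le_add_left ?_ _)
    exact card_union_le _ _
  have hNR : (0 : ℝ) < N := by exact_mod_cast hN
  have hNR1 : (1 : ℝ) ≤ N := by exact_mod_cast hN
  have hsq := sqrt_two_thirds
  have hsqpos : (0 : ℝ) < √(2 / 3) := by linarith
  -- S0
  have c0 : (S0.card : ℝ) ≤ K * 3 ^ K + k1 + 1 := by
    have : S0 ⊆ Icc 1 (K * 3 ^ K + k1) := by
      intro n hn
      rw [hS0, mem_filter, mem_Icc] at hn
      rw [mem_Icc]
      exact ⟨hn.1.1, hn.2⟩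
    have h1 := card_le_card this
    rw [Nat.card_Icc, Nat.add_sub_cancel] at h1
    have h2 : (S0.card : ℝ) ≤ ((K * 3 ^ K + k1 : ℕ) : ℝ) := by exact_mod_cast h1
    push_cast at h2
    linarith
  -- S1, S3
  have hdiv : ∀ x : ℝ, 0 ≤ x → 2 * N * x / √(2 / 3) ≤ 2.45 * N * x := by
    intro x hx
    rw [div_le_iff₀ hsqpos]
    have : 0 ≤ N * x := mul_nonneg hNR.le hx
    nlinarith
  have c1 : (S1.card : ℝ) ≤ 170 * N * 0.98562 ^ K := by
    calc (S1.card : ℝ) ≤ ∑ j ∈ Ioc K k0, (((Icc 1 N).filter (fun n => √(2 / 3) ≤ Wf j n)).card : ℝ) := by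
          exact_mod_cast card_biUnion_le
      _ ≤ ∑ j ∈ Ioc K k0, (2.45 * (N : ℝ) * (0.98562 : ℝ) ^ j) := by
          apply sum_le_sum
          intro j hj
          rw [mem_Ioc] at hj
          refine le_trans (count_f (k := j) ?_ hsqpos _ (filter_subset _ _) ?_) (hdiv _ (by positivity))
          · exact (Nat.pow_le_pow_right (by norm_num) hj.2).trans h4N
          · intro n hn; exact (mem_filter.1 hn).2
      _ = 2.45 * N * ∑ j ∈ Ioc K k0, (0.98562 : ℝ) ^ j := by rw [mul_sum]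
      _ ≤ 2.45 * N * (69 * 0.98562 ^ K) := mul_le_mul_of_nonneg_left (geom_le K k0) (by positivity)
      _ ≤ _ := by
          have : (0 : ℝ) < N * 0.98562 ^ K := by positivity
          nlinarith
  have c3 : (S3.card : ℝ) ≤ 170 * N * 0.98562 ^ K := by
    calc (S3.card : ℝ) ≤ ∑ j ∈ Ioc K k1, (((Icc 1 N).filter (fun n => √(2 / 3) ≤ Wb j n)).card : ℝ) := by
          exact_mod_cast card_biUnion_le
      _ ≤ ∑ j ∈ Ioc K k1, (2.45 * (N : ℝ) * (0.98562 : ℝ) ^ j) := by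
          apply sum_le_sum
          intro j hj
          rw [mem_Ioc] at hj
          refine le_trans (count_b (k := j) ?_ hsqpos _ (filter_subset _ _) ?_) (hdiv _ (by positivity))
          · exact (Nat.pow_le_pow_right (by norm_num) hj.2).trans h3N
          · intro n hn; exact (mem_filter.1 hn).2
      _ = 2.45 * N * ∑ j ∈ Ioc K k1, (0.98562 : ℝ) ^ j := by rw [mul_sum]
      _ ≤ 2.45 * N * (69 * 0.98562 ^ K) := mul_le_mul_of_nonneg_left (geom_le K k1) (by positivity)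
      _ ≤ _ := by
          have : (0 : ℝ) < N * 0.98562 ^ K := by positivity
          nlinarith
  -- S2, S4
  have hNc : (0 : ℝ) < (N : ℝ) ^ ((1 : ℝ) / 50) := Real.rpow_pos_of_pos hNR _
  have hsqNc : (0 : ℝ) < √((N : ℝ) ^ ((1 : ℝ) / 50)) := Real.sqrt_pos.2 hNc
  have hlam : (0 : ℝ) < √(2 / 3 / (N : ℝ) ^ ((1 : ℝ) / 50)) := Real.sqrt_pos.2 (by positivity)
  have hdiv2 : ∀ (x : ℝ) (k : ℕ), 0 ≤ x → N ≤ 4 ^ (k + 1) →
      2 * N * x / √(2 / 3 / (N : ℝ) ^ ((1 : ℝ) / 50)) ≤ 2.45 * N * x * 1.014 ^ (k + 1) := by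
    intro x k hx hk
    rw [Real.sqrt_div (by norm_num), div_div_eq_mul_div]
    have h1 := sqrt_rpow_le hN hk
    have h2 := hdiv x hx
    calc 2 * N * x * √((N : ℝ) ^ ((1 : ℝ) / 50)) / √(2 / 3)
        = (2 * N * x / √(2 / 3)) * √((N : ℝ) ^ ((1 : ℝ) / 50)) := by ring
      _ ≤ (2.45 * N * x) * √((N : ℝ) ^ ((1 : ℝ) / 50)) := mul_le_mul_of_nonneg_right h2 hsqNc.le
      _ ≤ (2.45 * N * x) * 1.014 ^ (k + 1) := mul_le_mul_of_nonneg_left h1 (by positivity)
      _ = _ := rfl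
  have hrate : ∀ k : ℕ, 2.45 * N * (0.98562 : ℝ) ^ k * 1.014 ^ (k + 1) ≤ 2.5 * N * 0.9995 ^ k := by
    intro k
    have e : 2.45 * N * (0.98562 : ℝ) ^ k * 1.014 ^ (k + 1) =
        (2.45 * 1.014) * N * (0.98562 * 1.014) ^ k := by
      rw [mul_pow, pow_succ]; ring
    rw [e]
    have h1 : (0.98562 * 1.014 : ℝ) ^ k ≤ 0.9995 ^ k := pow_le_pow_left₀ (by norm_num) (by norm_num) k
    calc (2.45 * 1.014) * N * (0.98562 * 1.014 : ℝ) ^ k ≤ (2.45 * 1.014) * N * 0.9995 ^ k :=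
          mul_le_mul_of_nonneg_left h1 (by positivity)
      _ ≤ _ := by
          have : (0 : ℝ) < N * 0.9995 ^ k := by positivity
          nlinarith
  have c2 : (S2.card : ℝ) ≤ 2.5 * N * 0.9995 ^ k0 :=
    (count_f (k := k0) h4N hlam _ (filter_subset _ _) (fun n hn => (mem_filter.1 hn).2)).trans
      ((hdiv2 _ k0 (by positivity) h4N').trans (hrate k0))
  have c4 : (S4.card : ℝ) ≤ 2.5 * N * 0.9995 ^ k0 := by
    refine ((count_b (k := k1) h3N hlam _ (filter_subset _ _) (fun n hn => (mem_filter.1 hn).2)).trans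
      ((hdiv2 _ k1 (by positivity) h3N').trans (hrate k1))).trans ?_
    apply mul_le_mul_of_nonneg_left _ (by positivity)
    exact pow_le_pow_of_le_one (by norm_num) (by norm_num) hk01
  have hcardR : (B.card : ℝ) ≤ S0.card + (S1.card + (S2.card + (S3.card + S4.card))) := by
    exact_mod_cast hcard
  linarith

/-- `TruncMin` gets weaker as `c` decreases. -/
theorem TruncMin.mono {c c' : ℝ} {n : ℕ} (hn : 1 ≤ n) (hcc : c ≤ c') (h : TruncMin c' n) :
    TruncMin c n := by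
  intro m hm hj
  apply h m hm
  have hpow : (n : ℝ) ^ (1 + c) ≤ (n : ℝ) ^ (1 + c') :=
    Real.rpow_le_rpow_of_exponent_le (by exact_mod_cast hn) (by linarith)
  rcases hj with ⟨k, hk, hH⟩ | ⟨k, hk, hH⟩
  · exact Or.inl ⟨k, hk, fun i hi => (hH i hi).trans hpow⟩
  · exact Or.inr ⟨k, hk, fun i hi => (hH i hi).trans hpow⟩

theorem sum_surv_card (K N : ℕ) :
    ∑ n ∈ Icc 1 N, surv K n = (((Icc 1 N).filter (fun n => Vf K 1 1 n ∧ Vb K 1 1 n)).card : ℝ) := by
  rw [card_filter]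
  push_cast
  apply sum_congr rfl
  intro n _
  rw [surv_eq]

/-- The number of truncated-minimal integers up to `N`. -/
noncomputable def cnt (c : ℝ) (N : ℕ) : ℕ := {n : ℕ | 1 ≤ n ∧ n ≤ N ∧ TruncMin c n}.ncard

open Classical in
theorem cnt_eq (c : ℝ) (N : ℕ) : cnt c N = ((Icc 1 N).filter (fun n => TruncMin c n)).card := by
  unfold cnt
  rw [← Set.ncard_coe_finset]
  congr 1
  ext n
  simp [and_assoc]

theorem cnt_lower (K N : ℕ) (hN : 1 ≤ N) {c : ℝ} (hc : c ≤ 1 / 50) :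
    N * (pf K * pb K) - 12 ^ K - ((K * 3 ^ K + Nat.log 3 N + 1) + 340 * N * 0.98562 ^ K +
      5 * N * 0.9995 ^ Nat.log 4 N) ≤ cnt c N := by
  classical
  have h1 := (sum_surv K N).1
  rw [sum_surv_card] at h1
  have h2 := bad_card K N hN
  have h3 : ((Icc 1 N).filter (fun n => Vf K 1 1 n ∧ Vb K 1 1 n)).card ≤
      ((Icc 1 N).filter (fun n => (Vf K 1 1 n ∧ Vb K 1 1 n) ∧ ¬ TruncMin (1 / 50) n)).card + cnt c N := by
    rw [cnt_eq]
    refine le_trans (card_le_card ?_) (card_union_le _ _)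
    intro n hn
    rw [mem_filter] at hn
    rw [mem_union, mem_filter, mem_filter]
    by_cases h : TruncMin (1 / 50) n
    · right; exact ⟨hn.1, TruncMin.mono (mem_Icc.1 hn.1).1 hc h⟩
    · left; exact ⟨hn.1, hn.2, h⟩
  have h3' : (((Icc 1 N).filter (fun n => Vf K 1 1 n ∧ Vb K 1 1 n)).card : ℝ) ≤
      (((Icc 1 N).filter (fun n => (Vf K 1 1 n ∧ Vb K 1 1 n) ∧ ¬ TruncMin (1 / 50) n)).card : ℝ) + cnt c N := by
    exact_mod_cast h3
  linarith

theorem cnt_upper {c : ℝ} (hc : 0 < c) (K : ℕ) : ∃ N0 : ℕ, ∀ N, (cnt c N : ℝ) ≤ N * (pf K * pb K) + N0 := by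
  classical
  -- the threshold
  obtain ⟨M, hM⟩ := exists_nat_ge (((2 : ℝ) ^ K) ^ (1 / c))
  refine ⟨4 ^ K + M + 12 ^ K, fun N => ?_⟩
  have hsub : (Icc 1 N).filter (fun n => TruncMin c n) ⊆
      Icc 1 (4 ^ K + M) ∪ (Icc 1 N).filter (fun n => Vf K 1 1 n ∧ Vb K 1 1 n) := by
    intro n hn
    rw [mem_filter] at hn
    rw [mem_union, mem_filter]
    by_cases h : n ≤ 4 ^ K + M
    · left; exact mem_Icc.2 ⟨(mem_Icc.1 hn.1).1, h⟩
    · right
      push Not at h
      refine ⟨hn.1, no_dip_of_truncMin (by omega) ?_ hn.2⟩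
      have hn1 : 1 ≤ n := (mem_Icc.1 hn.1).1
      have hnR : (0 : ℝ) < n := by exact_mod_cast hn1
      have h1 : ((2 : ℝ) ^ K) ^ (1 / c) ≤ n := by
        refine hM.trans ?_
        have h8 : 0 < 4 ^ K := by positivity
        have : M ≤ n := by omega
        exact_mod_cast this
      have h2 : (2 : ℝ) ^ K ≤ (n : ℝ) ^ c := by
        have := Real.rpow_le_rpow (by positivity) h1 hc.le
        rw [← Real.rpow_mul (by positivity), one_div, inv_mul_cancel₀ hc.ne', Real.rpow_one] at this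
        exact this
      rw [Real.rpow_add hnR, Real.rpow_one, mul_comm]
      exact mul_le_mul_of_nonneg_left h2 hnR.le
  have h1 := card_le_card hsub
  have h2 := card_union_le (Icc 1 (4 ^ K + M)) ((Icc 1 N).filter (fun n => Vf K 1 1 n ∧ Vb K 1 1 n))
  rw [Nat.card_Icc, Nat.add_sub_cancel] at h2
  have h3 := (sum_surv K N).2
  rw [sum_surv_card] at h3
  rw [cnt_eq]
  have h4 : (((Icc 1 N).filter (fun n => TruncMin c n)).card : ℝ) ≤
      ((4 ^ K + M + ((Icc 1 N).filter (fun n => Vf K 1 1 n ∧ Vb K 1 1 n)).card : ℕ) : ℝ) := by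
    exact_mod_cast h1.trans h2
  push_cast at h4 ⊢
  linarith

theorem tendsto_log4 : Tendsto (fun N : ℕ => (0.9995 : ℝ) ^ Nat.log 4 N) atTop (𝓝 0) := by
  have h1 : Tendsto (fun N : ℕ => Nat.log 4 N) atTop atTop := by
    apply tendsto_atTop_atTop.2
    intro b
    refine ⟨4 ^ b, fun a ha => ?_⟩
    have hpos : 0 < 4 ^ b := by positivity
    exact Nat.le_log_of_pow_le (by norm_num) ha
  exact (tendsto_pow_atTop_nhds_zero_of_lt_one (by norm_num) (by norm_num)).comp h1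

theorem log_sq_le (k : ℕ) : k ^ 2 ≤ 4 * 3 ^ k := by
  induction k with
  | zero => simp
  | succ k ih =>
    rw [pow_succ 3 k]
    have h2 : 2 * k + 1 ≤ 8 * 3 ^ k := by
      have : k < 3 ^ k := Nat.lt_pow_self (by norm_num)
      omega
    nlinarith

theorem tendsto_log3 : Tendsto (fun N : ℕ => (Nat.log 3 N : ℝ) / N) atTop (𝓝 0) := by
  have h1 : ∀ᶠ N : ℕ in atTop, (Nat.log 3 N : ℝ) / N ≤ 2 / √N := by
    filter_upwards [eventually_ge_atTop 1] with N hN
    have hNR : (0 : ℝ) < N := by exact_mod_cast hN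
    have h2 := log_sq_le (Nat.log 3 N)
    have h3 : 3 ^ Nat.log 3 N ≤ N := Nat.pow_log_le_self 3 (by omega)
    have h4 : (Nat.log 3 N : ℝ) ^ 2 ≤ 4 * N := by
      have : Nat.log 3 N ^ 2 ≤ 4 * N := by omega
      exact_mod_cast this
    have h5 : (Nat.log 3 N : ℝ) ≤ 2 * √N := by
      apply le_of_sq_le_sq _ (by positivity)
      rw [mul_pow, Real.sq_sqrt hNR.le]
      linarith
    have h6 : (0 : ℝ) < √N := Real.sqrt_pos.2 hNR
    rw [div_le_div_iff₀ hNR h6]
    have h7 : √(N : ℝ) * √N = N := Real.mul_self_sqrt hNR.le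
    nlinarith
  have h2 : Tendsto (fun N : ℕ => 2 / √(N : ℝ)) atTop (𝓝 0) := by
    have h3 : Tendsto (fun N : ℕ => √(N : ℝ)) atTop atTop :=
      Real.tendsto_sqrt_atTop.comp tendsto_natCast_atTop_atTop
    exact h3.const_div_atTop 2
  exact squeeze_zero' (Eventually.of_forall fun N => by positivity) h1 h2

/-- **The density of the truncated-minimal integers.** -/
theorem tendsto_cnt {c : ℝ} (hc : 0 < c) (hc' : c ≤ 1 / 50) :
    Tendsto (fun N : ℕ => (cnt c N : ℝ) / N) atTop (𝓝 kap) := by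
  rw [Metric.tendsto_atTop]
  intro ε hε
  -- choose K
  have hK1 : ∀ᶠ K in atTop, pf K * pb K < kap + ε / 4 :=
    tendsto_kap.eventually (gt_mem_nhds (by linarith))
  have hK2 : ∀ᶠ K : ℕ in atTop, 340 * (0.98562 : ℝ) ^ K < ε / 4 := by
    have : Tendsto (fun K : ℕ => 340 * (0.98562 : ℝ) ^ K) atTop (𝓝 (340 * 0)) :=
      (tendsto_pow_atTop_nhds_zero_of_lt_one (by norm_num) (by norm_num)).const_mul 340
    rw [mul_zero] at this
    exact this.eventually (gt_mem_nhds (by linarith))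
  obtain ⟨K, hKa, hKb⟩ := (hK1.and hK2).exists
  obtain ⟨N0, hN0⟩ := cnt_upper hc K
  -- the small terms
  set C : ℝ := 12 ^ K + K * 3 ^ K + 1 + N0 with hC
  have hC0 : 0 < C := by positivity
  have e1 : ∀ᶠ N : ℕ in atTop, C / N < ε / 8 := by
    have : Tendsto (fun N : ℕ => C / (N : ℝ)) atTop (𝓝 0) := tendsto_const_div_atTop_nhds_zero_nat C
    exact this.eventually (gt_mem_nhds (by linarith))
  have e2 : ∀ᶠ N : ℕ in atTop, (Nat.log 3 N : ℝ) / N < ε / 8 :=
    tendsto_log3.eventually (gt_mem_nhds (by linarith))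
  have e3 : ∀ᶠ N : ℕ in atTop, 5 * (0.9995 : ℝ) ^ Nat.log 4 N < ε / 8 := by
    have : Tendsto (fun N : ℕ => 5 * (0.9995 : ℝ) ^ Nat.log 4 N) atTop (𝓝 (5 * 0)) :=
      tendsto_log4.const_mul 5
    rw [mul_zero] at this
    exact this.eventually (gt_mem_nhds (by linarith))
  obtain ⟨N1, hN1⟩ := eventually_atTop.1 (e1.and (e2.and (e3.and (eventually_ge_atTop 1))))
  refine ⟨N1, fun N hN => ?_⟩
  obtain ⟨f1, f2, f3, f4⟩ := hN1 N hN
  have hNR : (0 : ℝ) < N := by exact_mod_cast f4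
  have g1 := cnt_lower K N f4 hc'
  have g2 := hN0 N
  have g3 := kap_le K
  rw [div_lt_iff₀ hNR] at f1 f2
  rw [Real.dist_eq, abs_lt]
  constructor
  · have : kap - ε < (cnt c N : ℝ) / N := by
      rw [lt_div_iff₀ hNR]
      have h1 : (N : ℝ) * kap ≤ N * (pf K * pb K) := mul_le_mul_of_nonneg_left g3 hNR.le
      have h2 : 340 * (N : ℝ) * 0.98562 ^ K ≤ ε / 4 * N := by
        have := mul_le_mul_of_nonneg_left hKb.le hNR.le
        linarith
      have h3 : 5 * (N : ℝ) * 0.9995 ^ Nat.log 4 N ≤ ε / 8 * N := by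
        have := mul_le_mul_of_nonneg_left f3.le hNR.le
        linarith
      have h4 : (12 : ℝ) ^ K + K * 3 ^ K + 1 ≤ C := by
        rw [hC]; have : (0 : ℝ) ≤ N0 := by positivity
        linarith
      nlinarith
    linarith
  · have : (cnt c N : ℝ) / N < kap + ε := by
      rw [div_lt_iff₀ hNR]
      have h1 : (N : ℝ) * (pf K * pb K) ≤ N * (kap + ε / 4) := mul_le_mul_of_nonneg_left hKa.le hNR.le
      have h2 : (N0 : ℝ) ≤ C := by
        rw [hC]
        have : (0 : ℝ) ≤ 12 ^ K + K * 3 ^ K + 1 := by positivity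
        linarith
      nlinarith
    linarith

/-! ### The number of orbits -/

theorem mem_orb_self (n : ℕ) : n ∈ orb n := ⟨0, Or.inl rfl⟩

theorem orb_symm {n m : ℕ} (h : m ∈ orb n) : n ∈ orb m := by
  obtain ⟨k, hk⟩ := h
  exact ⟨k, hk.symm⟩

theorem orb_trans {n m p : ℕ} (h1 : m ∈ orb n) (h2 : p ∈ orb m) : p ∈ orb n := by
  obtain ⟨k, hk⟩ := h1
  obtain ⟨l, hl⟩ := h2
  rcases hk with hk | hk <;> rcases hl with hl | hl
  · exact ⟨l + k, Or.inl (by rw [Function.iterate_add_apply, hk, hl])⟩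
  · rcases le_total l k with h | h
    · refine ⟨k - l, Or.inl ?_⟩
      apply f_injective.iterate l
      rw [← Function.iterate_add_apply, Nat.add_sub_cancel' h, hk, hl]
    · refine ⟨l - k, Or.inr ?_⟩
      apply f_injective.iterate k
      rw [← Function.iterate_add_apply, Nat.add_sub_cancel' h, hl, hk]
  · rcases le_total l k with h | h
    · refine ⟨k - l, Or.inr ?_⟩
      rw [← hl, ← Function.iterate_add_apply, Nat.sub_add_cancel h, hk]
    · refine ⟨l - k, Or.inl ?_⟩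
      rw [← hk, ← Function.iterate_add_apply, Nat.sub_add_cancel h, hl]
  · exact ⟨k + l, Or.inr (by rw [Function.iterate_add_apply, hl, hk])⟩

theorem orb_eq {n m : ℕ} (h : m ∈ orb n) : orb m = orb n := by
  ext p
  exact ⟨fun hp => orb_trans h hp, fun hp => orb_trans (orb_symm h) hp⟩

/-- Every orbit that meets `[1, N]` has its least element among the truncated-minimal integers up
to `N`. -/
theorem orbits_le (c : ℝ) (N : ℕ) : (orb '' Set.Icc 1 N).ncard ≤ cnt c N := by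
  unfold cnt
  have hfin : {n : ℕ | 1 ≤ n ∧ n ≤ N ∧ TruncMin c n}.Finite :=
    (Set.finite_Icc 1 N).subset fun n hn => ⟨hn.1, hn.2.1⟩
  have hsub : orb '' Set.Icc 1 N ⊆ orb '' {n : ℕ | 1 ≤ n ∧ n ≤ N ∧ TruncMin c n} := by
    rintro _ ⟨x, hx, rfl⟩
    classical
    have hex : ∃ y, 1 ≤ y ∧ y ∈ orb x := ⟨x, hx.1, mem_orb_self x⟩
    set m := Nat.find hex with hm
    obtain ⟨hm1, hm2⟩ := Nat.find_spec hex
    have hmin : ∀ y, 1 ≤ y → y ∈ orb x → m ≤ y := fun y h1 h2 => Nat.find_min' hex ⟨h1, h2⟩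
    refine ⟨m, ⟨hm1, (hmin x hx.1 (mem_orb_self x)).trans hx.2, ?_⟩, orb_eq hm2⟩
    intro y hy hj
    apply hmin y hy
    apply orb_trans hm2
    rcases hj with ⟨k, hk, _⟩ | ⟨k, hk, _⟩
    · exact ⟨k, Or.inl hk⟩
    · exact ⟨k, Or.inr hk⟩
  exact (Set.ncard_le_ncard hsub (hfin.image _)).trans (Set.ncard_image_le hfin)

end Pool.Agent.Helper994_CO
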